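import Pool.Agent.U598.MD.Red

/-!
The subfield of a correspondence which is generated by the coordinates.
-/

set_option autoImplicit false
set_option linter.overlappingInstances false
set_option linter.unusedSectionVars false

open FF MvPolynomial Pool.Agent.W602.GT Pool.Agent.Y184.NT

namespace Pool.Agent.U598.MD

/-- every correspondence is generically finite over its image in the product -/
theorem exists_sub {M L K : Type} [Field M] [Algebra ℂ M] [Field L] [Algebra ℂ L] [Field K]
    [Algebra ℂ K] [Algebra M K] [IsScalarTower ℂ M K] [FiniteDimensional M K] [Algebra L K]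
    [IsScalarTower ℂ L K] [FiniteDimensional L K] {N : ℕ} {x : Fin N → M}
    (hx : IntermediateField.adjoin ℂ (Set.range x) = ⊤) :
    ∃ (K' : Type) (_ : Field K') (_ : Algebra ℂ K') (_ : Algebra M K') (_ : IsScalarTower ℂ M K')
      (_ : FiniteDimensional M K') (_ : Algebra L K') (_ : IsScalarTower ℂ L K')
      (_ : FiniteDimensional L K'), Module.finrank L K' ≤ Module.finrank L K ∧
      IntermediateField.adjoin L (Set.range fun j => algebraMap M K' (x j)) = ⊤ := by
  classical
  let K' := IntermediateField.adjoin L (Set.range fun j => algebraMap M K (x j))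
  have hmem : ∀ u : M, algebraMap M K u ∈ K' := by
    intro u
    have h1 : u ∈ IntermediateField.adjoin ℂ (Set.range x) := by
      rw [hx]
      trivial
    induction h1 using IntermediateField.adjoin_induction with
    | mem u hu =>
      obtain ⟨j, rfl⟩ := hu
      exact IntermediateField.subset_adjoin _ _ ⟨j, rfl⟩
    | algebraMap c =>
      rw [← IsScalarTower.algebraMap_apply ℂ M K, IsScalarTower.algebraMap_apply ℂ L K]
      exact K'.algebraMap_mem _
    | add u v _ _ hu hv =>
      rw [map_add]
      exact K'.add_mem hu hv
    | inv u _ hu =>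
      rw [map_inv₀]
      exact K'.inv_mem hu
    | mul u v _ _ hu hv =>
      rw [map_mul]
      exact K'.mul_mem hu hv
  let _ : Algebra M K' := ((algebraMap M K).codRestrict K' hmem).toAlgebra
  have hMK : IsScalarTower M K' K := IsScalarTower.of_algebraMap_eq fun u => rfl
  have hCK' : IsScalarTower ℂ K' K := IsScalarTower.of_algebraMap_eq fun u => rfl
  have h1 : IsScalarTower ℂ M K' := IsScalarTower.of_algebraMap_eq fun c => by
    apply Subtype.ext
    change algebraMap ℂ K c = algebraMap M K (algebraMap ℂ M c)
    rw [← IsScalarTower.algebraMap_apply ℂ M K]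
  have h2 : IsScalarTower ℂ L K' := IsScalarTower.of_algebraMap_eq fun c => by
    apply Subtype.ext
    change algebraMap ℂ K c = algebraMap L K (algebraMap ℂ L c)
    rw [← IsScalarTower.algebraMap_apply ℂ L K]
  have h3 : FiniteDimensional M K' :=
    FiniteDimensional.of_injective ((IsScalarTower.toAlgHom M K' K).toLinearMap)
      (algebraMap K' K).injective
  have h4 : FiniteDimensional L K' := inferInstance
  refine ⟨K', inferInstance, inferInstance, inferInstance, h1, h3, inferInstance, h2, h4, ?_, ?_⟩
  · exact Submodule.finrank_le (Subalgebra.toSubmodule K'.toSubalgebra)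
  · rw [eq_top_iff]
    rintro ⟨u, hu⟩ -
    have key : ∀ u ∈ IntermediateField.adjoin L (Set.range fun j => algebraMap M K (x j)),
        ∀ hu : u ∈ K', (⟨u, hu⟩ : K') ∈
          IntermediateField.adjoin L (Set.range fun j => algebraMap M K' (x j)) := by
      intro u hu
      induction hu using IntermediateField.adjoin_induction with
      | mem u hu =>
        intro h
        obtain ⟨j, rfl⟩ := hu
        exact IntermediateField.subset_adjoin _ _ ⟨j, rfl⟩
      | algebraMap c =>
        intro h
        exact (IntermediateField.adjoin L (Set.range fun j => algebraMap M K' (x j))).algebraMap_mem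
          c
      | add u v hu hv ihu ihv =>
        intro h
        have h1 : (⟨u + v, h⟩ : K') = ⟨u, hu⟩ + ⟨v, hv⟩ := rfl
        rw [h1]
        exact add_mem (ihu hu) (ihv hv)
      | inv u hu ihu =>
        intro h
        have h1 : (⟨u⁻¹, h⟩ : K') = ⟨u, hu⟩⁻¹ := rfl
        rw [h1]
        exact inv_mem (ihu hu)
      | mul u v hu hv ihu ihv =>
        intro h
        have h1 : (⟨u * v, h⟩ : K') = ⟨u, hu⟩ * ⟨v, hv⟩ := rfl
        rw [h1]
        exact mul_mem (ihu hu) (ihv hv)
    exact key u hu hu

end Pool.Agent.U598.MD
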