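import Mathlib

/-!
The combinatorics of the degrees.
-/

set_option autoImplicit false

namespace Pool.Agent.U598.MD

open Finset

/-- a decreasing predicate is given by a bound -/
theorem exists_cut (s : ℕ) (P : ℕ → Prop) (hP : ∀ k, 1 ≤ k → k + 1 ≤ s → P (k + 1) → P k) :
    ∃ q ≤ s, ∀ k, 1 ≤ k → k ≤ s → (P k ↔ k ≤ q) := by
  induction s with
  | zero => exact ⟨0, le_rfl, fun k h1 h2 => by omega⟩
  | succ s ih =>
    obtain ⟨q, hq, h⟩ := ih fun k h1 h2 => hP k h1 (by omega)
    by_cases hs : P (s + 1)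
    · refine ⟨s + 1, le_rfl, fun k h1 h2 => ⟨fun _ => h2, fun _ => ?_⟩⟩
      have key : ∀ w k, k + w = s + 1 → 1 ≤ k → P k := by
        intro w
        induction w with
        | zero =>
          intro k hk _
          rw [show k = s + 1 by omega]
          exact hs
        | succ w ihw =>
          intro k hk hk1
          exact hP k hk1 (by omega) (ihw (k + 1) (by omega) (by omega))
      exact key (s + 1 - k) k (by omega) h1
    · refine ⟨q, by omega, fun k h1 h2 => ?_⟩
      by_cases hk : k ≤ s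
      · exact h k h1 hk
      · rw [show k = s + 1 by omega]
        exact ⟨fun h' => absurd h' hs, fun h' => by omega⟩

theorem sum_shift (e : ℕ → ℕ) (a t : ℕ) : ∀ (b : ℕ → ℕ) (q : ℕ), q ≤ a + t →
    (∀ u < t, a < q - u → e (q - u) ≤ b u) → ∑ k ∈ Ioc a q, e k ≤ ∑ u ∈ range t, b u := by
  induction t with
  | zero =>
    intro b q hq _
    rw [Ioc_eq_empty (by omega)]
    simp
  | succ t ih =>
    intro b q hq hb
    by_cases h : q ≤ a
    · rw [Ioc_eq_empty (by omega)]
      simp
    · obtain ⟨q', rfl⟩ : ∃ q', q = q' + 1 := ⟨q - 1, by omega⟩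
      rw [sum_Ioc_succ_top (by omega), sum_range_succ']
      refine add_le_add (ih (fun u => b (u + 1)) q' (by omega) fun u hu hau => ?_) ?_
      · have h1 := hb (u + 1) (by omega) (by omega)
        rwa [show q' + 1 - (u + 1) = q' - u by omega] at h1
      · have h1 := hb 0 (by omega) (by omega)
        rwa [Nat.sub_zero] at h1

/-- **The degrees of the equations.** -/
theorem comb {s c p m : ℕ} (hp : 1 ≤ p) (hsp : s ≤ p) (e δ : ℕ → ℕ)
    (he : ∀ k, 1 ≤ k → k + 1 ≤ s → e (k + 1) ≤ e k)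
    (hδ : ∀ i j, i ≤ j → j < c → δ i ≤ δ j) (hsum : ∑ j ∈ range c, δ j ≤ m + p + 1)
    (hstar : ∀ i < c, ∀ k ≤ s, (∀ k', 1 ≤ k' → k' ≤ s → (δ i ≤ e k' ↔ k' ≤ k)) →
      m < ∑ k' ∈ Ioc k s, e k' + ∑ j ∈ Ico (i + 1) c, (δ j - 1)) {i : ℕ} (hi : i < c)
    (hi2 : 2 * p < δ i) : c - i ≤ s ∧ δ i ≤ 2 * p * e (c - i) := by
  obtain ⟨q, hqs, hq⟩ := exists_cut s (fun k => δ i ≤ 2 * p * e k) fun k h1 h2 h3 =>
    h3.trans (Nat.mul_le_mul_left _ (he k h1 h2))
  have hcut : ∀ j, ∃ k ≤ s, ∀ k', 1 ≤ k' → k' ≤ s → (δ j ≤ e k' ↔ k' ≤ k) := fun j =>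
    exists_cut s (fun k => δ j ≤ e k) fun k h1 h2 h3 => h3.trans (he k h1 h2)
  choose κ hκs hκ using hcut
  -- the small degrees
  have hsmall : 2 * ∑ k ∈ Ioc q s, e k ≤ δ i := by
    have h1 : ∀ k ∈ Ioc q s, 2 * p * e k ≤ δ i := by
      intro k hk
      rw [mem_Ioc] at hk
      by_contra hcon
      have := (hq k (by omega) hk.2).1 (by omega)
      omega
    have h2 := Finset.sum_le_card_nsmul (Ioc q s) (fun k => 2 * p * e k) (δ i) h1
    rw [← Finset.mul_sum, Nat.card_Ioc, smul_eq_mul] at h2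
    have h3 : (s - q) * δ i ≤ p * δ i := Nat.mul_le_mul_right _ (by omega)
    have h4 : p * (2 * ∑ k ∈ Ioc q s, e k) ≤ p * δ i := by
      calc p * (2 * ∑ k ∈ Ioc q s, e k) = 2 * p * ∑ k ∈ Ioc q s, e k := by ring
        _ ≤ _ := h2.trans h3
    exact Nat.le_of_mul_le_mul_left h4 (by omega)
  -- the induction
  have key : ∀ t, i + t < c → κ (i + t) + (t + 1) ≤ q := by
    intro t
    induction t using Nat.strong_induction_on with
    | _ t ih =>
      intro htc
      by_contra hcon
      push Not at hcon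
      have hκq : κ (i + t) ≤ q := by
        by_contra h
        have h1 := (hκ (i + t) (κ (i + t)) (by omega) (hκs _)).2 le_rfl
        have h2 := hδ i (i + t) (by omega) htc
        have h3 := (hq (κ (i + t)) (by omega) (hκs _)).1 (by
          have h4 : e (κ (i + t)) ≤ 2 * p * e (κ (i + t)) := Nat.le_mul_of_pos_left _ (by omega)
          omega)
        omega
      have h1 : ∑ k ∈ Ioc (κ (i + t)) q, e k ≤ ∑ u ∈ range t, (δ (i + u) - 1) := by
        refine sum_shift e _ t (fun u => δ (i + u) - 1) q (by omega) fun u hu hau => ?_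
        have h2 := ih u hu (by omega)
        have h3 := hκ (i + u) (q - u) (by omega) (by omega)
        have h4 : ¬ δ (i + u) ≤ e (q - u) := fun h => by
          have := h3.1 h
          omega
        omega
      have h2 := hstar (i + t) htc (κ (i + t)) (hκs _) (hκ _)
      have h3 : ∑ k' ∈ Ioc (κ (i + t)) s, e k' =
          ∑ k ∈ Ioc (κ (i + t)) q, e k + ∑ k ∈ Ioc q s, e k := by
        rw [← Finset.sum_Ioc_consecutive _ hκq hqs]
      have h4 : ∑ j ∈ range c, δ j = ∑ j ∈ range i, δ j + (∑ u ∈ range t, δ (i + u) +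
          (δ (i + t) + ∑ j ∈ Ico (i + t + 1) c, δ j)) := by
        rw [← Finset.sum_eq_sum_Ico_succ_bot htc, ← Finset.sum_range_add_sum_Ico δ hi.le]
        congr 1
        rw [← Finset.sum_Ico_consecutive δ (show i ≤ i + t by omega) htc.le,
          Finset.sum_Ico_eq_sum_range, show i + t - i = t by omega]
      have h5 : ∑ u ∈ range t, (δ (i + u) - 1) ≤ ∑ u ∈ range t, δ (i + u) :=
        Finset.sum_le_sum fun _ _ => Nat.sub_le _ _
      have h6 : ∑ j ∈ Ico (i + t + 1) c, (δ j - 1) ≤ ∑ j ∈ Ico (i + t + 1) c, δ j :=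
        Finset.sum_le_sum fun _ _ => Nat.sub_le _ _
      have h7 := hδ i (i + t) (by omega) htc
      omega
  have h1 := key (c - 1 - i) (by omega)
  have h2 : c - i ≤ q := by omega
  exact ⟨by omega, (hq (c - i) (by omega) (by omega)).2 h2⟩

/-- **The product of the degrees.** -/
theorem comb_prod {s c p m : ℕ} (hp : 1 ≤ p) (hsp : s ≤ p) (e δ : ℕ → ℕ)
    (he : ∀ k, 1 ≤ k → k + 1 ≤ s → e (k + 1) ≤ e k) (he1 : ∀ k, 1 ≤ k → k ≤ s → 1 ≤ e k)
    (hδ : ∀ i j, i ≤ j → j < c → δ i ≤ δ j) (hsum : ∑ j ∈ range c, δ j ≤ m + p + 1)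
    (hstar : ∀ i < c, ∀ k ≤ s, (∀ k', 1 ≤ k' → k' ≤ s → (δ i ≤ e k' ↔ k' ≤ k)) →
      m < ∑ k' ∈ Ioc k s, e k' + ∑ j ∈ Ico (i + 1) c, (δ j - 1)) :
    ∏ j ∈ range c, δ j ≤ (2 * p) ^ c * ∏ k ∈ Icc 1 s, e k := by
  have h1 : ∀ j ∈ range c, δ j ≤ 2 * p * (if c - j ≤ s then e (c - j) else 1) := by
    intro j hj
    rw [mem_range] at hj
    by_cases h : 2 * p < δ j
    · obtain ⟨h2, h3⟩ := comb hp hsp e δ he hδ hsum hstar hj h
      rwa [if_pos h2]
    · refine le_trans (not_lt.1 h) (Nat.le_mul_of_pos_right _ ?_)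
      split_ifs with h2
      · exact he1 _ (by omega) h2
      · exact one_pos
  calc ∏ j ∈ range c, δ j ≤ ∏ j ∈ range c, (2 * p * (if c - j ≤ s then e (c - j) else 1)) :=
        Finset.prod_le_prod' h1
    _ = (2 * p) ^ c * ∏ j ∈ range c, (if c - j ≤ s then e (c - j) else 1) := by
        rw [Finset.prod_mul_distrib, Finset.prod_const, card_range]
    _ = (2 * p) ^ c * ∏ k ∈ range c, (if k + 1 ≤ s then e (k + 1) else 1) := by
        congr 1
        rw [← Finset.prod_range_reflect]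
        refine Finset.prod_congr rfl fun j hj => ?_
        rw [mem_range] at hj
        rw [show c - (c - 1 - j) = j + 1 by omega]
    _ ≤ (2 * p) ^ c * ∏ k ∈ Icc 1 s, e k := by
        refine Nat.mul_le_mul_left _ ?_
        rw [← Finset.prod_filter]
        have h2 : ∏ k ∈ (range c).filter (fun k => k + 1 ≤ s), e (k + 1) =
            ∏ k ∈ ((range c).filter (fun k => k + 1 ≤ s)).image (· + 1), e k := by
          rw [Finset.prod_image]
          intro a _ b _ h
          simpa using h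
        rw [h2]
        refine Finset.prod_le_prod_of_subset_of_one_le' ?_ ?_
        · intro k hk
          rw [mem_image] at hk
          obtain ⟨a, ha, rfl⟩ := hk
          rw [mem_filter] at ha
          rw [mem_Icc]
          omega
        · intro k hk _
          rw [mem_Icc] at hk
          exact he1 k hk.1 hk.2

theorem pow_le_choose (k w : ℕ) : w ^ k ≤ k.factorial * (k + w).choose w := by
  have h1 : (w + 1) ^ k ≤ (w + 1).ascFactorial k := Nat.pow_succ_le_ascFactorial (w + 1) k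
  rw [Nat.ascFactorial_eq_factorial_mul_choose] at h1
  have h2 : (k + w).choose w = (w + k).choose k := by
    rw [add_comm k w, Nat.choose_symm_add]
  rw [h2]
  exact (Nat.pow_le_pow_left (by omega) k).trans h1

/-- **The chain of the growth inequalities.** -/
theorem chain {s : ℕ} (hs : 1 ≤ s) (e h : ℕ → ℕ) (he : ∀ k, 1 ≤ k → k + 1 ≤ s → e (k + 1) ≤ e k)
    (he1 : ∀ k, 1 ≤ k → k ≤ s → 1 ≤ e k) (hmono : ∀ a b, a ≤ b → h a ≤ h b)
    (hbase : e s ^ s ≤ s.factorial * h (e s))
    (hstep : ∀ k, 1 ≤ k → k + 1 ≤ s → e (k + 1) < e k →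
      (k + (e k - e (k + 1))).choose (e k - e (k + 1)) * h (e (k + 1)) ≤
        (e (k + 1) + 1) ^ k * h (e k)) :
    ∏ k ∈ Icc 1 s, e k ≤ (∏ k ∈ Icc 1 s, 4 ^ k * k.factorial) * h (e 1) := by
  have hsharp : ∀ k, 1 ≤ k → k + 1 ≤ s →
      e k ^ k * h (e (k + 1)) ≤ 4 ^ k * k.factorial * (e (k + 1) ^ k * h (e k)) := by
    intro k hk1 hks
    have hpos := he1 (k + 1) (by omega) hks
    have hfac : 1 ≤ k.factorial := Nat.factorial_pos k
    by_cases hcase : 2 * e (k + 1) ≤ e k
    · have h1 := hstep k hk1 hks (by omega)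
      generalize hw : e k - e (k + 1) = w at h1
      have h2 : e k ^ k ≤ 2 ^ k * (k.factorial * (k + w).choose w) := by
        calc e k ^ k ≤ (2 * w) ^ k := Nat.pow_le_pow_left (by omega) k
          _ = 2 ^ k * w ^ k := by rw [mul_pow]
          _ ≤ _ := Nat.mul_le_mul_left _ (pow_le_choose k w)
      calc e k ^ k * h (e (k + 1))
          ≤ 2 ^ k * (k.factorial * (k + w).choose w) * h (e (k + 1)) :=
            Nat.mul_le_mul_right _ h2
        _ = 2 ^ k * k.factorial * ((k + w).choose w * h (e (k + 1))) := by ring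
        _ ≤ 2 ^ k * k.factorial * ((e (k + 1) + 1) ^ k * h (e k)) := Nat.mul_le_mul_left _ h1
        _ ≤ 2 ^ k * k.factorial * ((2 * e (k + 1)) ^ k * h (e k)) := by
            refine Nat.mul_le_mul_left _ (Nat.mul_le_mul_right _ (Nat.pow_le_pow_left ?_ k))
            omega
        _ = 4 ^ k * k.factorial * (e (k + 1) ^ k * h (e k)) := by
            rw [mul_pow, show (4 : ℕ) = 2 * 2 by norm_num, mul_pow]
            ring
    · push Not at hcase
      calc e k ^ k * h (e (k + 1)) ≤ (2 * e (k + 1)) ^ k * h (e k) :=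
            Nat.mul_le_mul (Nat.pow_le_pow_left hcase.le k) (hmono _ _ (he k hk1 hks))
        _ = 2 ^ k * 1 * (e (k + 1) ^ k * h (e k)) := by rw [mul_pow]; ring
        _ ≤ 4 ^ k * k.factorial * (e (k + 1) ^ k * h (e k)) :=
            Nat.mul_le_mul_right _ (Nat.mul_le_mul (Nat.pow_le_pow_left (by norm_num) k) hfac)
  have key : ∀ w k, k + w = s → 1 ≤ k → e k ^ k * ∏ j ∈ Ioc k s, e j ≤
      (∏ j ∈ Icc k s, 4 ^ j * j.factorial) * h (e k) := by
    intro w
    induction w with
    | zero =>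
      intro k hk hk1
      obtain rfl : k = s := by omega
      rw [Ioc_self, prod_empty, mul_one, Icc_self, prod_singleton]
      refine hbase.trans ?_
      rw [mul_assoc]
      exact Nat.le_mul_of_pos_left _ (by positivity)
    | succ w ih =>
      intro k hk hk1
      have h1 := ih (k + 1) (by omega) (by omega)
      have h2 := hsharp k hk1 (by omega)
      have hpos := he1 (k + 1) (by omega) (by omega)
      have h3 : ∏ j ∈ Ioc k s, e j = e (k + 1) * ∏ j ∈ Ioc (k + 1) s, e j := by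
        rw [← Finset.prod_Ioc_consecutive e (show k ≤ k + 1 by omega) (by omega : k + 1 ≤ s),
          Nat.Ioc_succ_singleton, prod_singleton]
      have h4 : ∏ j ∈ Icc k s, 4 ^ j * j.factorial =
          4 ^ k * k.factorial * ∏ j ∈ Icc (k + 1) s, 4 ^ j * j.factorial := by
        rw [← Finset.mul_prod_Ioc_eq_prod_Icc (by omega : k ≤ s)]
        have h5 : Ioc k s = Icc (k + 1) s := by
          ext j
          rw [mem_Ioc, mem_Icc]
          omega
        rw [h5]
      rw [h3, h4]
      have h5 : 0 < e (k + 1) ^ k := by positivity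
      refine Nat.le_of_mul_le_mul_left ?_ h5
      generalize ∏ j ∈ Ioc (k + 1) s, e j = P at *
      generalize ∏ j ∈ Icc (k + 1) s, 4 ^ j * j.factorial = A at *
      calc e (k + 1) ^ k * (e k ^ k * (e (k + 1) * P))
          = e k ^ k * (e (k + 1) ^ (k + 1) * P) := by ring
        _ ≤ e k ^ k * (A * h (e (k + 1))) := Nat.mul_le_mul_left _ h1
        _ = A * (e k ^ k * h (e (k + 1))) := by ring
        _ ≤ A * (4 ^ k * k.factorial * (e (k + 1) ^ k * h (e k))) := Nat.mul_le_mul_left _ h2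
        _ = e (k + 1) ^ k * (4 ^ k * k.factorial * A * h (e k)) := by ring
  have h1 := key (s - 1) 1 (by omega) le_rfl
  rw [pow_one, Finset.mul_prod_Ioc_eq_prod_Icc hs] at h1
  exact h1

theorem const_le {s p : ℕ} (hsp : s ≤ p) (hp : 1 ≤ p) :
    ∏ k ∈ Icc 1 s, 4 ^ k * k.factorial ≤ (4 * p) ^ (p * (p + 1) / 2) := by
  calc ∏ k ∈ Icc 1 s, 4 ^ k * k.factorial ≤ ∏ k ∈ Icc 1 s, (4 * p) ^ k := by
        refine Finset.prod_le_prod' fun k hk => ?_
        rw [mem_Icc] at hk
        rw [mul_pow]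
        exact Nat.mul_le_mul_left _ ((Nat.factorial_le_pow k).trans
          (Nat.pow_le_pow_left (by omega) k))
    _ = (4 * p) ^ (∑ k ∈ Icc 1 s, k) := by rw [Finset.prod_pow_eq_pow_sum]
    _ ≤ _ := by
        refine Nat.pow_le_pow_right (by omega) ?_
        have h1 : ∑ k ∈ Icc 1 s, k ≤ ∑ k ∈ range (p + 1), k :=
          Finset.sum_le_sum_of_subset fun k hk => by
            rw [mem_Icc] at hk
            rw [mem_range]
            omega
        have h2 := Finset.sum_range_id_mul_two (p + 1)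
        rw [Nat.add_sub_cancel] at h2
        rw [Nat.le_div_iff_mul_le (by norm_num)]
        calc (∑ k ∈ Icc 1 s, k) * 2 ≤ (∑ k ∈ range (p + 1), k) * 2 := Nat.mul_le_mul_right _ h1
          _ = (p + 1) * p := h2
          _ = p * (p + 1) := by ring

end Pool.Agent.U598.MD
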