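import Pool.Agent.U598.MD.Krull

/-!
The norm of an element of degree at most `τ` of an affine variety has degree at most `τ ρ`.
-/

set_option autoImplicit false
set_option linter.unusedSectionVars false

open MvPolynomial

namespace Pool.Agent.U598.MD

section

variable {E : Type*} [Field E] {k : ℕ}

/-- the rational functions of degree at most zero -/
def degRing (E : Type*) [Field E] (k : ℕ) :
    ValuationSubring (FractionRing (MvPolynomial (Fin k) E)) where
  carrier := {x | ∃ a b : MvPolynomial (Fin k) E, b ≠ 0 ∧ a.totalDegree ≤ b.totalDegree ∧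
    x * algebraMap _ (FractionRing (MvPolynomial (Fin k) E)) b = algebraMap _ _ a}
  mul_mem' := by
    rintro x y ⟨a, b, hb, h, hx⟩ ⟨c, d, hd, h', hy⟩
    refine ⟨a * c, b * d, mul_ne_zero hb hd, ?_, ?_⟩
    · rw [totalDegree_mul_of_isDomain hb hd]
      exact (totalDegree_mul _ _).trans (add_le_add h h')
    · rw [map_mul, map_mul, ← hx, ← hy]
      ring
  one_mem' := ⟨1, 1, one_ne_zero, le_rfl, by rw [one_mul]⟩
  add_mem' := by
    rintro x y ⟨a, b, hb, h, hx⟩ ⟨c, d, hd, h', hy⟩
    refine ⟨a * d + c * b, b * d, mul_ne_zero hb hd, ?_, ?_⟩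
    · rw [totalDegree_mul_of_isDomain hb hd]
      refine (totalDegree_add _ _).trans (max_le ?_ ?_)
      · exact (totalDegree_mul _ _).trans (add_le_add h le_rfl)
      · refine (totalDegree_mul _ _).trans ?_
        rw [add_comm]
        exact add_le_add le_rfl h'
    · rw [map_mul, map_add, map_mul, map_mul, ← hx, ← hy]
      ring
  zero_mem' := ⟨0, 1, one_ne_zero, by simp, by rw [zero_mul, map_zero]⟩
  neg_mem' := by
    rintro x ⟨a, b, hb, h, hx⟩
    exact ⟨-a, b, hb, by rwa [totalDegree_neg], by rw [neg_mul, hx, map_neg]⟩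
  mem_or_inv_mem' := by
    intro x
    by_cases hx0 : x = 0
    · left
      rw [hx0]
      exact ⟨0, 1, one_ne_zero, by simp, by rw [zero_mul, map_zero]⟩
    obtain ⟨a, b, hb, rfl⟩ := IsFractionRing.div_surjective (A := MvPolynomial (Fin k) E) x
    have hb0 : b ≠ 0 := nonZeroDivisors.ne_zero hb
    have hb' : algebraMap (MvPolynomial (Fin k) E) (FractionRing (MvPolynomial (Fin k) E)) b ≠ 0 :=
      fun h => hb0 (IsFractionRing.injective (MvPolynomial (Fin k) E) _ (by rw [h, map_zero]))
    have ha' : algebraMap (MvPolynomial (Fin k) E) (FractionRing (MvPolynomial (Fin k) E)) a ≠ 0 :=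
      fun h => hx0 (by rw [h, zero_div])
    have ha0 : a ≠ 0 := fun h => ha' (by rw [h, map_zero])
    rcases le_total a.totalDegree b.totalDegree with h | h
    · left
      exact ⟨a, b, hb0, h, div_mul_cancel₀ _ hb'⟩
    · right
      exact ⟨b, a, ha0, h, by rw [inv_div, div_mul_cancel₀ _ ha']⟩

theorem core {F : Type*} [Field F] [Algebra (MvPolynomial (Fin (k + 1)) E) F]
    [Algebra (FractionRing (MvPolynomial (Fin (k + 1)) E)) F]
    [IsScalarTower (MvPolynomial (Fin (k + 1)) E) (FractionRing (MvPolynomial (Fin (k + 1)) E)) F]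
    [FiniteDimensional (FractionRing (MvPolynomial (Fin (k + 1)) E)) F] {g : F}
    (hg : IsIntegral (MvPolynomial (Fin (k + 1)) E) g)
    (hg' : ((algebraMap (FractionRing (MvPolynomial (Fin (k + 1)) E)) F).comp
      (degRing E (k + 1)).subtype).IsIntegralElem
        (algebraMap (MvPolynomial (Fin (k + 1)) E) F (X 0) * g)) : g = 0 := by
  classical
  let A := MvPolynomial (Fin (k + 1)) E
  let K := FractionRing A
  let O := degRing E (k + 1)
  let _ : Algebra O F := ((algebraMap K F).comp O.subtype).toAlgebra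
  have : IsScalarTower O K F := IsScalarTower.of_algebraMap_eq fun _ => rfl
  have h1 : IsIntegral A (Algebra.norm K g) := Algebra.isIntegral_norm K hg
  have h2 : IsIntegral O (Algebra.norm K (algebraMap A F (X 0) * g)) :=
    Algebra.isIntegral_norm K (R := O) hg'
  obtain ⟨P, hP⟩ := (IsIntegrallyClosed.isIntegral_iff (R := A) (K := K)).1 h1
  obtain ⟨⟨o, a, b, hb, hab, ho⟩, ho2⟩ := (IsIntegrallyClosed.isIntegral_iff (R := O) (K := K)).1 h2
  change o = _ at ho2
  rw [map_mul, IsScalarTower.algebraMap_apply A K F, Algebra.norm_algebraMap, ← hP] at ho2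
  by_contra hg0
  have hN : Algebra.norm K g ≠ 0 := by
    rwa [Ne, Algebra.norm_eq_zero_iff]
  have hP0 : P ≠ 0 := by
    rintro rfl
    rw [map_zero] at hP
    exact hN hP.symm
  have h3 : X 0 ^ Module.finrank K F * P * b = a := by
    apply IsFractionRing.injective A K
    rw [map_mul, map_mul, map_pow, ← ho2]
    exact ho
  have h4 := congrArg totalDegree h3
  have hX : (X 0 ^ Module.finrank K F : A) ≠ 0 := pow_ne_zero _ (X_ne_zero 0)
  rw [totalDegree_mul_of_isDomain (mul_ne_zero hX hP0) hb, totalDegree_mul_of_isDomain hX hP0,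
    totalDegree_X_pow] at h4
  have h5 : 0 < Module.finrank K F := Module.finrank_pos
  omega

end

end Pool.Agent.U598.MD
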