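import Pool.Agent.U598.MD.Grow2

/-!
The dimension at a point of the zero set of the polynomials of bounded degree.
-/

set_option autoImplicit false
set_option linter.unusedSectionVars false

open MvPolynomial
open Pool.Agent.U598.IK (Ind ind_zero)

namespace Pool.Agent.U598.MD

section

variable {E : Type} [Field E] [Infinite E] {s : ℕ}

/-- the generic point of a prime ideal, with a normalization -/
theorem gen_pt {𝔭 : Ideal (MvPolynomial (Fin s) E)} (h𝔭 : 𝔭.IsPrime) {k : ℕ} (hI : Ind 𝔭 k)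
    (hI' : ¬ Ind 𝔭 (k + 1)) : ∃ (F : Type) (_ : Field F) (_ : Algebra E F) (y : Fin s → F)
      (z : Fin k → F), (∀ G : MvPolynomial (Fin s) E, aeval y G = 0 ↔ G ∈ 𝔭) ∧
      IntermediateField.adjoin E (Set.range y) = ⊤ ∧
      (∀ j, z j ∈ Submodule.span E (Set.range y)) ∧ AlgebraicIndependent E z ∧
      ∀ i, IntOver E (HS z) (Polynomial.X * Polynomial.C (y i)) := by
  classical
  let B := MvPolynomial (Fin s) E ⧸ 𝔭
  let F := FractionRing B
  have hdom : IsDomain B := Ideal.Quotient.isDomain 𝔭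
  have hmkF : ∀ {ρ : Type} (w : ρ → MvPolynomial (Fin s) E) (P : MvPolynomial ρ E),
      aeval (fun i => algebraMap B F (Ideal.Quotient.mk 𝔭 (w i))) P =
        algebraMap B F (Ideal.Quotient.mk 𝔭 (aeval w P)) := by
    intro ρ w P
    have h1 : aeval (fun i => Ideal.Quotient.mk 𝔭 (w i)) P = Ideal.Quotient.mk 𝔭 (aeval w P) :=
      (comp_aeval_apply (φ := Ideal.Quotient.mkₐ E 𝔭) w P).symm
    rw [← h1]
    exact (comp_aeval_apply (φ := IsScalarTower.toAlgHom E B F) _ P).symm
  obtain ⟨k', z, hz1, hz2, hz3⟩ := nn (E := E) (fun i : Fin s =>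
    algebraMap B F (Ideal.Quotient.mk 𝔭 (X i)))
  have hlift : ∀ j, ∃ Z : MvPolynomial (Fin s) E,
      algebraMap B F (Ideal.Quotient.mk 𝔭 Z) = z j := by
    intro j
    let ψ : MvPolynomial (Fin s) E →ₗ[E] F :=
      ((IsScalarTower.toAlgHom E B F).comp (Ideal.Quotient.mkₐ E 𝔭)).toLinearMap
    have h1 : z j ∈ (Submodule.span E (Set.range (X : Fin s → MvPolynomial (Fin s) E))).map ψ := by
      rw [Submodule.map_span, ← Set.range_comp]
      exact hz1 j
    obtain ⟨Z, -, hZ2⟩ := h1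
    exact ⟨Z, hZ2⟩
  choose Z hZ using hlift
  have hk1 : k' ≤ k := by
    by_contra hcon
    apply hI'
    have h1 : Ind 𝔭 k' := by
      refine ⟨Z, fun P hP hmem => hP ?_⟩
      apply algebraicIndependent_iff.1 hz2
      have h2 := hmkF Z P
      rw [Ideal.Quotient.eq_zero_iff_mem.2 hmem, map_zero] at h2
      simpa only [hZ] using h2
    exact h1.of_le (by omega)
  have hbasis : IsTranscendenceBasis E z := by
    rw [hz2.isTranscendenceBasis_iff_isAlgebraic]
    have h1 : ∀ b : B, IsAlgebraic (Algebra.adjoin E (Set.range z)) (algebraMap B F b) := by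
      intro b
      obtain ⟨G, rfl⟩ := Ideal.Quotient.mk_surjective b
      have h2 : algebraMap B F (Ideal.Quotient.mk 𝔭 G) ∈ intAlg E (Set.range z) := by
        rw [← aeval_X_left_apply G, ← hmkF]
        induction G using MvPolynomial.induction_on with
        | C a =>
          rw [aeval_C]
          exact (intAlg E _).algebraMap_mem a
        | add p q hp hq =>
          rw [map_add]
          exact (intAlg E _).add_mem hp hq
        | mul_X p j hp =>
          rw [map_mul, aeval_X]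
          exact (intAlg E _).mul_mem hp (hz3 j).infty
      exact IsIntegral.isAlgebraic h2
    refine ⟨fun f => ?_⟩
    obtain ⟨a, b, -, rfl⟩ := IsFractionRing.div_surjective (A := B) f
    rw [div_eq_mul_inv]
    exact (h1 a).mul (h1 b).inv
  have hk2 : k ≤ k' := by
    obtain ⟨T, -, hT⟩ := hI.coords h𝔭
    have hind : AlgebraicIndependent E (fun i => algebraMap B F (Ideal.Quotient.mk 𝔭 (X (T i)))) := by
      rw [algebraicIndependent_iff]
      intro P hP
      by_contra hne
      rw [hmkF (fun i => X (T i)), map_eq_zero_iff _ (IsFractionRing.injective B F),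
        Ideal.Quotient.eq_zero_iff_mem] at hP
      exact hT P hne hP
    have h1 := hind.lift_cardinalMk_le_trdeg
    rw [← hbasis.lift_cardinalMk_eq_trdeg] at h1
    simpa using h1
  obtain rfl : k' = k := le_antisymm hk1 hk2
  refine ⟨F, inferInstance, inferInstance, fun i => algebraMap B F (Ideal.Quotient.mk 𝔭 (X i)), z,
    fun G => ?_, ?_, hz1, hz2, hz3⟩
  · have h1 := hmkF (fun i : Fin s => (X i : MvPolynomial (Fin s) E)) G
    rw [h1, aeval_X_left_apply, map_eq_zero_iff _ (IsFractionRing.injective B F),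
      Ideal.Quotient.eq_zero_iff_mem]
  · rw [eq_top_iff]
    intro r _
    have h1 : ∀ a : B, algebraMap B F a ∈ IntermediateField.adjoin E (Set.range fun i : Fin s =>
        algebraMap B F (Ideal.Quotient.mk 𝔭 (X i))) := by
      intro a
      obtain ⟨G, rfl⟩ := Ideal.Quotient.mk_surjective a
      rw [← aeval_X_left_apply G, ← hmkF]
      have h2 : aeval (fun i : Fin s => algebraMap B F (Ideal.Quotient.mk 𝔭 (X i))) G ∈
          Algebra.adjoin E (Set.range fun i : Fin s =>
            algebraMap B F (Ideal.Quotient.mk 𝔭 (X i))) := by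
        rw [Algebra.adjoin_range_eq_range_aeval]
        exact ⟨G, rfl⟩
      exact IntermediateField.algebra_adjoin_le_adjoin E _ h2
    obtain ⟨a, b, -, rfl⟩ := IsFractionRing.div_surjective (A := B) r
    exact IntermediateField.div_mem _ (h1 a) (h1 b)

end

section

variable {E K : Type} [Field E] [Field K] [Algebra E K] {s : ℕ}

/-- the polynomials of degree at most `d` which vanish at the point -/
noncomputable def lowd (E : Type) {K : Type} [Field E] [Field K] [Algebra E K] {s : ℕ} (y : Fin s → K) (d : ℕ) :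
    Submodule E (MvPolynomial (Fin s) E) :=
  restrictTotalDegree (Fin s) E d ⊓
    LinearMap.ker (aeval y : MvPolynomial (Fin s) E →ₐ[E] K).toLinearMap

theorem mem_lowd {y : Fin s → K} {d : ℕ} {G : MvPolynomial (Fin s) E} :
    G ∈ lowd E y d ↔ G.totalDegree ≤ d ∧ aeval y G = 0 := by
  rw [lowd, Submodule.mem_inf, mem_restrictTotalDegree, LinearMap.mem_ker]
  rfl

/-- the zero set of the polynomials of degree at most `d` which vanish at the point has dimension at
least `k` at the point -/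
def Dm (E : Type) {K : Type} [Field E] [Field K] [Algebra E K] {s : ℕ} (y : Fin s → K)
    (d k : ℕ) : Prop :=
  ∃ 𝔭 : Ideal (MvPolynomial (Fin s) E), 𝔭.IsPrime ∧ (∀ G ∈ lowd E y d, G ∈ 𝔭) ∧
    𝔭 ≤ RingHom.ker (aeval y : MvPolynomial (Fin s) E →ₐ[E] K) ∧ Ind 𝔭 k

theorem Dm.anti {y : Fin s → K} {d d' k : ℕ} (h : d' ≤ d) (hd : Dm E y d k) : Dm E y d' k := by
  obtain ⟨𝔭, h1, h2, h3, h4⟩ := hd
  refine ⟨𝔭, h1, fun G hG => h2 G ?_, h3, h4⟩
  rw [mem_lowd] at hG ⊢
  exact ⟨hG.1.trans h, hG.2⟩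

theorem Dm.of_le {y : Fin s → K} {d k k' : ℕ} (h : k' ≤ k) (hd : Dm E y d k) : Dm E y d k' := by
  obtain ⟨𝔭, h1, h2, h3, h4⟩ := hd
  exact ⟨𝔭, h1, h2, h3, h4.of_le h⟩

theorem Dm.le {y : Fin s → K} {d k : ℕ} (hd : Dm E y d k) : k ≤ s := by
  obtain ⟨𝔭, h1, h2, h3, h4⟩ := hd
  exact h4.le h1

theorem dm_zero (y : Fin s → K) (d : ℕ) : Dm E y d 0 := by
  have hprime : (RingHom.ker (aeval y : MvPolynomial (Fin s) E →ₐ[E] K)).IsPrime :=
    RingHom.ker_isPrime _
  exact ⟨_, hprime, fun G hG => (mem_lowd.1 hG).2, le_rfl, ind_zero hprime.ne_top⟩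

/-- if no polynomial of degree at most `d` vanishes -/
theorem dm_top {y : Fin s → K} {d : ℕ} (h : ∀ G : MvPolynomial (Fin s) E, G.totalDegree ≤ d →
    aeval y G = 0 → G = 0) : Dm E y d s := by
  refine ⟨⊥, Ideal.isPrime_bot, fun G hG => ?_, bot_le, ⟨X, fun P hP hmem => hP ?_⟩⟩
  · rw [Ideal.mem_bot]
    exact h G (mem_lowd.1 hG).1 (mem_lowd.1 hG).2
  · rwa [aeval_X_left_apply] at hmem

/-- the converse -/
theorem Dm.eq_zero {y : Fin s → K} {d : ℕ} (h : Dm E y d s) {G : MvPolynomial (Fin s) E}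
    (hG : G.totalDegree ≤ d) (hG0 : aeval y G = 0) : G = 0 := by
  obtain ⟨𝔭, h1, h2, h3, h4⟩ := h
  have h5 : 𝔭 = ⊥ := by
    by_contra h6
    have h7 := h4.lt Ideal.isPrime_bot (bot_lt_iff_ne_bot.2 h6)
    have h8 := h7.le Ideal.isPrime_bot
    omega
  have h6 := h2 G (mem_lowd.2 ⟨hG, hG0⟩)
  rwa [h5, Ideal.mem_bot] at h6

theorem not_dm [FiniteDimensional E K] (y : Fin s → K) : ¬ Dm E y (Module.finrank E K) 1 := by
  rintro ⟨𝔭, h1, h2, h3, h4⟩
  obtain ⟨T, -, hT⟩ := h4.coords h1
  have hint : IsIntegral E (y (T 0)) := Algebra.IsIntegral.isIntegral _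
  have hP0 : (Polynomial.aeval (X 0 : MvPolynomial (Fin 1) E) (minpoly E (y (T 0)))) ≠ 0 := by
    intro h0
    have h5 : Transcendental E (X 0 : MvPolynomial (Fin 1) E) := transcendental_X E 0
    exact minpoly.ne_zero hint (by
      by_contra h6
      exact h5 ⟨_, h6, h0⟩)
  refine hT _ hP0 ?_
  rw [← Polynomial.aeval_algHom_apply, aeval_X]
  refine h2 _ (mem_lowd.2 ⟨?_, ?_⟩)
  · rw [Polynomial.aeval_eq_sum_range]
    refine totalDegree_finsetSum_le fun i hi => ?_
    refine (totalDegree_smul_le _ _).trans ?_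
    refine (totalDegree_X_pow (R := E) (T 0) i).le.trans ?_
    rw [Finset.mem_range] at hi
    have := minpoly.natDegree_le (A := E) (y (T 0))
    omega
  · rw [← Polynomial.aeval_algHom_apply, aeval_X]
    exact minpoly.aeval E (y (T 0))

/-- **The growth of the functions of bounded degree at a point.** -/
theorem growD [Infinite E] {y : Fin s → K} {τ t k : ℕ} (hτ : τ ≤ t) (h : Dm E y t k)
    (h' : ¬ Dm E y t (k + 1)) :
    (k + (t - τ)).choose (t - τ) * Module.finrank E (Submodule.span E (mon y τ)) ≤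
      (τ + 1) ^ k * Module.finrank E (Submodule.span E (mon y t)) := by
  obtain ⟨𝔭, h1, h2, h3, h4⟩ := h
  obtain ⟨F, _, _, y', z, hy', hgen, hz1, hz2, hz3⟩ := gen_pt h1 h4 fun h5 =>
    h' ⟨𝔭, h1, h2, h3, h5⟩
  have h5 : ∀ G : MvPolynomial (Fin s) E, G.totalDegree ≤ t →
      (aeval y G = 0 ↔ aeval y' G = 0) := by
    intro G hG
    rw [hy']
    exact ⟨fun h6 => h2 G (mem_lowd.2 ⟨hG, h6⟩), fun h6 => h3 h6⟩
  rw [finrank_mon_eq y y' (τ := τ) fun G hG => h5 G (hG.trans hτ), finrank_mon_eq y y' (τ := t) h5]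
  exact grow hz1 hz2 hgen hz3 hτ

end

end Pool.Agent.U598.MD
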