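import Pool.Agent.U598.IK.Deg

/-!
Affine coordinates of the linear span of a point.
-/

set_option autoImplicit false

open MvPolynomial

namespace Pool.Agent.U598.MD

theorem lin_form {E : Type*} [Field E] {s : ℕ} {G : MvPolynomial (Fin s) E}
    (hG : G.totalDegree ≤ 1) :
    G = C (coeff 0 G) + ∑ i, C (coeff (Finsupp.single i 1) G) * X i := by
  classical
  ext α
  rw [coeff_add, coeff_C, coeff_sum]
  simp only [coeff_C_mul, coeff_X]
  by_cases h0 : α = 0
  · subst h0
    rw [if_pos rfl, Finset.sum_eq_zero, add_zero]
    intro i _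
    rw [if_neg, mul_zero]
    simp
  · rw [if_neg (Ne.symm h0), zero_add]
    by_cases h1 : ∃ i, α = Finsupp.single i 1
    · obtain ⟨i, rfl⟩ := h1
      rw [Finset.sum_eq_single i]
      · rw [if_pos rfl, mul_one]
      · intro j _ hj
        rw [if_neg, mul_zero]
        intro h
        exact hj (Finsupp.single_left_injective one_ne_zero h)
      · intro h
        exact absurd (Finset.mem_univ _) h
    · rw [Finset.sum_eq_zero]
      · refine coeff_eq_zero_of_totalDegree_lt (lt_of_le_of_lt hG ?_)
        have h2 : ∑ i ∈ α.support, α i = α.degree := rfl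
        rw [h2]
        by_contra hcon
        push Not at hcon
        apply h1
        obtain ⟨i, hi⟩ : ∃ i, α i ≠ 0 := by
          by_contra h
          push Not at h
          exact h0 (Finsupp.ext h)
        refine ⟨i, ?_⟩
        have h3 : Finsupp.single i 1 ≤ α := by
          rw [Finsupp.single_le_iff]
          omega
        obtain ⟨β, hβ⟩ := exists_add_of_le h3
        have h4 : α.degree = 1 + β.degree := by
          rw [hβ, map_add, Finsupp.degree_single]
        have h5 : β = 0 := by
          rw [← Finsupp.degree_eq_zero_iff]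
          omega
        rw [hβ, h5, add_zero]
      · intro i _
        rw [if_neg, mul_zero]
        intro h
        exact h1 ⟨i, h.symm⟩

/-- the affine linear forms which express the elements of the span -/
theorem exists_frame {E K : Type*} [Field E] [Field K] [Algebra E K] {N : ℕ} (x : Fin N → K)
    {j0 : Fin N} (hj0 : x j0 = 1) :
    ∃ (s : ℕ) (y : Fin s → K) (l : Fin N → MvPolynomial (Fin s) E),
      s + 1 ≤ N ∧
      (∀ j, (l j).totalDegree ≤ 1) ∧ (∀ j, aeval y (l j) = x j) ∧
      (∀ i, ∃ j, x j = y i ∧ l j = X i) ∧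
      ∀ G : MvPolynomial (Fin s) E, G.totalDegree ≤ 1 → aeval y G = 0 → G = 0 := by
  classical
  obtain ⟨s, y, l, hs, hl1, hl2, hl3⟩ := Pool.Agent.U598.IK.exists_frame (E := E) x hj0
  have hev : ∀ G : MvPolynomial (Fin s) E, G.totalDegree ≤ 1 →
      aeval y G = ∑ i : Fin (s + 1), (Fin.cons (coeff 0 G) fun i => coeff (Finsupp.single i 1) G :
        Fin (s + 1) → E) i • (Fin.cons 1 y : Fin (s + 1) → K) i := by
    intro G hG
    conv_lhs => rw [lin_form hG]
    rw [map_add, map_sum, Fin.sum_univ_succ, aeval_C]
    simp only [Fin.cons_zero, Fin.cons_succ, map_mul, aeval_C, aeval_X, Algebra.smul_def, mul_one]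
  have hli : LinearIndependent E (Fin.cons 1 y : Fin (s + 1) → K) := by
    rw [linearIndependent_iff_card_le_finrank_span, Fintype.card_fin, Set.finrank]
    have hfin : Module.Finite E (Submodule.span E (Set.range (Fin.cons 1 y : Fin (s + 1) → K))) :=
      FiniteDimensional.span_of_finite E (Set.finite_range _)
    refine hs.symm.le.trans (Submodule.finrank_mono ?_)
    rw [Submodule.span_le]
    rintro _ ⟨j, rfl⟩
    rw [← hl2, hev _ (hl1 j)]
    exact Submodule.sum_mem _ fun i _ => Submodule.smul_mem _ _ (Submodule.subset_span ⟨i, rfl⟩)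
  refine ⟨s, y, l, ?_, hl1, hl2, hl3, fun G hG hG0 => ?_⟩
  · rw [← hs]
    have h1 := finrank_range_le_card (R := E) x
    rwa [Fintype.card_fin] at h1
  · rw [hev G hG] at hG0
    have h1 := Fintype.linearIndependent_iff.1 hli _ hG0
    rw [lin_form hG]
    have h2 := h1 0
    rw [Fin.cons_zero] at h2
    rw [h2, map_zero, zero_add]
    refine Finset.sum_eq_zero fun i _ => ?_
    have h3 := h1 i.succ
    rw [Fin.cons_succ] at h3
    rw [h3, map_zero, zero_mul]

end Pool.Agent.U598.MD
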