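import Pool.Agent.U598.MD.Step

/-!
The growth of the dimension of the spaces of functions of bounded degree on an affine variety.
-/

set_option autoImplicit false
set_option linter.unusedSectionVars false
set_option linter.overlappingInstances false

open MvPolynomial

namespace Pool.Agent.U598.MD

theorem IntOver.base {E E' A : Type*} [Field E] [Field E'] [CommRing A] [Algebra E A]
    [Algebra E' A] {S S' : Set A} (hE : ∀ c : E, algebraMap E A c ∈ intAlg E' S')
    (hS : ∀ s ∈ S, IntOver E' S' s) {x : A} (h : IntOver E S x) : IntOver E' S' x := by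
  let B := integralClosure (Algebra.adjoin E' S') A
  have hm : ∀ a ∈ Algebra.adjoin E S, a ∈ B := by
    intro a ha
    induction ha using Algebra.adjoin_induction with
    | mem a ha => exact hS a ha
    | algebraMap c => exact hE c
    | add a b _ _ ha hb => exact B.add_mem ha hb
    | mul a b _ _ ha hb => exact B.mul_mem ha hb
  have h1 : IsIntegral B x := by
    obtain ⟨p, hp, hp0⟩ := h
    let φ : Algebra.adjoin E S →+* B :=
      { toFun := fun a => ⟨a, hm a a.2⟩
        map_one' := rfl
        map_mul' := fun _ _ => rfl
        map_zero' := rfl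
        map_add' := fun _ _ => rfl }
    refine ⟨p.map φ, hp.map φ, ?_⟩
    rw [Polynomial.eval₂_map]
    exact hp0
  exact isIntegral_trans (R := Algebra.adjoin E' S') (A := B) x h1

open scoped IntermediateField.algebraAdjoinAdjoin in
theorem tail_indep {E F : Type*} [Field E] [Field F] [Algebra E F] {k : ℕ} {z : Fin (k + 1) → F}
    (hz : AlgebraicIndependent E z) :
    AlgebraicIndependent (IntermediateField.adjoin E {z 0}) (fun i : Fin k => z i.succ) := by
  have h1 := hz.adjoin_of_disjoint (s := {0}) (t := {0}ᶜ) disjoint_compl_right
  rw [Set.image_singleton] at h1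
  have h2 : AlgebraicIndependent (Algebra.adjoin E {z 0}) (fun i : Fin k => z i.succ) :=
    h1.comp (fun i : Fin k => (⟨i.succ, fun h => Fin.succ_ne_zero i h⟩ :
      (({0}ᶜ : Set (Fin (k + 1)))))) (fun i j hij => by simpa using hij)
  have : Algebra.IsAlgebraic (Algebra.adjoin E {z 0}) (IntermediateField.adjoin E {z 0}) :=
    inferInstance
  exact h2.extendScalars _

/-- a maximal set of monomials which are independent over the rational functions -/
theorem frame {s : ℕ} (τ k : ℕ) : ∀ (E F : Type) [Field E] [Infinite E] [Field F] [Algebra E F]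
    (z : Fin k → F) (y : Fin s → F) (_ : AlgebraicIndependent E z)
    (_ : IntermediateField.adjoin E (Set.range y) = ⊤)
    (_ : ∀ i, IntOver E (HS z) (Polynomial.X * Polynomial.C (y i))),
    ∃ (ρ : ℕ) (f : Fin ρ → F), (∀ i, f i ∈ mon y τ) ∧
      (∀ P : Fin ρ → MvPolynomial (Fin k) E, ∑ i, aeval z (P i) * f i = 0 → ∀ i, P i = 0) ∧
      Module.finrank E (Submodule.span E (mon y τ)) ≤ (τ + 1) ^ k * ρ := by
  induction k with
  | zero =>
    intro E F _ _ _ _ z y hz hgen hint
    have hfin : Module.Finite E (Submodule.span E (mon y τ)) :=
      FiniteDimensional.span_of_finite E (mon_finite y τ)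
    obtain ⟨f, hf1, hf2, hf3⟩ := Submodule.exists_fun_fin_finrank_span_eq E (mon y τ)
    refine ⟨_, f, hf1, fun P hP i => ?_, ?_⟩
    · rw [Fintype.linearIndependent_iff] at hf3
      have h1 := hf3 (fun i => (P i).coeff 0) (by
        rw [← hP]
        refine Finset.sum_congr rfl fun i _ => ?_
        rw [eq_C_of_isEmpty (P i), aeval_C, coeff_C, if_pos rfl, Algebra.smul_def])
      rw [eq_C_of_isEmpty (P i), h1 i, map_zero]
    · rw [pow_zero, one_mul]
  | succ k ih =>
    intro E F _ _ _ _ z y hz hgen hint
    let E' := IntermediateField.adjoin E {z 0}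
    have hinf : Infinite E' := Infinite.of_injective _ (algebraMap E E').injective
    have hgen' : IntermediateField.adjoin E' (Set.range y) = ⊤ := by
      rw [eq_top_iff]
      intro x _
      have h3 : x ∈ IntermediateField.adjoin E (Set.range y) := by
        rw [hgen]
        trivial
      have h4 : IntermediateField.adjoin E (Set.range y) ≤
          (IntermediateField.adjoin E' (Set.range y)).restrictScalars E := by
        rw [IntermediateField.adjoin_le_iff]
        exact IntermediateField.subset_adjoin E' _
      exact h4 h3
    have hz0 : z 0 ∈ E' := IntermediateField.mem_adjoin_simple_self E (z 0)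
    obtain ⟨ρ, f, hf1, hf2, hf3⟩ := ih E' F (fun i => z i.succ) y (tail_indep hz) hgen'
      (fun i => (hint i).base (fun c => by
        have h1 : algebraMap E (Polynomial F) c = algebraMap E' (Polynomial F) (algebraMap E E' c) := by
          rw [IsScalarTower.algebraMap_apply E F (Polynomial F),
            IsScalarTower.algebraMap_apply E' F (Polynomial F),
            ← IsScalarTower.algebraMap_apply E E' F]
        rw [h1]
        exact (intAlg E' _).algebraMap_mem _) (by
        rintro x (rfl | ⟨j, rfl⟩)
        · exact IntOver.mem (Set.mem_insert _ _)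
        · refine Fin.cases ?_ (fun j => ?_) j
          · have h1 : (Polynomial.C (z 0) : Polynomial F) =
                algebraMap E' (Polynomial F) ⟨z 0, hz0⟩ := rfl
            change Polynomial.X * Polynomial.C (z 0) ∈ intAlg E' _
            rw [h1]
            exact (intAlg E' _).mul_mem (IntOver.mem (Set.mem_insert _ _))
              ((intAlg E' _).algebraMap_mem _)
          · exact IntOver.mem (Set.mem_insert_of_mem _ ⟨j, rfl⟩)))
    refine ⟨ρ, f, hf1, fun P hP => ?_, ?_⟩
    · let φ : MvPolynomial (Fin (k + 1)) E →ₐ[E] MvPolynomial (Fin k) E' :=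
        aeval (Fin.cons (C ⟨z 0, hz0⟩) X)
      have h1 : ∀ Q, aeval (fun i : Fin k => z i.succ) (φ Q) = aeval z Q := by
        intro Q
        induction Q using MvPolynomial.induction_on with
        | C c =>
          have h2 : φ (C c) = C (algebraMap E E' c) := by
            change aeval _ (C c) = _
            rw [aeval_C, IsScalarTower.algebraMap_apply E E' (MvPolynomial (Fin k) E'),
              MvPolynomial.algebraMap_eq]
          rw [h2, aeval_C, aeval_C, ← IsScalarTower.algebraMap_apply E E' F]
        | add p q hp hq => rw [map_add, map_add, map_add, hp, hq]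
        | mul_X p j hp =>
          rw [map_mul, map_mul, map_mul, hp, aeval_X]
          congr 1
          rw [aeval_X]
          refine Fin.cases ?_ (fun j => ?_) j
          · rw [Fin.cons_zero, aeval_C]
            rfl
          · rw [Fin.cons_succ, aeval_X]
      have h2 := hf2 (fun i => φ (P i)) (by
        rw [← hP]
        exact Finset.sum_congr rfl fun i _ => by rw [h1])
      intro i
      have h3 := h1 (P i)
      rw [h2 i, map_zero] at h3
      exact (algebraicIndependent_iff.1 hz) _ h3.symm
    · refine (step hz hgen hint τ E' (fun P => ?_) (fun b => ?_)).trans ?_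
      · have h1 := Subalgebra.aeval_coe E'.toSubalgebra (⟨z 0, hz0⟩ : E'.toSubalgebra) P
        exact ⟨(Polynomial.aeval (⟨z 0, hz0⟩ : E'.toSubalgebra) P : E'.toSubalgebra), h1.symm⟩
      · obtain ⟨P, Q, hPQ⟩ := (IntermediateField.mem_adjoin_simple_iff E (b : F)).1 b.2
        by_cases hQ : Polynomial.aeval (z 0) Q = 0
        · refine ⟨0, 1, by rw [map_one]; exact one_ne_zero, ?_⟩
          rw [map_one, mul_one, map_zero]
          change (b : F) = 0
          rw [hPQ, hQ, div_zero]
        · refine ⟨P, Q, hQ, ?_⟩
          change (b : F) * _ = _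
          rw [hPQ, div_mul_cancel₀ _ hQ]
      · rw [pow_succ', mul_assoc]
        exact Nat.mul_le_mul_left _ hf3

end Pool.Agent.U598.MD
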