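import Pool.Agent.U598.MD.Grow

/-!
The growth inequality for the dimensions of the spaces of functions of bounded degree.
-/

set_option autoImplicit false
set_option linter.unusedSectionVars false

open MvPolynomial
open Pool.Agent.U598.IK (Ind)

namespace Pool.Agent.U598.MD

section

variable {E F : Type*} [Field E] [Field F] [Algebra E F] {s : ℕ}

theorem mon_mul {y : Fin s → F} {a b : ℕ} {v w : F} (hv : v ∈ Submodule.span E (mon y a))
    (hw : w ∈ Submodule.span E (mon y b)) : v * w ∈ Submodule.span E (mon y (a + b)) := by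
  have h1 : v * w ∈ Submodule.span E (mon y a) * Submodule.span E (mon y b) :=
    Submodule.mul_mem_mul hv hw
  rw [Submodule.span_mul_span] at h1
  refine Submodule.span_mono ?_ h1
  rintro _ ⟨_, ⟨α, hα, rfl⟩, _, ⟨β, hβ, rfl⟩, rfl⟩
  refine ⟨α + β, by rw [map_add]; omega, ?_⟩
  change _ = (∏ i, y i ^ α i) * ∏ i, y i ^ β i
  rw [← Finset.prod_mul_distrib]
  exact Finset.prod_congr rfl fun i _ => by rw [Finsupp.add_apply, pow_add]

theorem one_mem_mon (y : Fin s → F) (τ : ℕ) : (1 : F) ∈ Submodule.span E (mon y τ) :=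
  Submodule.subset_span ⟨0, by simp, by simp⟩

theorem mon_pow {y : Fin s → F} {v : F} (hv : v ∈ Submodule.span E (mon y 1)) (e : ℕ) :
    v ^ e ∈ Submodule.span E (mon y e) := by
  induction e with
  | zero =>
    rw [pow_zero]
    exact one_mem_mon y 0
  | succ e ih =>
    rw [pow_succ]
    exact mon_mul ih hv

theorem mon_prod {y : Fin s → F} {k : ℕ} {z : Fin k → F}
    (hz : ∀ j, z j ∈ Submodule.span E (mon y 1)) (α : Fin k →₀ ℕ) :
    ∏ j, z j ^ α j ∈ Submodule.span E (mon y α.degree) := by
  classical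
  have key : ∀ S : Finset (Fin k),
      ∏ j ∈ S, z j ^ α j ∈ Submodule.span E (mon y (∑ j ∈ S, α j)) := by
    intro S
    induction S using Finset.induction_on with
    | empty =>
      rw [Finset.prod_empty, Finset.sum_empty]
      exact one_mem_mon y 0
    | insert j S hj ih =>
      rw [Finset.prod_insert hj, Finset.sum_insert hj]
      exact mon_mul (mon_pow (hz j) _) ih
  rw [Finsupp.degree_eq_sum]
  exact key _

theorem range_mon {y : Fin s → F} {v : F} (hv : v ∈ Submodule.span E (Set.range y)) :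
    v ∈ Submodule.span E (mon y 1) := by
  classical
  refine Submodule.span_mono ?_ hv
  rintro _ ⟨i, rfl⟩
  refine ⟨Finsupp.single i 1, by simp, ?_⟩
  rw [Finset.prod_eq_single i]
  · rw [Finsupp.single_eq_same, pow_one]
  · intro j _ hj
    rw [Finsupp.single_eq_of_ne hj, pow_zero]
  · intro h
    exact absurd (Finset.mem_univ _) h

/-- the number of the products of the monomials with a set which is independent -/
theorem card_mono2 {D e t ρ : ℕ} (y : Fin s → F) (a : Fin D → F) (f : Fin ρ → F)
    (ha : ∀ P : Fin ρ → MvPolynomial (Fin D) E, ∑ i, aeval a (P i) * f i = 0 → ∀ i, P i = 0)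
    (hV : ∀ α : Fin D →₀ ℕ, α.degree ≤ e → ∀ i,
      (∏ j, a j ^ α j) * f i ∈ Submodule.span E (mon y t)) :
    (D + e).choose e * ρ ≤ Module.finrank E (Submodule.span E (mon y t)) := by
  classical
  have hfin : Module.Finite E (Submodule.span E (mon y t)) :=
    FiniteDimensional.span_of_finite E (mon_finite y t)
  obtain ⟨J, hJ⟩ : ∃ J : Finset (Fin (D + 1) →₀ ℕ), J = Finset.finsuppAntidiag Finset.univ e :=
    ⟨_, rfl⟩
  have hcard : J.card = (D + e).choose e := by
    rw [hJ, Finset.card_finsuppAntidiag_nat_eq_choose, Finset.card_univ, Fintype.card_fin]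
    congr 1
    omega
  have hsum : ∀ β ∈ J, β 0 + (Finsupp.tail β).degree = e := by
    intro β hβ
    rw [hJ, Finset.mem_finsuppAntidiag] at hβ
    rw [← hβ.1, Finsupp.degree_eq_sum, Fin.sum_univ_succ]
    rfl
  have hinj : ∀ β ∈ J, ∀ β' ∈ J, Finsupp.tail β = Finsupp.tail β' → β = β' := by
    intro β hβ β' hβ' h
    have h1 := hsum β hβ
    have h2 := hsum β' hβ'
    rw [h] at h1
    have h3 : β 0 = β' 0 := by omega
    rw [← Finsupp.cons_tail β, ← Finsupp.cons_tail β', h, h3]
  let g : J × Fin ρ → Submodule.span E (mon y t) := fun β =>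
    ⟨(∏ i, a i ^ (Finsupp.tail (β.1 : Fin (D + 1) →₀ ℕ)) i) * f β.2,
      hV _ (by have := hsum _ β.1.2; omega) _⟩
  have hli : LinearIndependent E g := by
    rw [Fintype.linearIndependent_iff]
    rintro c hc ⟨β0, i0⟩
    obtain ⟨P, hP⟩ : ∃ P : Fin ρ → MvPolynomial (Fin D) E,
      P = fun i => ∑ β : J, monomial (Finsupp.tail (β : Fin (D + 1) →₀ ℕ)) (c (β, i)) := ⟨_, rfl⟩
    have hP0 : P i0 = 0 := by
      refine ha P ?_ i0
      have h1 := congrArg (fun v : Submodule.span E (mon y t) => (v : F)) hc
      simp only [ZeroMemClass.coe_zero, Submodule.coe_sum, Submodule.coe_smul] at h1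
      rw [← h1, Fintype.sum_prod_type_right]
      refine Finset.sum_congr rfl fun i _ => ?_
      rw [hP, map_sum, Finset.sum_mul]
      refine Finset.sum_congr rfl fun β _ => ?_
      rw [aeval_monomial, Algebra.smul_def, Finsupp.prod_fintype _ _ fun _ => pow_zero _, mul_assoc]
    have h2 := congrArg (coeff (Finsupp.tail (β0 : Fin (D + 1) →₀ ℕ))) hP0
    rw [hP, coeff_sum, coeff_zero, Finset.sum_eq_single β0] at h2
    · rwa [coeff_monomial, if_pos rfl] at h2
    · intro β _ hβ
      rw [coeff_monomial, if_neg]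
      intro h
      exact hβ (Subtype.ext (hinj _ β.2 _ β0.2 h))
    · intro h
      exact absurd (Finset.mem_univ _) h
  have h1 := hli.fintype_card_le_finrank
  rwa [Fintype.card_prod, Fintype.card_coe, Fintype.card_fin, hcard] at h1

end

/-- **The growth inequality.** -/
theorem grow {s : ℕ} {E F : Type} [Field E] [Infinite E] [Field F] [Algebra E F] {k : ℕ}
    {z : Fin k → F} {y : Fin s → F} (hz1 : ∀ j, z j ∈ Submodule.span E (Set.range y))
    (hz2 : AlgebraicIndependent E z)
    (hgen : IntermediateField.adjoin E (Set.range y) = ⊤)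
    (hint : ∀ i, IntOver E (HS z) (Polynomial.X * Polynomial.C (y i))) {τ t : ℕ} (h : τ ≤ t) :
    (k + (t - τ)).choose (t - τ) * Module.finrank E (Submodule.span E (mon y τ)) ≤
      (τ + 1) ^ k * Module.finrank E (Submodule.span E (mon y t)) := by
  obtain ⟨ρ, f, hf1, hf2, hf3⟩ := frame (s := s) τ k E F z y hz2 hgen hint
  have h1 : (k + (t - τ)).choose (t - τ) * ρ ≤ Module.finrank E (Submodule.span E (mon y t)) := by
    refine card_mono2 y z f hf2 fun α hα i => ?_
    have h2 := mon_mul (mon_prod (fun j => range_mon (hz1 j)) α)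
      (Submodule.subset_span (R := E) (hf1 i))
    exact Submodule.span_mono (mon_mono y (by omega)) h2
  calc (k + (t - τ)).choose (t - τ) * Module.finrank E (Submodule.span E (mon y τ))
      ≤ (k + (t - τ)).choose (t - τ) * ((τ + 1) ^ k * ρ) := Nat.mul_le_mul_left _ hf3
    _ = (τ + 1) ^ k * ((k + (t - τ)).choose (t - τ) * ρ) := by ring
    _ ≤ _ := Nat.mul_le_mul_left _ h1

section

variable {E F K : Type*} [Field E] [Field F] [Field K] [Algebra E F] [Algebra E K] {s : ℕ}

theorem span_mon (y : Fin s → F) (τ : ℕ) : Submodule.span E (mon y τ) =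
    (restrictTotalDegree (Fin s) E τ).map (aeval y : MvPolynomial (Fin s) E →ₐ[E] F).toLinearMap := by
  apply le_antisymm
  · rw [Submodule.span_le]
    rintro _ ⟨α, hα, rfl⟩
    refine ⟨monomial α 1, ?_, ?_⟩
    · rw [SetLike.mem_coe, mem_restrictTotalDegree]
      exact (totalDegree_monomial_le _ _).trans hα
    · change aeval y (monomial α (1 : E)) = _
      rw [aeval_monomial, map_one, one_mul, Finsupp.prod_fintype _ _ fun _ => pow_zero _]
  · rintro _ ⟨G, hG, rfl⟩
    rw [SetLike.mem_coe, mem_restrictTotalDegree] at hG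
    change aeval y G ∈ _
    rw [aeval_def, eval₂_eq']
    refine Submodule.sum_mem _ fun α hα => ?_
    rw [← Algebra.smul_def]
    refine Submodule.smul_mem _ _ (Submodule.subset_span ⟨α, ?_, rfl⟩)
    exact (le_totalDegree hα).trans hG

/-- the dimension depends only on the polynomials of small degree which vanish -/
theorem finrank_mon_eq (y : Fin s → F) (y' : Fin s → K) {τ : ℕ}
    (h : ∀ G : MvPolynomial (Fin s) E, G.totalDegree ≤ τ → (aeval y G = 0 ↔ aeval y' G = 0)) :
    Module.finrank E (Submodule.span E (mon y τ)) =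
      Module.finrank E (Submodule.span E (mon y' τ)) := by
  rw [span_mon, span_mon]
  rw [← LinearMap.range_domRestrict, ← LinearMap.range_domRestrict]
  have hker : LinearMap.ker ((aeval y : MvPolynomial (Fin s) E →ₐ[E] F).toLinearMap.domRestrict
      (restrictTotalDegree (Fin s) E τ)) =
      LinearMap.ker ((aeval y' : MvPolynomial (Fin s) E →ₐ[E] K).toLinearMap.domRestrict
      (restrictTotalDegree (Fin s) E τ)) := by
    ext ⟨G, hG⟩
    rw [LinearMap.mem_ker, LinearMap.mem_ker]
    exact h G ((mem_restrictTotalDegree _ _ _).1 hG)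
  have e1 := (((aeval y : MvPolynomial (Fin s) E →ₐ[E] F).toLinearMap.domRestrict
      (restrictTotalDegree (Fin s) E τ)).quotKerEquivRange)
  have e2 := (((aeval y' : MvPolynomial (Fin s) E →ₐ[E] K).toLinearMap.domRestrict
      (restrictTotalDegree (Fin s) E τ)).quotKerEquivRange)
  rw [← e1.finrank_eq, ← e2.finrank_eq, hker]

end

end Pool.Agent.U598.MD
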