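import Pool.Agent.U598.IK.Iso

/-!
Isolated common zeros of as many polynomials as there are variables: the monomials whose degree is
at most the sum of the degrees minus one are not all orthogonal to a nonzero element.
-/

set_option autoImplicit false

open MvPolynomial

namespace Pool.Agent.U598.MD

variable {S R : Type*} [Field S] [CharZero S] [Field R] [Algebra S R] [FiniteDimensional S R]

/-- **Isolated points of a field extension.** -/
theorem iso {p m : ℕ} (dd : Fin p → ℕ) (η : Fin p → R)
    (hgen : IntermediateField.adjoin S (Set.range η) = ⊤)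
    (F : Fin p → MvPolynomial (Fin p) S) (hFd : ∀ i, (F i).totalDegree ≤ dd i + 1)
    (hFm : RingHom.ker (aeval η : MvPolynomial (Fin p) S →ₐ[S] R) ∈
      (Ideal.span (Set.range F)).minimalPrimes)
    {c : R} (hc : c ≠ 0)
    (htr : ∀ α : Fin p →₀ ℕ, α.degree ≤ m → Algebra.trace S R ((∏ j, η j ^ α j) * c) = 0) :
    m < ∑ i, dd i := by
  classical
  by_contra hcon
  push Not at hcon
  have hsum : ∑ i, dd i ≤ m := hcon
  have hF0 : ∀ i, aeval η (F i) = 0 := fun i => hFm.1.2 (Ideal.subset_span ⟨i, rfl⟩)
  let Ω := AlgebraicClosure S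
  obtain ⟨τ⟩ : Nonempty (R →ₐ[S] Ω) := ⟨IsAlgClosed.lift⟩
  obtain ⟨P, hP⟩ : ∃ P : (R →ₐ[S] Ω) → Fin p → Ω, P = fun s j => s (η j) := ⟨_, rfl⟩
  have hinj : Function.Injective P := by
    intro s s' h
    have h1 : ∀ x ∈ IntermediateField.adjoin S (Set.range η), s x = s' x := by
      intro x hx
      induction hx using IntermediateField.adjoin_induction with
      | mem x hx =>
        obtain ⟨j, rfl⟩ := hx
        have := congrFun h j
        rw [hP] at this
        exact this
      | algebraMap a => rw [AlgHom.commutes, AlgHom.commutes]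
      | add x y _ _ hx hy => rw [map_add, map_add, hx, hy]
      | inv x _ hx => rw [map_inv₀, map_inv₀, hx]
      | mul x y _ _ hx hy => rw [map_mul, map_mul, hx, hy]
    ext x
    exact h1 x (by rw [hgen]; trivial)
  have hev : ∀ (s : R →ₐ[S] Ω) (G : MvPolynomial (Fin p) S),
      eval (P s) (map (algebraMap S Ω) G) = s (aeval η G) := by
    intro s G
    rw [eval_map, hP, ← aeval_def]
    exact (comp_aeval_apply (φ := s) η G).symm
  -- the isolated point
  have hg : ∀ j, Polynomial.aeval (X j : MvPolynomial (Fin p) S) (minpoly S (η j)) ∈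
      RingHom.ker (aeval η : MvPolynomial (Fin p) S →ₐ[S] R) := by
    intro j
    rw [RingHom.mem_ker, ← Polynomial.aeval_algHom_apply, aeval_X]
    exact minpoly.aeval S (η j)
  choose v hv t hvt using fun j => Pool.Agent.U598.IK.exists_pow_of_minimal hFm (hg j)
  have hsep : ∀ j, ∃ q : MvPolynomial (Fin p) Ω, eval (P τ) q ≠ 0 ∧
      map (algebraMap S Ω) (Polynomial.aeval (X j : MvPolynomial (Fin p) S) (minpoly S (η j))) =
        (X j - C (P τ j)) * q := by
    intro j
    have hsep : ((minpoly S (η j)).map (algebraMap S Ω)).Separable :=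
      Polynomial.Separable.map (show (minpoly S (η j)).Separable from
        Algebra.IsSeparable.isSeparable S (η j))
    have hroot : ((minpoly S (η j)).map (algebraMap S Ω)).IsRoot (P τ j) := by
      rw [Polynomial.IsRoot, Polynomial.eval_map, hP]
      rw [← Polynomial.aeval_def]
      have h1 := Polynomial.aeval_algHom_apply τ (η j) (minpoly S (η j))
      rw [h1, minpoly.aeval, map_zero]
    obtain ⟨f, hf⟩ := Polynomial.dvd_iff_isRoot.2 hroot
    refine ⟨Polynomial.aeval (X j : MvPolynomial (Fin p) Ω) f, ?_, ?_⟩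
    · have h1 : eval (P τ) (Polynomial.aeval (X j : MvPolynomial (Fin p) Ω) f) =
          Polynomial.eval (P τ j) f := by
        have h2 := Polynomial.hom_eval₂ f (algebraMap Ω (MvPolynomial (Fin p) Ω)) (eval (P τ))
          (X j)
        rw [Polynomial.aeval_def, h2, eval_X]
        have h3 : (eval (P τ)).comp (algebraMap Ω (MvPolynomial (Fin p) Ω)) = RingHom.id Ω := by
          ext a
          simp
        rw [h3]
        rfl
      rw [h1]
      intro h0
      have h2 := hsep.eval₂_derivative_ne_zero (RingHom.id Ω) (x := P τ j) (by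
        rw [Polynomial.eval₂_id]
        exact hroot)
      apply h2
      rw [Polynomial.eval₂_id, hf, Polynomial.derivative_mul, Polynomial.eval_add,
        Polynomial.eval_mul, Polynomial.eval_mul, h0]
      simp
    · have h1 : map (algebraMap S Ω) (Polynomial.aeval (X j : MvPolynomial (Fin p) S)
          (minpoly S (η j))) = Polynomial.aeval (X j : MvPolynomial (Fin p) Ω)
          ((minpoly S (η j)).map (algebraMap S Ω)) := by
        rw [Polynomial.aeval_def, Polynomial.hom_eval₂, map_X, Polynomial.aeval_def,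
          Polynomial.eval₂_map]
        congr 1
        ext a
        simp
      rw [h1, hf, map_mul, map_sub, Polynomial.aeval_X, Polynomial.aeval_C, algebraMap_eq]
  choose q hq hq2 using hsep
  obtain ⟨w, hw⟩ : ∃ w : Fin p → MvPolynomial (Fin p) Ω,
    w = fun j => map (algebraMap S Ω) (v j) * q j ^ (t j + 1) := ⟨_, rfl⟩
  have hw0 : ∀ j, eval (P τ) (w j) ≠ 0 := by
    intro j
    rw [hw]
    simp only [map_mul, map_pow]
    refine mul_ne_zero ?_ (pow_ne_zero _ (hq j))
    rw [hev]
    intro h0
    exact hv j ((RingHom.mem_ker).2 ((map_eq_zero τ).1 h0))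
  have hwm : ∀ j, w j * (X j - C (P τ j)) ^ (t j + 1) ∈
      Ideal.span (Set.range fun i => map (algebraMap S Ω) (F i)) := by
    intro j
    have h1 := Ideal.mem_map_of_mem (map (algebraMap S Ω)) (hvt j)
    rw [Ideal.map_span, ← Set.range_comp, map_mul, map_pow, hq2] at h1
    have h2 : w j * (X j - C (P τ j)) ^ (t j + 1) =
        map (algebraMap S Ω) (v j) * ((X j - C (P τ j)) * q j) ^ (t j + 1) := by
      rw [hw, mul_pow]
      ring
    rw [h2]
    exact h1
  obtain ⟨V, hV⟩ : ∃ V : MvPolynomial (Fin p) Ω, V = ∏ j, w j := ⟨_, rfl⟩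
  have h0 := Pool.Agent.U598.IK.sep (Ω := Ω) (p := p) (m := m) dd hsum P hinj
    (fun i => map (algebraMap S Ω) (F i)) (fun i => by
      exact (Finset.sup_mono (support_map_subset _ _)).trans (hFd i))
    (fun s i => by rw [hev, hF0, map_zero]) τ (∑ j, t j) V (by
      rw [hV, map_prod]
      exact Finset.prod_ne_zero_iff.2 fun j _ => hw0 j) (fun j => by
      have h1 : V = w j * ∏ i ∈ Finset.univ.erase j, w i := by
        rw [hV, Finset.mul_prod_erase _ _ (Finset.mem_univ j)]
      have h2 : ∑ i, t i + 1 = (t j + 1) + ∑ i ∈ Finset.univ.erase j, t i := by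
        rw [← Finset.add_sum_erase _ _ (Finset.mem_univ j)]
        ring
      rw [h1, h2, pow_add]
      have h3 : w j * (∏ i ∈ Finset.univ.erase j, w i) * ((X j - C (P τ j)) ^ (t j + 1) *
          (X j - C (P τ j)) ^ (∑ i ∈ Finset.univ.erase j, t i)) =
          ((∏ i ∈ Finset.univ.erase j, w i) *
          (X j - C (P τ j)) ^ (∑ i ∈ Finset.univ.erase j, t i)) *
          (w j * (X j - C (P τ j)) ^ (t j + 1)) := by ring
      rw [h3]
      exact Ideal.mul_mem_left _ _ (hwm j))
    (fun s => s c) (fun α hα => by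
      have h1 := congrArg (algebraMap S Ω) (htr α hα)
      rw [trace_eq_sum_embeddings Ω, map_zero] at h1
      rw [← h1]
      refine Finset.sum_congr rfl fun s _ => ?_
      rw [map_mul, map_prod, hP, mul_comm]
      simp only [map_pow])
  exact hc ((map_eq_zero τ).1 h0)

/-- the same with the polynomials indexed by another set -/
theorem iso' {p m : ℕ} {ι : Type*} [Fintype ι] (hι : Fintype.card ι = p) (dd : ι → ℕ)
    (η : Fin p → R) (hgen : IntermediateField.adjoin S (Set.range η) = ⊤)
    (F : ι → MvPolynomial (Fin p) S) (hFd : ∀ i, (F i).totalDegree ≤ dd i + 1)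
    (hFm : RingHom.ker (aeval η : MvPolynomial (Fin p) S →ₐ[S] R) ∈
      (Ideal.span (Set.range F)).minimalPrimes)
    {c : R} (hc : c ≠ 0)
    (htr : ∀ α : Fin p →₀ ℕ, α.degree ≤ m → Algebra.trace S R ((∏ j, η j ^ α j) * c) = 0) :
    m < ∑ i, dd i := by
  obtain ⟨e⟩ : Nonempty (Fin p ≃ ι) := by
    rw [← hι]
    exact ⟨(Fintype.equivFin ι).symm⟩
  have h1 := iso (fun i => dd (e i)) η hgen (fun i => F (e i)) (fun i => hFd _) (by
    have h2 : Set.range (fun i => F (e i)) = Set.range F := by
      have h3 : (fun i => F (e i)) = F ∘ e := rfl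
      rw [h3, e.surjective.range_comp]
    rw [h2]
    exact hFm) hc htr
  rwa [e.sum_comp dd] at h1

end Pool.Agent.U598.MD
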