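import Mathlib

/-!
Noether's normalization by linear forms, for the homogeneous coordinate ring of an affine variety:
the variable of the polynomial ring `F[T]` is the coordinate of the hyperplane at infinity.
-/

set_option autoImplicit false

open Polynomial (X C)

namespace Pool.Agent.U598.MD

section

variable {E A : Type*} [Field E] [CommRing A] [Algebra E A]

variable (E) in
/-- integral over the algebra generated by `S` -/
def IntOver (S : Set A) (x : A) : Prop := IsIntegral (Algebra.adjoin E S) x

variable (E) in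
/-- the elements which are integral over the algebra generated by `S` -/
def intAlg (S : Set A) : Subalgebra E A :=
  (integralClosure (Algebra.adjoin E S) A).restrictScalars E

theorem mem_intAlg {S : Set A} {x : A} : x ∈ intAlg E S ↔ IntOver E S x := Iff.rfl

theorem IntOver.mem {S : Set A} {x : A} (h : x ∈ S) : IntOver E S x :=
  isIntegral_algebraMap (R := Algebra.adjoin E S) (x := ⟨x, Algebra.subset_adjoin h⟩)

theorem IntOver.trans {S S' : Set A} (h : ∀ s ∈ S', IntOver E S s) {x : A}
    (hx : IntOver E S' x) : IntOver E S x := by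
  have hle : Algebra.adjoin E S' ≤ intAlg E S := Algebra.adjoin_le h
  let B := integralClosure (Algebra.adjoin E S) A
  have h1 : IsIntegral B x := by
    obtain ⟨p, hp, hp0⟩ := hx
    let φ : Algebra.adjoin E S' →+* B := (Subalgebra.inclusion hle).toRingHom
    refine ⟨p.map φ, hp.map φ, ?_⟩
    rw [Polynomial.eval₂_map]
    exact hp0
  exact isIntegral_trans (R := Algebra.adjoin E S) (A := B) x h1

theorem IntOver.map {A' : Type*} [CommRing A'] [Algebra E A'] {S : Set A} {S' : Set A'} {x : A}
    (h : IntOver E S x) (f : A →ₐ[E] A') (hS : ∀ s ∈ S, IntOver E S' (f s)) :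
    IntOver E S' (f x) := by
  refine IntOver.trans (S' := f '' S) ?_ ?_
  · rintro _ ⟨s, hs, rfl⟩
    exact hS s hs
  · obtain ⟨p, hp, hp0⟩ := h
    have hm : ∀ a : Algebra.adjoin E S, f (a : A) ∈ Algebra.adjoin E (f '' S) := by
      rintro ⟨a, ha⟩
      rw [← AlgHom.map_adjoin]
      exact ⟨a, ha, rfl⟩
    let φ : Algebra.adjoin E S →+* Algebra.adjoin E (f '' S) :=
      (((f.comp (Algebra.adjoin E S).val).codRestrict _ hm : _ →ₐ[E] _)).toRingHom
    refine ⟨p.map φ, hp.map φ, ?_⟩
    rw [Polynomial.eval₂_map]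
    have h1 : ((algebraMap (Algebra.adjoin E (f '' S)) A').comp φ) =
        (f : A →+* A').comp (algebraMap (Algebra.adjoin E S) A) := by
      ext a
      rfl
    have h2 := Polynomial.hom_eval₂ p (algebraMap (Algebra.adjoin E S) A) (f : A →+* A') x
    rw [hp0, map_zero] at h2
    rw [h1]
    exact h2.symm

end

section

variable {E F : Type*} [Field E] [Field F] [Algebra E F]

/-- the coordinate of the hyperplane at infinity and the homogeneous coordinates `T z j` -/
def HS {q : ℕ} (z : Fin q → F) : Set (Polynomial F) := insert X (Set.range fun j => X * C (z j))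

theorem exists_point [Infinite E] {q : ℕ} {P : MvPolynomial (Fin q) E} (hP : P ≠ 0) :
    ∃ l : Fin q → E, MvPolynomial.eval l (MvPolynomial.homogeneousComponent P.totalDegree P) ≠ 0 := by
  by_contra hcon
  push Not at hcon
  have h1 : MvPolynomial.homogeneousComponent P.totalDegree P = 0 :=
    MvPolynomial.funext fun l => by rw [hcon, map_zero]
  obtain ⟨α, hα, hα3⟩ := Finset.exists_mem_eq_sup P.support
    (MvPolynomial.support_nonempty.2 hP) (fun s => s.sum fun _ e => e)
  have hα2 : α.degree = P.totalDegree := by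
    rw [MvPolynomial.totalDegree, hα3, Finsupp.degree_eq_sum, Finsupp.sum_fintype _ _ fun _ => rfl]
  have h2 := congrArg (MvPolynomial.coeff α) h1
  rw [MvPolynomial.coeff_homogeneousComponent, MvPolynomial.coeff_zero, if_pos hα2] at h2
  exact (MvPolynomial.mem_support_iff.1 hα) h2

theorem lin_prod {R : Type*} [CommRing R] {q : ℕ} (w l : Fin q → R) (α : Fin q →₀ ℕ)
    (s : Finset (Fin q)) :
    (∏ j ∈ s, (C (w j) + C (l j) * X) ^ α j).natDegree ≤ ∑ j ∈ s, α j ∧
      (∏ j ∈ s, (C (w j) + C (l j) * X) ^ α j).coeff (∑ j ∈ s, α j) = ∏ j ∈ s, l j ^ α j := by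
  classical
  induction s using Finset.induction_on with
  | empty => simp
  | insert a s ha ih =>
    rw [Finset.prod_insert ha, Finset.sum_insert ha, Finset.prod_insert ha]
    have h0 : (C (w a) + C (l a) * X : Polynomial R).natDegree ≤ 1 := by
      refine (Polynomial.natDegree_add_le _ _).trans (max_le ?_ ?_)
      · rw [Polynomial.natDegree_C]
        exact zero_le_one
      · exact (Polynomial.natDegree_C_mul_le _ _).trans Polynomial.natDegree_X_le
    have h1 : ((C (w a) + C (l a) * X : Polynomial R) ^ α a).natDegree ≤ α a := by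
      refine Polynomial.natDegree_pow_le.trans ?_
      exact (Nat.mul_le_mul_left _ h0).trans (by rw [mul_one])
    refine ⟨Polynomial.natDegree_mul_le.trans (add_le_add h1 ih.1), ?_⟩
    rw [Polynomial.coeff_mul_add_eq_of_natDegree_le h1 ih.1, ih.2]
    congr 1
    have h2 := Polynomial.coeff_pow_of_natDegree_le (m := α a) h0
    rw [mul_one] at h2
    rw [h2, Polynomial.coeff_add, Polynomial.coeff_C, if_neg one_ne_zero, zero_add,
      Polynomial.coeff_C_mul, Polynomial.coeff_X_one, mul_one]

/-- the elimination of one of the coordinates -/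
theorem elim [Infinite E] {q : ℕ} {z : Fin (q + 1) → F} (hz : ¬ AlgebraicIndependent E z) :
    ∃ z' : Fin q → F, (∀ j, z' j ∈ Submodule.span E (Set.range z)) ∧
      ∀ j, IntOver E (HS z') (X * C (z j)) := by
  classical
  obtain ⟨P, hP0, hP⟩ : ∃ P : MvPolynomial (Fin (q + 1)) E,
      MvPolynomial.aeval z P = 0 ∧ P ≠ 0 := by
    rw [algebraicIndependent_iff] at hz
    push Not at hz
    exact hz
  obtain ⟨l, hl⟩ := exists_point hP
  obtain ⟨J, hJ⟩ : ∃ J, J = P.totalDegree := ⟨_, rfl⟩
  rw [← hJ] at hl
  have hJ0 : J ≠ 0 := by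
    rintro rfl
    have h1 := (MvPolynomial.totalDegree_eq_zero_iff_eq_C (p := P)).1 hJ.symm
    rw [h1, MvPolynomial.aeval_C] at hP0
    rw [h1] at hP
    apply hP
    rw [(map_eq_zero _).1 hP0, map_zero]
  obtain ⟨i0, hi0⟩ : ∃ i, l i ≠ 0 := by
    by_contra hcon
    push Not at hcon
    have h0 : l = 0 := funext hcon
    apply hl
    rw [h0, MvPolynomial.eval_zero, MvPolynomial.constantCoeff_eq,
      MvPolynomial.coeff_homogeneousComponent, if_neg]
    rw [map_zero]
    exact fun h => hJ0 h.symm
  obtain ⟨u, hu⟩ : ∃ u : F, u = (l i0)⁻¹ • z i0 := ⟨_, rfl⟩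
  obtain ⟨w, hw⟩ : ∃ w : Fin (q + 1) → F, w = fun j => z j - l j • u := ⟨_, rfl⟩
  have hzw : ∀ j, z j = w j + l j • u := fun j => by rw [hw]; ring
  have hwi : w i0 = 0 := by
    rw [hw, hu]
    change z i0 - l i0 • (l i0)⁻¹ • z i0 = 0
    rw [smul_smul, mul_inv_cancel₀ hi0, one_smul, sub_self]
  have huz : u ∈ Submodule.span E (Set.range z) := by
    rw [hu]
    exact Submodule.smul_mem _ _ (Submodule.subset_span ⟨i0, rfl⟩)
  obtain ⟨z', hz'⟩ : ∃ z' : Fin q → F, z' = fun j => w (i0.succAbove j) := ⟨_, rfl⟩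
  refine ⟨z', fun j => ?_, ?_⟩
  · rw [hz', hw]
    exact Submodule.sub_mem _ (Submodule.subset_span ⟨_, rfl⟩) (Submodule.smul_mem _ _ huz)
  -- the ring of the coefficients
  let R := Algebra.adjoin E (HS z')
  have hTR : (X : Polynomial F) ∈ R := Algebra.subset_adjoin (Set.mem_insert _ _)
  have hwR : ∀ j, X * C (w j) ∈ R := by
    intro j
    by_cases hj : j = i0
    · rw [hj, hwi, map_zero, mul_zero]
      exact R.zero_mem
    · obtain ⟨j', hj'⟩ := Fin.exists_succAbove_eq hj
      refine Algebra.subset_adjoin (Set.mem_insert_of_mem _ ⟨j', ?_⟩)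
      rw [hz', ← hj']
  obtain ⟨Q, hQ⟩ : ∃ Q : Polynomial R, Q = ∑ α ∈ P.support,
      C (P.coeff α • (⟨X, hTR⟩ : R) ^ (J - α.degree)) *
        ∏ j, (C (⟨X * C (w j), hwR j⟩ : R) + C (algebraMap E R (l j)) * X) ^ α j := ⟨_, rfl⟩
  have hdeg : ∀ α ∈ P.support, α.degree ≤ J := by
    intro α hα
    rw [hJ, Finsupp.degree_eq_sum]
    have := MvPolynomial.le_totalDegree hα
    rwa [Finsupp.sum_fintype _ _ fun _ => rfl] at this
  have hterm : ∀ α : Fin (q + 1) →₀ ℕ,
      (∏ j, (C (⟨X * C (w j), hwR j⟩ : R) + C (algebraMap E R (l j)) * X) ^ α j).natDegree ≤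
        α.degree ∧
      (∏ j, (C (⟨X * C (w j), hwR j⟩ : R) + C (algebraMap E R (l j)) * X) ^ α j).coeff α.degree =
        ∏ j, algebraMap E R (l j) ^ α j := by
    intro α
    have := lin_prod (fun j => (⟨X * C (w j), hwR j⟩ : R)) (fun j => algebraMap E R (l j)) α
      Finset.univ
    rwa [← Finsupp.degree_eq_sum] at this
  have hQdeg : Q.natDegree ≤ J := by
    rw [hQ]
    refine Polynomial.natDegree_sum_le_of_forall_le _ _ fun α hα => ?_
    refine (Polynomial.natDegree_C_mul_le _ _).trans ((hterm α).1.trans (hdeg α hα))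
  have hQlead : Q.coeff J =
      algebraMap E R (MvPolynomial.eval l (MvPolynomial.homogeneousComponent J P)) := by
    rw [hQ, Polynomial.finsetSum_coeff, MvPolynomial.homogeneousComponent_apply, map_sum, map_sum]
    rw [Finset.sum_filter]
    refine Finset.sum_congr rfl fun α hα => ?_
    rw [Polynomial.coeff_C_mul]
    by_cases h : α.degree = J
    · rw [if_pos h, ← h, (hterm α).2, Nat.sub_self, pow_zero, MvPolynomial.eval_monomial, map_mul,
        Finsupp.prod_fintype _ _ fun _ => pow_zero _, map_prod, Algebra.smul_def, mul_one]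
      simp only [map_pow]
    · rw [if_neg h, Polynomial.coeff_eq_zero_of_natDegree_lt, mul_zero]
      exact lt_of_le_of_lt (hterm α).1 (lt_of_le_of_ne (hdeg α hα) h)
  obtain ⟨a, ha⟩ : ∃ a : E, a = MvPolynomial.eval l (MvPolynomial.homogeneousComponent J P) :=
    ⟨_, rfl⟩
  rw [← ha] at hl hQlead
  have hmonic : (C (algebraMap E R a⁻¹) * Q).Monic := by
    refine Polynomial.monic_of_natDegree_le_of_coeff_eq_one J
      ((Polynomial.natDegree_C_mul_le _ _).trans hQdeg) ?_
    rw [Polynomial.coeff_C_mul, hQlead, ← map_mul, inv_mul_cancel₀ hl, map_one]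
  have hroot : Polynomial.eval₂ (algebraMap R (Polynomial F)) (X * C u)
      (C (algebraMap E R a⁻¹) * Q) = 0 := by
    rw [Polynomial.eval₂_mul]
    have h1 : Polynomial.eval₂ (algebraMap R (Polynomial F)) (X * C u) Q = 0 := by
      rw [hQ, Polynomial.eval₂_finsetSum]
      have h2 : ∀ α ∈ P.support, Polynomial.eval₂ (algebraMap R (Polynomial F)) (X * C u)
          (C (P.coeff α • (⟨X, hTR⟩ : R) ^ (J - α.degree)) *
            ∏ j, (C (⟨X * C (w j), hwR j⟩ : R) + C (algebraMap E R (l j)) * X) ^ α j) =
          X ^ J * C (algebraMap E F (P.coeff α) * ∏ j, z j ^ α j) := by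
        intro α hα
        rw [Polynomial.eval₂_mul, Polynomial.eval₂_C, Polynomial.eval₂_finsetProd]
        have h3 : ∀ j, Polynomial.eval₂ (algebraMap R (Polynomial F)) (X * C u)
            ((C (⟨X * C (w j), hwR j⟩ : R) + C (algebraMap E R (l j)) * X) ^ α j) =
            X ^ α j * C (z j) ^ α j := by
          intro j
          rw [Polynomial.eval₂_pow, Polynomial.eval₂_add, Polynomial.eval₂_mul,
            Polynomial.eval₂_C, Polynomial.eval₂_C, Polynomial.eval₂_X, ← mul_pow]
          congr 1
          rw [← IsScalarTower.algebraMap_apply E R (Polynomial F)]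
          change X * C (w j) + algebraMap E (Polynomial F) (l j) * (X * C u) = _
          rw [hzw j, map_add, Algebra.smul_def, map_mul,
            IsScalarTower.algebraMap_apply E F (Polynomial F), Polynomial.algebraMap_eq]
          ring
        simp only [h3]
        rw [Finset.prod_mul_distrib, Finset.prod_pow_eq_pow_sum, ← Finsupp.degree_eq_sum]
        have h4 : algebraMap R (Polynomial F) (P.coeff α • (⟨X, hTR⟩ : R) ^ (J - α.degree)) =
            C (algebraMap E F (P.coeff α)) * X ^ (J - α.degree) := by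
          rw [Algebra.smul_def, map_mul, ← IsScalarTower.algebraMap_apply E R (Polynomial F),
            map_pow, IsScalarTower.algebraMap_apply E F (Polynomial F), Polynomial.algebraMap_eq]
          rfl
        have h5 : (X : Polynomial F) ^ J = X ^ (J - α.degree) * X ^ α.degree := by
          rw [← pow_add, Nat.sub_add_cancel (hdeg α hα)]
        rw [h4, h5, map_mul, map_prod]
        simp only [map_pow]
        ring
      rw [Finset.sum_congr rfl h2, ← Finset.mul_sum, ← map_sum]
      have h6 : ∑ α ∈ P.support, algebraMap E F (P.coeff α) * ∏ j, z j ^ α j =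
          MvPolynomial.aeval z P := by
        rw [MvPolynomial.aeval_def, MvPolynomial.eval₂_eq']
      rw [h6, hP0, map_zero, mul_zero]
    rw [h1, mul_zero]
  have hint : IntOver E (HS z') (X * C u) := ⟨_, hmonic, hroot⟩
  intro j
  rw [hzw j]
  have h1 : (X * C (w j + l j • u) : Polynomial F) = X * C (w j) + l j • (X * C u) := by
    rw [map_add, mul_add, Algebra.smul_def, Algebra.smul_def, map_mul,
      IsScalarTower.algebraMap_apply E F (Polynomial F), Polynomial.algebraMap_eq]
    ring
  rw [h1]
  refine (intAlg E (HS z')).add_mem ?_ ((intAlg E (HS z')).smul_mem hint _)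
  exact isIntegral_algebraMap (R := R) (x := ⟨X * C (w j), hwR j⟩)

/-- **Noether's normalization by linear forms.** -/
theorem nn [Infinite E] {s : ℕ} (y : Fin s → F) : ∃ (k : ℕ) (z : Fin k → F),
    (∀ j, z j ∈ Submodule.span E (Set.range y)) ∧ AlgebraicIndependent E z ∧
      ∀ i, IntOver E (HS z) (X * C (y i)) := by
  have key : ∀ q : ℕ, ∀ z : Fin q → F, (∀ j, z j ∈ Submodule.span E (Set.range y)) →
      (∀ i, IntOver E (HS z) (X * C (y i))) → ∃ (k : ℕ) (z : Fin k → F),
        (∀ j, z j ∈ Submodule.span E (Set.range y)) ∧ AlgebraicIndependent E z ∧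
          ∀ i, IntOver E (HS z) (X * C (y i)) := by
    intro q
    induction q with
    | zero =>
      intro z h1 h2
      exact ⟨0, z, h1, algebraicIndependent_empty_type, h2⟩
    | succ q ih =>
      intro z h1 h2
      by_cases hz : AlgebraicIndependent E z
      · exact ⟨q + 1, z, h1, hz, h2⟩
      · obtain ⟨z', h3, h4⟩ := elim hz
        refine ih z' (fun j => ?_) fun i => IntOver.trans ?_ (h2 i)
        · exact (Submodule.span_le.2 (by
            rintro _ ⟨j, rfl⟩
            exact h1 j) : Submodule.span E (Set.range z) ≤ _) (h3 j)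
        · rintro x (rfl | ⟨j, rfl⟩)
          · exact IntOver.mem (Set.mem_insert _ _)
          · exact h4 j
  exact key s y (fun j => Submodule.subset_span ⟨j, rfl⟩) fun i =>
    IntOver.mem (Set.mem_insert_of_mem _ ⟨i, rfl⟩)

end

end Pool.Agent.U598.MD
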