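import Pool.Agent.U598.IK.Iso
import Pool.Agent.U598.MD.NN

/-!
Krull's principal ideal theorem for the dimension of the prime ideals of a polynomial ring over a
field: a minimal prime ideal over a prime ideal and `q` polynomials has a dimension which is smaller
by at most `q`.
-/

set_option autoImplicit false
set_option linter.unusedSectionVars false

open MvPolynomial Pool.Agent.U598.IK

namespace Pool.Agent.U598.MD

section

variable {P0 B : Type*} [CommRing P0] [IsDomain P0] [IsIntegrallyClosed P0] [CommRing B]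
  [IsDomain B] [Algebra P0 B] [Algebra.IsIntegral P0 B]

theorem gd (hinj : Function.Injective (algebraMap P0 B)) {b : P0} (hb : Prime b) {𝔮 : Ideal B}
    (hq : 𝔮 ∈ (Ideal.span {algebraMap P0 B b}).minimalPrimes) {a : P0}
    (ha : algebraMap P0 B a ∈ 𝔮) : b ∣ a := by
  classical
  have hf : FaithfulSMul P0 B := (faithfulSMul_iff_algebraMap_injective P0 B).2 hinj
  have hqp : 𝔮.IsPrime := hq.isPrime
  by_contra hcon
  obtain ⟨v, hv, t, hvt⟩ := exists_pow_of_minimal hq ha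
  obtain ⟨w, hw⟩ := Ideal.mem_span_singleton'.1 hvt
  have hr : ¬ b ∣ a ^ (t + 1) := fun h => hcon (hb.dvd_of_dvd_pow h)
  obtain ⟨r, hrdef⟩ : ∃ r, r = a ^ (t + 1) := ⟨_, rfl⟩
  rw [← hrdef] at hr
  rw [← map_pow, ← hrdef] at hw
  -- the field
  have hbp : (Ideal.span {b} : Ideal P0).IsPrime := (Ideal.span_singleton_prime hb.ne_zero).2 hb
  let k' := FractionRing (P0 ⧸ Ideal.span {b})
  obtain ⟨φ, hφ⟩ : ∃ φ : P0 →+* k', ∀ x, φ x = 0 ↔ b ∣ x := by
    refine ⟨(algebraMap (P0 ⧸ Ideal.span {b}) k').comp (Ideal.Quotient.mk _), fun x => ?_⟩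
    rw [RingHom.comp_apply, map_eq_zero_iff _ (IsFractionRing.injective _ _),
      Ideal.Quotient.eq_zero_iff_mem, Ideal.mem_span_singleton]
  -- the polynomials
  have hvi : IsIntegral P0 v := Algebra.IsIntegral.isIntegral v
  have hwi : IsIntegral P0 w := Algebra.IsIntegral.isIntegral w
  have h1 : Polynomial.aeval v (((minpoly P0 w).scaleRoots b).comp
      (Polynomial.C r * Polynomial.X)) = 0 := by
    rw [Polynomial.aeval_comp, map_mul, Polynomial.aeval_C, Polynomial.aeval_X]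
    have h2 : algebraMap P0 B r * v = algebraMap P0 B b * w := by
      rw [mul_comm, ← hw, mul_comm]
    rw [h2]
    exact Polynomial.scaleRoots_aeval_eq_zero (minpoly.aeval P0 w)
  have h2 := minpoly.isIntegrallyClosed_dvd hvi h1
  have h3 := Polynomial.map_dvd φ h2
  have hmon : ((minpoly P0 v).map φ).Monic := (minpoly.monic hvi).map φ
  have h4 : ((((minpoly P0 w).scaleRoots b).comp (Polynomial.C r * Polynomial.X)).map φ) =
      Polynomial.C (φ r ^ (minpoly P0 w).natDegree) * Polynomial.X ^ (minpoly P0 w).natDegree := by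
    rw [Polynomial.map_comp, Polynomial.map_scaleRoots _ _ _ (by
      rw [(minpoly.monic hwi).leadingCoeff, map_one]
      exact one_ne_zero), (hφ b).2 dvd_rfl]
    rw [Polynomial.scaleRoots_zero, ((minpoly.monic hwi).map φ).leadingCoeff, one_smul,
      (minpoly.monic hwi).natDegree_map, Polynomial.X_pow_comp, Polynomial.map_mul,
      Polynomial.map_C, Polynomial.map_X, mul_pow, Polynomial.C_pow]
  rw [h4] at h3
  have hr0 : φ r ≠ 0 := fun h => hr ((hφ r).1 h)
  have hunit : IsUnit (Polynomial.C (φ r ^ (minpoly P0 w).natDegree)) :=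
    Polynomial.isUnit_C.2 (pow_ne_zero _ hr0).isUnit
  rw [hunit.dvd_mul_left] at h3
  obtain ⟨i, -, hi⟩ := (dvd_prime_pow Polynomial.prime_X _).1 h3
  have h5 := Polynomial.eq_of_monic_of_associated hmon (Polynomial.monic_X_pow i) hi
  have hi2 : i = (minpoly P0 v).natDegree := by
    have h6 := congrArg Polynomial.natDegree h5
    rw [(minpoly.monic hvi).natDegree_map, Polynomial.natDegree_X_pow] at h6
    exact h6.symm
  have h7 : ∀ j < (minpoly P0 v).natDegree, b ∣ (minpoly P0 v).coeff j := by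
    intro j hj
    rw [← hφ, ← Polynomial.coeff_map, h5, Polynomial.coeff_X_pow, if_neg]
    omega
  have h8 := minpoly.aeval P0 v
  rw [Polynomial.aeval_eq_sum_range, Finset.sum_range_succ] at h8
  have h9 : (minpoly P0 v).coeff (minpoly P0 v).natDegree = 1 := (minpoly.monic hvi)
  rw [h9, one_smul] at h8
  have hbq : algebraMap P0 B b ∈ 𝔮 := hq.1.2 (Ideal.mem_span_singleton_self _)
  have h10 : v ^ (minpoly P0 v).natDegree ∈ 𝔮 := by
    have h11 : ∑ x ∈ Finset.range (minpoly P0 v).natDegree,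
        (minpoly P0 v).coeff x • v ^ x ∈ 𝔮 := by
      refine 𝔮.sum_mem fun j hj => ?_
      obtain ⟨c, hc⟩ := h7 j (Finset.mem_range.1 hj)
      rw [hc, Algebra.smul_def, map_mul, mul_assoc]
      exact 𝔮.mul_mem_right _ hbq
    have h12 := 𝔮.neg_mem h11
    rwa [← eq_neg_of_add_eq_zero_right h8] at h12
  exact hv (hqp.mem_of_pow_mem _ h10)

end

section

variable {E : Type*} [Field E] [Infinite E] {s : ℕ}

/-- the generic point of a prime ideal and its normalization -/
theorem exists_nn (𝔭 : Ideal (MvPolynomial (Fin s) E)) [h𝔭 : 𝔭.IsPrime] :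
    ∃ (k : ℕ) (Z : Fin k → MvPolynomial (Fin s) E),
      (∀ j, Z j ∈ Submodule.span E (Set.range (X : Fin s → MvPolynomial (Fin s) E))) ∧
      AlgebraicIndependent E (fun j => algebraMap (MvPolynomial (Fin s) E ⧸ 𝔭)
        (FractionRing (MvPolynomial (Fin s) E ⧸ 𝔭)) (Ideal.Quotient.mk 𝔭 (Z j))) ∧
      ∀ i, IntOver E (HS (fun j => algebraMap (MvPolynomial (Fin s) E ⧸ 𝔭)
        (FractionRing (MvPolynomial (Fin s) E ⧸ 𝔭)) (Ideal.Quotient.mk 𝔭 (Z j))))
        (Polynomial.X * Polynomial.C (algebraMap (MvPolynomial (Fin s) E ⧸ 𝔭)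
          (FractionRing (MvPolynomial (Fin s) E ⧸ 𝔭)) (Ideal.Quotient.mk 𝔭 (X i)))) := by
  classical
  obtain ⟨k, z, hz1, hz2, hz3⟩ := nn (E := E) (fun i : Fin s =>
    algebraMap (MvPolynomial (Fin s) E ⧸ 𝔭) (FractionRing (MvPolynomial (Fin s) E ⧸ 𝔭))
      (Ideal.Quotient.mk 𝔭 (X i)))
  have hlift : ∀ j, ∃ Z ∈ Submodule.span E (Set.range (X : Fin s → MvPolynomial (Fin s) E)),
      algebraMap (MvPolynomial (Fin s) E ⧸ 𝔭) (FractionRing (MvPolynomial (Fin s) E ⧸ 𝔭))
        (Ideal.Quotient.mk 𝔭 Z) = z j := by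
    intro j
    let ψ : MvPolynomial (Fin s) E →ₗ[E] FractionRing (MvPolynomial (Fin s) E ⧸ 𝔭) :=
      ((IsScalarTower.toAlgHom E (MvPolynomial (Fin s) E ⧸ 𝔭)
        (FractionRing (MvPolynomial (Fin s) E ⧸ 𝔭))).comp (Ideal.Quotient.mkₐ E 𝔭)).toLinearMap
    have h1 : z j ∈ (Submodule.span E (Set.range (X : Fin s → MvPolynomial (Fin s) E))).map ψ := by
      rw [Submodule.map_span, ← Set.range_comp]
      exact hz1 j
    obtain ⟨Z, hZ1, hZ2⟩ := h1
    exact ⟨Z, hZ1, hZ2⟩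
  choose Z hZ1 hZ2 using hlift
  refine ⟨k, Z, hZ1, ?_, ?_⟩
  · simp only [hZ2]
    exact hz2
  · simp only [hZ2]
    exact hz3

omit [Infinite E] in
theorem IntOver.infty {F : Type*} [Field F] [Algebra E F] {k : ℕ} {z : Fin k → F} {y : F}
    (h : IntOver E (HS z) (Polynomial.X * Polynomial.C y)) : IntOver E (Set.range z) y := by
  let f : Polynomial F →ₐ[E] F := (Polynomial.aeval (1 : F) : Polynomial F →ₐ[F] F).restrictScalars E
  have hfX : f Polynomial.X = 1 := by
    change Polynomial.aeval (1 : F) Polynomial.X = 1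
    rw [Polynomial.aeval_X]
  have hfC : ∀ c : F, f (Polynomial.C c) = c := by
    intro c
    change Polynomial.aeval (1 : F) (Polynomial.C c) = c
    rw [Polynomial.aeval_C]
    rfl
  have h1 := h.map f (S' := Set.range z) (by
    rintro x (rfl | ⟨j, rfl⟩)
    · rw [hfX]
      exact (intAlg E (Set.range z)).one_mem
    · rw [map_mul, hfX, hfC, one_mul]
      exact IntOver.mem ⟨j, rfl⟩)
  rwa [map_mul, hfX, hfC, one_mul] at h1

omit [Infinite E] in
theorem IntOver.poly {F : Type*} [Field F] [Algebra E F] {k : ℕ} {z : Fin k → F}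
    (hz : AlgebraicIndependent E z) {y : F} (h : IntOver E (Set.range z) y) :
    ((aeval z : MvPolynomial (Fin k) E →ₐ[E] F) : MvPolynomial (Fin k) E →+* F).IsIntegralElem y := by
  obtain ⟨p, hp, hp0⟩ := h
  let e := hz.aevalEquiv
  refine ⟨p.map (e.symm : Algebra.adjoin E (Set.range z) →+* MvPolynomial (Fin k) E),
    hp.map _, ?_⟩
  rw [Polynomial.eval₂_map]
  have h1 : ((aeval z : MvPolynomial (Fin k) E →ₐ[E] F) : MvPolynomial (Fin k) E →+* F).comp
      (e.symm : Algebra.adjoin E (Set.range z) →+* MvPolynomial (Fin k) E) =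
      algebraMap (Algebra.adjoin E (Set.range z)) F := by
    ext a
    have h2 := hz.algebraMap_aevalEquiv (e.symm a)
    change aeval z (e.symm a) = (a : F)
    rw [← h2]
    change ((e (e.symm a) : Algebra.adjoin E (Set.range z)) : F) = a
    rw [AlgEquiv.apply_symm_apply]
  rw [h1]
  exact hp0

/-- **Krull's principal ideal theorem.** -/
theorem krull1 {𝔭 𝔮 : Ideal (MvPolynomial (Fin s) E)} (h𝔭 : 𝔭.IsPrime) {D : ℕ}
    (hI : Ind 𝔭 (D + 1)) {g : MvPolynomial (Fin s) E}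
    (hq : 𝔮 ∈ (𝔭 ⊔ Ideal.span {g}).minimalPrimes) : Ind 𝔮 D := by
  classical
  have hqp : 𝔮.IsPrime := hq.isPrime
  have hpq : 𝔭 ≤ 𝔮 := le_sup_left.trans hq.1.2
  by_cases hg : g ∈ 𝔭
  · have h1 : 𝔮 ≤ 𝔭 := hq.2 ⟨h𝔭, sup_le le_rfl (by
      rw [Ideal.span_singleton_le_iff_mem]
      exact hg)⟩ hpq
    exact (hI.mono h1).pred
  obtain ⟨k, Z, hZ1, hZ2, hZ3⟩ := exists_nn 𝔭
  let B := MvPolynomial (Fin s) E ⧸ 𝔭
  let F := FractionRing B
  have hdom : IsDomain B := Ideal.Quotient.isDomain 𝔭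
  have hmk : ∀ {ρ : Type} (w : ρ → MvPolynomial (Fin s) E) (P : MvPolynomial ρ E),
      aeval (fun i => Ideal.Quotient.mk 𝔭 (w i)) P = Ideal.Quotient.mk 𝔭 (aeval w P) := by
    intro ρ w P
    exact (comp_aeval_apply (φ := Ideal.Quotient.mkₐ E 𝔭) w P).symm
  have hmkF : ∀ {ρ : Type} (w : ρ → MvPolynomial (Fin s) E) (P : MvPolynomial ρ E),
      aeval (fun i => algebraMap B F (Ideal.Quotient.mk 𝔭 (w i))) P =
        algebraMap B F (Ideal.Quotient.mk 𝔭 (aeval w P)) := by
    intro ρ w P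
    rw [← hmk]
    exact (comp_aeval_apply (φ := IsScalarTower.toAlgHom E B F) _ P).symm
  -- the algebra structure
  let _ : Algebra (MvPolynomial (Fin k) E) B :=
    (aeval (fun j => Ideal.Quotient.mk 𝔭 (Z j)) : MvPolynomial (Fin k) E →ₐ[E] B).toRingHom.toAlgebra
  have halg : ∀ P : MvPolynomial (Fin k) E, algebraMap (MvPolynomial (Fin k) E) B P =
      aeval (fun j => Ideal.Quotient.mk 𝔭 (Z j)) P := fun P => rfl
  have hinjF : ∀ P : MvPolynomial (Fin k) E,
      aeval (fun j => algebraMap B F (Ideal.Quotient.mk 𝔭 (Z j))) P = 0 → P = 0 :=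
    algebraicIndependent_iff.1 hZ2
  have hinj : Function.Injective (algebraMap (MvPolynomial (Fin k) E) B) := by
    rw [injective_iff_map_eq_zero]
    intro P hP
    apply hinjF
    rw [hmkF, ← hmk, ← halg, hP, map_zero]
  have hXint : ∀ i, IsIntegral (MvPolynomial (Fin k) E) (Ideal.Quotient.mk 𝔭 (X i) : B) := by
    intro i
    obtain ⟨p, hp, hp0⟩ := (hZ3 i).infty.poly hZ2
    refine ⟨p, hp, ?_⟩
    apply IsFractionRing.injective B F
    rw [map_zero, Polynomial.hom_eval₂]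
    have h1 : (algebraMap B F).comp (algebraMap (MvPolynomial (Fin k) E) B) =
        ((aeval (fun j => algebraMap B F (Ideal.Quotient.mk 𝔭 (Z j))) :
          MvPolynomial (Fin k) E →ₐ[E] F) : MvPolynomial (Fin k) E →+* F) := by
      refine RingHom.ext fun P => ?_
      rw [RingHom.comp_apply, halg, hmk]
      exact (hmkF Z P).symm
    rw [h1]
    exact hp0
  have hint : Algebra.IsIntegral (MvPolynomial (Fin k) E) B := by
    refine ⟨fun b => ?_⟩
    obtain ⟨G, rfl⟩ := Ideal.Quotient.mk_surjective b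
    induction G using MvPolynomial.induction_on with
    | C a =>
      have h1 : (Ideal.Quotient.mk 𝔭 (C a) : B) = algebraMap (MvPolynomial (Fin k) E) B (C a) := by
        rw [halg, aeval_C]
        rfl
      rw [h1]
      exact isIntegral_algebraMap
    | add p q hp hq =>
      rw [map_add]
      exact hp.add hq
    | mul_X p j hp =>
      rw [map_mul]
      exact hp.mul (hXint j)
  -- the transcendence basis
  have hbasis : IsTranscendenceBasis E (fun j => algebraMap B F (Ideal.Quotient.mk 𝔭 (Z j))) := by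
    rw [hZ2.isTranscendenceBasis_iff_isAlgebraic]
    have h1 : ∀ b : B, IsAlgebraic (Algebra.adjoin E (Set.range
        (fun j => algebraMap B F (Ideal.Quotient.mk 𝔭 (Z j))))) (algebraMap B F b) := by
      intro b
      obtain ⟨G, rfl⟩ := Ideal.Quotient.mk_surjective b
      have h2 : algebraMap B F (Ideal.Quotient.mk 𝔭 G) ∈ intAlg E (Set.range
          (fun j => algebraMap B F (Ideal.Quotient.mk 𝔭 (Z j)))) := by
        rw [← aeval_X_left_apply G, ← hmkF]
        induction G using MvPolynomial.induction_on with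
        | C a =>
          rw [aeval_C]
          exact (intAlg E _).algebraMap_mem a
        | add p q hp hq =>
          rw [map_add]
          exact (intAlg E _).add_mem hp hq
        | mul_X p j hp =>
          rw [map_mul, aeval_X]
          exact (intAlg E _).mul_mem hp (hZ3 j).infty
      exact IsIntegral.isAlgebraic h2
    refine ⟨fun f => ?_⟩
    obtain ⟨a, b, -, rfl⟩ := IsFractionRing.div_surjective (A := B) f
    rw [div_eq_mul_inv]
    exact (h1 a).mul (h1 b).inv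
  -- the dimension
  have hDk : D + 1 ≤ k := by
    obtain ⟨T, -, hT⟩ := hI.coords h𝔭
    have hind : AlgebraicIndependent E (fun i => algebraMap B F (Ideal.Quotient.mk 𝔭 (X (T i)))) := by
      rw [algebraicIndependent_iff]
      intro P hP
      by_contra hne
      rw [hmkF (fun i => X (T i)), map_eq_zero_iff _ (IsFractionRing.injective B F),
        Ideal.Quotient.eq_zero_iff_mem] at hP
      exact hT P hne hP
    have h1 := hind.lift_cardinalMk_le_trdeg
    rw [← hbasis.lift_cardinalMk_eq_trdeg] at h1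
    simpa using h1
  obtain ⟨k', rfl⟩ : ∃ k', k = k' + 1 := ⟨k - 1, by omega⟩
  -- the image of the ideal in the quotient
  obtain ⟨𝔯, h𝔯⟩ : ∃ 𝔯 : Ideal B, 𝔯 = 𝔮.map (Ideal.Quotient.mk 𝔭) := ⟨_, rfl⟩
  have h𝔯c : 𝔯.comap (Ideal.Quotient.mk 𝔭) = 𝔮 := by
    rw [h𝔯, Ideal.comap_map_of_surjective _ Ideal.Quotient.mk_surjective,
      ← RingHom.ker_eq_comap_bot, Ideal.mk_ker]
    exact sup_eq_left.2 hpq
  have h𝔯p : 𝔯.IsPrime := by
    rw [h𝔯]
    exact Ideal.map_isPrime_of_surjective Ideal.Quotient.mk_surjective (by rwa [Ideal.mk_ker])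
  have hmem : ∀ G, Ideal.Quotient.mk 𝔭 G ∈ 𝔯 ↔ G ∈ 𝔮 := by
    intro G
    rw [← h𝔯c]
    rfl
  have hgq : g ∈ 𝔮 := hq.1.2 ((le_sup_right : Ideal.span {g} ≤ 𝔭 ⊔ Ideal.span {g})
    (Ideal.mem_span_singleton_self g))
  have h𝔯min : 𝔯 ∈ (Ideal.span {Ideal.Quotient.mk 𝔭 g}).minimalPrimes := by
    refine ⟨⟨h𝔯p, ?_⟩, ?_⟩
    · rw [Ideal.span_singleton_le_iff_mem, hmem]
      exact hgq
    · rintro 𝔱 ⟨ht, ht2⟩ ht3
      have h1 : 𝔮 ≤ 𝔱.comap (Ideal.Quotient.mk 𝔭) := by
        refine hq.2 ⟨Ideal.IsPrime.comap _, sup_le ?_ ?_⟩ ?_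
        · intro x hx
          rw [Ideal.mem_comap, Ideal.Quotient.eq_zero_iff_mem.2 hx]
          exact 𝔱.zero_mem
        · rw [Ideal.span_singleton_le_iff_mem, Ideal.mem_comap]
          exact ht2 (Ideal.mem_span_singleton_self _)
        · intro x hx
          exact (hmem x).1 (ht3 hx)
      intro x hx
      obtain ⟨G, rfl⟩ := Ideal.Quotient.mk_surjective x
      exact h1 ((hmem G).1 hx)
  have hnoeth : IsNoetherianRing B := inferInstance
  have hht : 𝔯.height ≤ 1 :=
    Ideal.height_le_one_of_isPrincipal_of_mem_minimalPrimes _ _ h𝔯min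
  have h𝔯0 : 𝔯 ≠ ⊥ := by
    intro h0
    have h1 : Ideal.Quotient.mk 𝔭 g ∈ 𝔯 := (hmem g).2 hgq
    rw [h0, Ideal.mem_bot, Ideal.Quotient.eq_zero_iff_mem] at h1
    exact hg h1
  have hcon0 : 𝔯.comap (algebraMap (MvPolynomial (Fin (k' + 1)) E) B) ≠ ⊥ := fun h =>
    h𝔯0 (Ideal.eq_bot_of_comap_eq_bot h)
  obtain ⟨b, hb𝔯, hb⟩ := (Ideal.IsPrime.comap (algebraMap (MvPolynomial (Fin (k' + 1)) E) B)
    (hK := h𝔯p)).exists_mem_prime_of_ne_bot hcon0
  obtain ⟨𝔯1, hr1, hr12⟩ := Ideal.exists_minimalPrimes_le (I := Ideal.span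
    {algebraMap (MvPolynomial (Fin (k' + 1)) E) B b}) (J := 𝔯) (by
      rw [Ideal.span_singleton_le_iff_mem]
      exact hb𝔯)
  have hr1p : 𝔯1.IsPrime := hr1.isPrime
  have heq : 𝔯1 = 𝔯 := by
    by_contra hne
    have hlt : 𝔯1 < 𝔯 := lt_of_le_of_ne hr12 hne
    have h1 := Ideal.height_add_one_le_of_lt_of_isPrime hlt
    have h2 : (⊥ : Ideal B) < 𝔯1 := by
      rw [bot_lt_iff_ne_bot]
      intro h0
      have h3 : algebraMap (MvPolynomial (Fin (k' + 1)) E) B b ∈ 𝔯1 :=
        hr1.1.2 (Ideal.mem_span_singleton_self _)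
      rw [h0, Ideal.mem_bot] at h3
      exact hb.ne_zero (hinj (by rw [h3, map_zero]))
    have hbp : (⊥ : Ideal B).IsPrime := Ideal.isPrime_bot
    have h3 := Ideal.height_add_one_le_of_lt_of_isPrime h2
    have h4 : (1 : ℕ∞) ≤ 𝔯1.height := le_trans (by simp) h3
    have h5 : (2 : ℕ∞) ≤ 1 := by
      calc (2 : ℕ∞) = 1 + 1 := by norm_num
        _ ≤ 𝔯1.height + 1 := by gcongr
        _ ≤ 𝔯.height := h1
        _ ≤ 1 := hht
    exact absurd h5 (by norm_num)
  rw [heq] at hr1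
  have hdvd : ∀ P : MvPolynomial (Fin (k' + 1)) E,
      algebraMap (MvPolynomial (Fin (k' + 1)) E) B P ∈ 𝔯 → b ∣ P := fun P hP =>
    gd hinj hb hr1 hP
  -- a variable of the prime polynomial
  obtain ⟨j0, hj0⟩ : ∃ j0, b.degreeOf j0 ≠ 0 := by
    by_contra hcon
    push Not at hcon
    have h1 : b.totalDegree = 0 := by
      rw [totalDegree_eq_zero_iff]
      intro m hm x
      have h2 := (degreeOf_le_iff (n := x) (f := b) (d := 0)).1 (hcon x).le m hm
      omega
    have h2 := (totalDegree_eq_zero_iff_eq_C (p := b)).1 h1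
    apply hb.not_isUnit
    rw [h2]
    refine (isUnit_iff_ne_zero.2 fun h0 => hb.ne_zero ?_).map C
    rw [h2, h0, map_zero]
  have hfin : Ind 𝔮 k' := by
    refine ⟨fun i => Z (j0.succAbove i), fun P hP hmem2 => ?_⟩
    have h1 : algebraMap (MvPolynomial (Fin (k' + 1)) E) B (rename j0.succAbove P) ∈ 𝔯 := by
      rw [halg, aeval_rename]
      change aeval (fun i => Ideal.Quotient.mk 𝔭 (Z (j0.succAbove i))) P ∈ 𝔯
      rw [hmk (fun i => Z (j0.succAbove i)), hmem]
      exact hmem2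
    obtain ⟨c, hc⟩ := hdvd _ h1
    have hPne : rename j0.succAbove P ≠ 0 := fun h0 =>
      hP (rename_injective _ (Fin.succAbove_right_injective) (by rw [h0, map_zero]))
    have hcne : c ≠ 0 := by
      rintro rfl
      exact hPne (by rw [hc, mul_zero])
    have h2 := congrArg (degreeOf j0) hc
    rw [degreeOf_mul_eq hb.ne_zero hcne] at h2
    have h3 : degreeOf j0 (rename j0.succAbove P) = 0 := by
      rw [← Nat.le_zero, degreeOf_le_iff]
      intro m hm
      rw [support_rename_of_injective Fin.succAbove_right_injective, Finset.mem_image] at hm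
      obtain ⟨m', -, rfl⟩ := hm
      exact (Finsupp.mapDomain_of_notMem_range _ _ (by
        rintro ⟨i, hi⟩
        exact Fin.succAbove_ne j0 i hi)).le
    omega
  exact hfin.of_le (by omega)

theorem krull (q : ℕ) : ∀ {𝔭 𝔮 : Ideal (MvPolynomial (Fin s) E)} (_ : 𝔭.IsPrime) {D : ℕ}
    (_ : Ind 𝔭 (D + q)) (g : Fin q → MvPolynomial (Fin s) E)
    (_ : 𝔮 ∈ (𝔭 ⊔ Ideal.span (Set.range g)).minimalPrimes), Ind 𝔮 D := by
  induction q with
  | zero =>
    intro 𝔭 𝔮 h𝔭 D hI g hq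
    have h0 : 𝔭 ⊔ Ideal.span (Set.range g) = 𝔭 := by
      rw [Set.range_eq_empty, Ideal.span_empty, sup_bot_eq]
    rw [h0] at hq
    exact hI.mono (hq.2 ⟨h𝔭, le_rfl⟩ hq.1.2)
  | succ q ih =>
    intro 𝔭 𝔮 h𝔭 D hI g hq
    have hqp : 𝔮.IsPrime := hq.isPrime
    have hle : 𝔭 ⊔ Ideal.span (Set.range fun i : Fin q => g i.castSucc) ≤ 𝔮 := by
      refine le_trans (sup_le_sup le_rfl (Ideal.span_mono ?_)) hq.1.2
      rintro _ ⟨i, rfl⟩
      exact ⟨_, rfl⟩
    obtain ⟨𝔯, hr, hrq⟩ := Ideal.exists_minimalPrimes_le hle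
    have hrp : 𝔯.IsPrime := hr.isPrime
    have h1 : Ind 𝔯 (D + 1) := ih h𝔭 (D := D + 1) (by rwa [add_right_comm]) _ hr
    refine krull1 hrp h1 (g := g (Fin.last q)) ⟨⟨hqp, ?_⟩, ?_⟩
    · refine sup_le hrq ?_
      rw [Ideal.span_singleton_le_iff_mem]
      exact hq.1.2 ((le_sup_right : _ ≤ 𝔭 ⊔ _) (Ideal.subset_span ⟨_, rfl⟩))
    · rintro 𝔱 ⟨ht, ht2⟩ ht3
      refine hq.2 ⟨ht, sup_le ?_ ?_⟩ ht3
      · exact (le_sup_left.trans hr.1.2).trans (le_sup_left.trans ht2)
      · rw [Ideal.span_le]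
        rintro _ ⟨i, rfl⟩
        refine Fin.lastCases ?_ (fun i => ?_) i
        · exact ht2 ((le_sup_right : _ ≤ 𝔯 ⊔ _) (Ideal.mem_span_singleton_self _))
        · exact ht2 ((le_sup_left : _ ≤ 𝔯 ⊔ _) (hr.1.2 ((le_sup_right : _ ≤ 𝔭 ⊔ _)
            (Ideal.subset_span ⟨i, rfl⟩))))

end

end Pool.Agent.U598.MD
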