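import Pool.Agent.U598.MD.Geo
import Pool.Agent.U598.MD.Comb
import Pool.Agent.U598.MD.Frame

/-!
The multiplicative bound for the components of complete intersections.
-/

set_option autoImplicit false
set_option linter.overlappingInstances false
set_option linter.unusedSectionVars false

open FF MvPolynomial Pool.Agent.W602.GT Pool.Agent.Y184.NT
open Pool.Agent.U598.IK (Ind exists_prod)

namespace Pool.Agent.U598.MD

/-- the degrees at which the dimension drops -/
theorem exists_e {E K : Type} [Field E] [Infinite E] [Field K] [Algebra E K]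
    [FiniteDimensional E K] {s : ℕ} {y : Fin s → K}
    (hy : ∀ G : MvPolynomial (Fin s) E, G.totalDegree ≤ 1 → aeval y G = 0 → G = 0) :
    ∃ e : ℕ → ℕ, (∀ k, 1 ≤ k → k ≤ s → ∀ d, Dm E y d k ↔ d ≤ e k) ∧
      ∀ k, 1 ≤ k → k ≤ s → 1 ≤ e k := by
  classical
  have h1 : ∀ k, 1 ≤ k → k ≤ s → ∃ e, 1 ≤ e ∧ ∀ d, Dm E y d k ↔ d ≤ e := by
    intro k hk hks
    have hP1 : Dm E y 1 k := (dm_top hy).of_le hks
    have hr : ¬ Dm E y (Module.finrank E K) k := fun h => not_dm y (h.of_le hk)
    have hr1 : 1 ≤ Module.finrank E K := Module.finrank_pos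
    refine ⟨Nat.findGreatest (fun d => Dm E y d k) (Module.finrank E K),
      Nat.le_findGreatest hr1 hP1, fun d => ⟨fun h => Nat.le_findGreatest ?_ h, fun h => ?_⟩⟩
    · by_contra hcon
      push Not at hcon
      exact hr (h.anti hcon.le)
    · exact (Nat.findGreatest_spec (P := fun d => Dm E y d k) hr1 hP1).anti h
  choose e he using h1
  refine ⟨fun k => if h : 1 ≤ k ∧ k ≤ s then e k h.1 h.2 else 0, fun k h1 h2 d => ?_,
    fun k h1 h2 => ?_⟩
  · dsimp only
    rw [dif_pos ⟨h1, h2⟩]
    exact (he k h1 h2).2 d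
  · dsimp only
    rw [dif_pos ⟨h1, h2⟩]
    exact (he k h1 h2).1

/-- **The multiplicative bound.** -/
theorem main {V E K : Type} [Field V] [Field E] [Field K] [Algebra ℂ V] [Algebra ℂ E]
    [Algebra ℂ K] [Algebra V K] [Algebra E K] [IsScalarTower ℂ V K] [IsScalarTower ℂ E K]
    [Algebra.EssFiniteType ℂ V] [Algebra.EssFiniteType ℂ E] [FiniteDimensional E K]
    {n m p c : ℕ} (hp : 1 ≤ p) (hn : Algebra.trdeg ℂ V = n)
    {ω : (Fin n → Derivation ℂ V V) → V}
    (hω : IsPluri 1 ω) (hω0 : ∃ D, ω D ≠ 0) {x : Fin (p + 1) → V} {j0 : Fin (p + 1)}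
    (hj0 : x j0 = 1)
    (hreg : ∀ (f : Fin m → Fin (p + 1)) (P : Place ℂ V), Divisorial n P →
      RegAt P (fun D => (∏ k, x (f k)) * ω D))
    (hx : IntermediateField.adjoin ℂ (Set.range x) = ⊤)
    (hgenK : IntermediateField.adjoin E (Set.range fun j => algebraMap V K (x j)) = ⊤)
    {δ : ℕ → ℕ} (hδ : ∀ i j, i ≤ j → j < c → δ i ≤ δ j)
    (hsum : ∑ j ∈ Finset.range c, δ j ≤ m + p + 1)
    {f : Fin c → MvPolynomial (Fin (p + 1)) ℂ} (hf : ∀ i : Fin c, (f i).totalDegree ≤ δ i)
    (hcomp : RingHom.ker (aeval x : MvPolynomial (Fin (p + 1)) ℂ →ₐ[ℂ] V) ∈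
      (Ideal.span (insert (X j0 - 1) (Set.range f))).minimalPrimes)
    {h : K} (hh : h ≠ 0)
    (htr : ∀ f : Fin m → Fin (p + 1),
      Algebra.trace E K ((∏ k, algebraMap V K (x (f k))) * h) = 0) :
    ∏ j ∈ Finset.range c, δ j ≤
      (2 * p) ^ c * ((4 * p) ^ (p * (p + 1) / 2) * Module.finrank E K) := by
  classical
  have hcE : CharZero E := charZero_of_injective_algebraMap (algebraMap ℂ E).injective
  obtain ⟨s, y, l, hs, hl1, hl2, hl3, hy⟩ := exists_frame (E := E)
    (fun j => algebraMap V K (x j)) (j0 := j0) (by rw [hj0, map_one])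
  obtain ⟨e, he, he1⟩ := exists_e hy
  have hsp : s ≤ p := by omega
  have hanti : ∀ k, 1 ≤ k → k + 1 ≤ s → e (k + 1) ≤ e k := by
    intro k h1 h2
    exact (he k h1 (by omega) _).1 (((he (k + 1) (by omega) h2 _).2 le_rfl).of_le (by omega))
  -- the equations
  have hfx : ∀ i, aeval x (f i) = 0 := fun i =>
    hcomp.1.2 (Ideal.subset_span (Set.mem_insert_of_mem _ ⟨i, rfl⟩))
  have hl0 : l j0 = 1 := by
    rw [← sub_eq_zero]
    refine hy _ ((totalDegree_sub _ _).trans (max_le (hl1 j0) ?_)) ?_
    · rw [totalDegree_one]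
      exact Nat.zero_le _
    · rw [map_sub, hl2, hj0, map_one, map_one, sub_self]
  have hcompat : ∀ F : MvPolynomial (Fin (p + 1)) ℂ,
      aeval y (aeval l F) = algebraMap V K (aeval x F) := by
    intro F
    induction F using MvPolynomial.induction_on with
    | C c =>
      rw [aeval_C, aeval_C, IsScalarTower.algebraMap_apply ℂ E (MvPolynomial (Fin s) E),
        algebraMap_eq, aeval_C, ← IsScalarTower.algebraMap_apply ℂ E K,
        ← IsScalarTower.algebraMap_apply ℂ V K]
    | add p q hp hq => rw [map_add, map_add, map_add, map_add, hp, hq]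
    | mul_X p j hp => rw [map_mul, map_mul, map_mul, map_mul, hp, aeval_X, hl2, aeval_X]
  have hstar : ∀ i < c, ∀ k ≤ s, (∀ k', 1 ≤ k' → k' ≤ s → (δ i ≤ e k' ↔ k' ≤ k)) →
      m < ∑ k' ∈ Finset.Ioc k s, e k' + ∑ j ∈ Finset.Ico (i + 1) c, (δ j - 1) := by
    intro i hi k hks hk
    have hk1 : Dm E y (δ i) k := by
      rcases Nat.eq_zero_or_pos k with h0 | h0
      · rw [h0]
        exact dm_zero y _
      · exact (he k h0 hks _).2 ((hk k h0 hks).2 le_rfl)
    have hk2 : ¬ Dm E y (δ i) (k + 1) := by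
      intro hD
      have h1 := hD.le
      have h2 := (hk (k + 1) (by omega) h1).1 ((he (k + 1) (by omega) h1 _).1 hD)
      omega
    obtain ⟨κ, G, H, 𝔮, g1, g2, g3, g4, g5, g6, g7, g8, g9⟩ := sys he
      (f := fun j : Fin c => aeval l (f j)) (fun j => by rw [hcompat, hfx, map_zero])
      (d := δ i) (i := i + 1) hi (fun j hj =>
        ((Pool.Agent.U598.IK.totalDegree_aeval_le l hl1 (f j)).trans (hf j)).trans
          (hδ j i (by omega) hi)) hk1 hk2
    have hH : ∀ b : Fin (k - κ), (H b).totalDegree ≤ δ (c - (k - κ) + b) - 1 + 1 := by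
      intro b
      have hb := b.2
      have h1 : (H b).totalDegree ≤ δ (c - (k - κ) + b) := by
        rw [← mem_restrictTotalDegree]
        have h2 : Submodule.span E ((fun j : Fin c => aeval l (f j)) ''
            {j | (j : ℕ) ≤ c - (k - κ) + b}) ≤
            restrictTotalDegree (Fin s) E (δ (c - (k - κ) + b)) := by
          rw [Submodule.span_le]
          rintro _ ⟨j, hj, rfl⟩
          rw [SetLike.mem_coe, mem_restrictTotalDegree]
          exact ((Pool.Agent.U598.IK.totalDegree_aeval_le l hl1 (f j)).trans (hf j)).trans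
            (hδ j _ hj (by omega))
        exact h2 (g7 b)
      omega
    have h1 := geo (V := V) (E := E) (K := K) hn hω hω0 hj0 hreg hx hgenK hcomp hh htr hl0 hl2 hl3
      (ι := Fin (s - k) ⊕ Fin (k - κ))
      (Sum.elim (fun a => e (s - a)) (fun b => δ (c - (k - κ) + b) - 1)) (Sum.elim G H)
      (by
        rintro (a | b)
        · exact g6 a
        · exact hH b) (κ := κ) (by
        rw [Fintype.card_sum, Fintype.card_fin, Fintype.card_fin]
        omega) (by
        rw [Set.Sum.elim_range]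
        exact g8) g5 g3 g4 g9
    rw [Fintype.sum_sum_type] at h1
    simp only [Sum.elim_inl, Sum.elim_inr] at h1
    have h2 : ∑ a : Fin (s - k), e (s - a) = ∑ k' ∈ Finset.Ioc k s, e k' := by
      rw [Fin.sum_univ_eq_sum_range (fun a => e (s - a)) (s - k)]
      refine Finset.sum_nbij' (fun a => s - a) (fun a => s - a) ?_ ?_ ?_ ?_ ?_
      · intro a ha
        rw [Finset.mem_range] at ha
        rw [Finset.mem_Ioc]
        omega
      · intro a ha
        rw [Finset.mem_Ioc] at ha
        rw [Finset.mem_range]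
        omega
      · intro a ha
        rw [Finset.mem_range] at ha
        omega
      · intro a ha
        rw [Finset.mem_Ioc] at ha
        omega
      · intro a _
        rfl
    have h3 : ∑ b : Fin (k - κ), (δ (c - (k - κ) + b) - 1) ≤
        ∑ j ∈ Finset.Ico (i + 1) c, (δ j - 1) := by
      rw [Fin.sum_univ_eq_sum_range (fun b => δ (c - (k - κ) + b) - 1) (k - κ)]
      have h4 : ∑ b ∈ Finset.range (k - κ), (δ (c - (k - κ) + b) - 1) =
          ∑ j ∈ Finset.Ico (c - (k - κ)) c, (δ j - 1) := by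
        rw [Finset.sum_Ico_eq_sum_range, show c - (c - (k - κ)) = k - κ by omega]
      rw [h4]
      refine Finset.sum_le_sum_of_subset (Finset.Ico_subset_Ico_left ?_)
      omega
    omega
  have hprod := comb_prod hp hsp e δ hanti he1 hδ hsum hstar
  -- the growth
  obtain ⟨hf0, hhf⟩ : ∃ hf0 : ℕ → ℕ,
    hf0 = fun t => Module.finrank E (Submodule.span E (mon y t)) := ⟨_, rfl⟩
  have hle : ∀ t, hf0 t ≤ Module.finrank E K := fun t => by
    rw [hhf]
    exact Submodule.finrank_le _
  have hgrow : ∏ k ∈ Finset.Icc 1 s, e k ≤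
      (4 * p) ^ (p * (p + 1) / 2) * Module.finrank E K := by
    rcases Nat.eq_zero_or_pos s with h0 | h0
    · rw [h0, Finset.Icc_eq_empty (by omega), Finset.prod_empty]
      exact Nat.mul_pos (by positivity) Module.finrank_pos
    have h1 := chain h0 e hf0 hanti he1 (fun a b hab => by
      rw [hhf]
      have hfin : Module.Finite E (Submodule.span E (mon y b)) :=
        FiniteDimensional.span_of_finite E (mon_finite y b)
      exact Submodule.finrank_mono (Submodule.span_mono (mon_mono y hab))) (by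
      have h2 : (s + e s).choose (e s) ≤ hf0 (e s) := by
        rw [hhf]
        refine Pool.Agent.U598.IK.card_mono y (fun P hP hP0 => ?_) _ fun α hα =>
          Submodule.subset_span ⟨α, hα, rfl⟩
        exact ((he s h0 le_rfl _).2 le_rfl).eq_zero hP hP0
      exact (pow_le_choose s (e s)).trans (Nat.mul_le_mul_left _ h2)) (fun k hk1 hks hlt => by
      rw [hhf]
      refine growD hlt.le ((he k hk1 (by omega) _).2 le_rfl) fun hD => ?_
      have h2 := (he (k + 1) (by omega) hks _).1 hD
      omega)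
    exact h1.trans (Nat.mul_le_mul (const_le hsp hp) (hle _))
  exact hprod.trans (Nat.mul_le_mul_left _ hgrow)

end Pool.Agent.U598.MD
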