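import Pool.Agent.U598.MD.Sys
import Pool.Agent.U598.MD.Iso
import Pool.Agent.U598.IK.Pos

/-!
Families of subvarieties of positive dimension of linear spaces, which cover a variety with
positive canonical bundle and are components of complete intersections.
-/

set_option autoImplicit false
set_option linter.overlappingInstances false
set_option linter.unusedSectionVars false

open FF MvPolynomial Pool.Agent.W602.GT Pool.Agent.Y184.NT
open Pool.Agent.U598.IK (vert exists_prod)

namespace Pool.Agent.U598.MD

section

variable {E S R : Type*} [Field E] [Field S] [Field R] [Algebra E S] [Algebra S R] [Algebra E R]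
  [IsScalarTower E S R] {s : ℕ}

theorem min_up (η : Fin s → R) (U : Set (MvPolynomial (Fin s) E))
    (U' : Set (MvPolynomial (Fin s) S)) (hU : ∀ G ∈ U, map (algebraMap E S) G ∈ U')
    (hU' : ∀ G ∈ U', aeval η G = 0)
    (hS : ∀ F : IntermediateField E S,
      (∀ (τ : S) (i : Fin s), (X i - C τ : MvPolynomial (Fin s) S) ∈ U' → τ ∈ F) → ∀ a, a ∈ F)
    (hmin : RingHom.ker (aeval η : MvPolynomial (Fin s) E →ₐ[E] R) ∈
      (Ideal.span U).minimalPrimes) :
    RingHom.ker (aeval η : MvPolynomial (Fin s) S →ₐ[S] R) ∈
      (Ideal.span U').minimalPrimes := by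
  classical
  have hev : ∀ G : MvPolynomial (Fin s) E, aeval η (map (algebraMap E S) G) = aeval η G :=
    fun G => aeval_map_algebraMap S η G
  refine ⟨⟨RingHom.ker_isPrime _, ?_⟩, ?_⟩
  · rw [Ideal.span_le]
    intro G hG
    exact hU' G hG
  · rintro 𝔮 ⟨hq, hq2⟩ hq3 g hg
    have hcomap : RingHom.ker (aeval η : MvPolynomial (Fin s) E →ₐ[E] R) ≤
        𝔮.comap (map (algebraMap E S)) := by
      refine hmin.2 ⟨Ideal.IsPrime.comap _, ?_⟩ ?_
      · rw [Ideal.span_le]
        intro G hG
        exact hq2 (Ideal.subset_span (hU G hG))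
      · intro G hG
        have h1 := hq3 hG
        rw [RingHom.mem_ker] at h1 ⊢
        rw [← hev]
        exact h1
    -- the denominators
    let Good : MvPolynomial (Fin s) S → Prop := fun g => ∃ D G : MvPolynomial (Fin s) E,
      map (algebraMap E S) D ∉ 𝔮 ∧ map (algebraMap E S) D * g - map (algebraMap E S) G ∈ 𝔮
    have hadd : ∀ g g', Good g → Good g' → Good (g + g') := by
      rintro g g' ⟨D, G, h1, h2⟩ ⟨D', G', h1', h2'⟩
      refine ⟨D * D', D' * G + D * G', ?_, ?_⟩
      · rw [map_mul]
        exact fun h => (hq.mem_or_mem h).elim h1 h1'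
      · have h3 : map (algebraMap E S) (D * D') * (g + g') -
            map (algebraMap E S) (D' * G + D * G') =
            map (algebraMap E S) D' * (map (algebraMap E S) D * g - map (algebraMap E S) G) +
            map (algebraMap E S) D * (map (algebraMap E S) D' * g' - map (algebraMap E S) G') := by
          rw [map_mul, map_add, map_mul, map_mul]
          ring
        rw [h3]
        exact 𝔮.add_mem (𝔮.mul_mem_left _ h2) (𝔮.mul_mem_left _ h2')
    have hmul : ∀ g g', Good g → Good g' → Good (g * g') := by
      rintro g g' ⟨D, G, h1, h2⟩ ⟨D', G', h1', h2'⟩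
      refine ⟨D * D', G * G', ?_, ?_⟩
      · rw [map_mul]
        exact fun h => (hq.mem_or_mem h).elim h1 h1'
      · have h3 : map (algebraMap E S) (D * D') * (g * g') - map (algebraMap E S) (G * G') =
            (map (algebraMap E S) D' * g') *
              (map (algebraMap E S) D * g - map (algebraMap E S) G) +
            map (algebraMap E S) G *
              (map (algebraMap E S) D' * g' - map (algebraMap E S) G') := by
          rw [map_mul, map_mul]
          ring
        rw [h3]
        exact 𝔮.add_mem (𝔮.mul_mem_left _ h2) (𝔮.mul_mem_left _ h2')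
    have hone : (1 : MvPolynomial (Fin s) S) ∉ 𝔮 := fun h => hq.ne_top ((Ideal.eq_top_iff_one _).2 h)
    have himg : ∀ G : MvPolynomial (Fin s) E, Good (map (algebraMap E S) G) := fun G =>
      ⟨1, G, by rw [map_one]; exact hone, by
        rw [map_one, one_mul, sub_self]
        exact 𝔮.zero_mem⟩
    have hsub : ∀ g g', Good g → g - g' ∈ 𝔮 → Good g' := by
      rintro g g' ⟨D, G, h1, h2⟩ h
      refine ⟨D, G, h1, ?_⟩
      have h3 : map (algebraMap E S) D * g' - map (algebraMap E S) G =
          (map (algebraMap E S) D * g - map (algebraMap E S) G) -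
          map (algebraMap E S) D * (g - g') := by ring
      rw [h3]
      exact 𝔮.sub_mem h2 (𝔮.mul_mem_left _ h)
    let F0 : IntermediateField E S :=
      { carrier := {a | Good (C a)}
        mul_mem' := fun {a b} ha hb => by
          change Good (C (a * b))
          rw [C_mul]
          exact hmul _ _ ha hb
        add_mem' := fun {a b} ha hb => by
          change Good (C (a + b))
          rw [C_add]
          exact hadd _ _ ha hb
        algebraMap_mem' := fun c => by
          have h1 := himg (C c)
          rw [map_C] at h1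
          exact h1
        inv_mem' := fun a ha => by
          change Good (C a⁻¹)
          by_cases ha0 : a = 0
          · rw [ha0, inv_zero, ← ha0]
            exact ha
          · obtain ⟨D, G, h1, h2⟩ := ha
            have hCa : (C a * C a⁻¹ : MvPolynomial (Fin s) S) = 1 := by
              rw [← C_mul, mul_inv_cancel₀ ha0, C_1]
            refine ⟨G, D, fun hG => h1 ?_, ?_⟩
            · have h3 := 𝔮.add_mem h2 hG
              rw [sub_add_cancel] at h3
              have h4 := 𝔮.mul_mem_right (C a⁻¹) h3
              rwa [mul_assoc, hCa, mul_one] at h4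
            · have h3 : map (algebraMap E S) G * C a⁻¹ - map (algebraMap E S) D =
                  -(C a⁻¹) * (map (algebraMap E S) D * C a - map (algebraMap E S) G) +
                    map (algebraMap E S) D * (C a * C a⁻¹ - 1) := by ring
              rw [h3, hCa, sub_self, mul_zero, add_zero]
              exact 𝔮.mul_mem_left _ h2 }
    have hconst : ∀ a : S, Good (C a) := fun a => hS F0 (fun τ i hτ => by
      have h1 : (X i - C τ : MvPolynomial (Fin s) S) ∈ 𝔮 := hq2 (Ideal.subset_span hτ)
      have h2 := himg (X i)
      rw [map_X] at h2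
      exact hsub _ _ h2 h1) a
    have hall : ∀ g : MvPolynomial (Fin s) S, Good g := by
      intro g
      induction g using MvPolynomial.induction_on with
      | C a => exact hconst a
      | add p q hp hq => exact hadd _ _ hp hq
      | mul_X p i hp =>
        refine hmul _ _ hp ?_
        have h2 := himg (X i)
        rwa [map_X] at h2
    obtain ⟨D, G, h1, h2⟩ := hall g
    have h3 : map (algebraMap E S) G ∈ 𝔮 := by
      have h4 : G ∈ RingHom.ker (aeval η : MvPolynomial (Fin s) E →ₐ[E] R) := by
        rw [RingHom.mem_ker, ← hev]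
        have h5 := hq3 h2
        rw [RingHom.mem_ker] at h5 hg
        change aeval η _ = 0 at h5
        change aeval η g = 0 at hg
        rw [map_sub, map_mul, hg, mul_zero, zero_sub, neg_eq_zero] at h5
        exact h5
      exact hcomap h4
    have h6 := 𝔮.add_mem h2 h3
    rw [sub_add_cancel] at h6
    exact (hq.mem_or_mem h6).resolve_left h1

end

open scoped IntermediateField.algebraAdjoinAdjoin in
theorem trans_alg {E R : Type*} [Field E] [Field R] [Algebra E R] {S : Set R} {r : R}
    (h : IsAlgebraic (IntermediateField.adjoin E S) r) : IsAlgebraic (Algebra.adjoin E S) r :=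
  h.restrictScalars (Algebra.adjoin E S)

/-- **Subvarieties of positive dimension.** -/
theorem posdim {V E R : Type} [Field V] [Field E] [Field R] [Algebra ℂ V] [Algebra ℂ E]
    [Algebra ℂ R] [Algebra V R] [Algebra E R] [IsScalarTower ℂ V R] [IsScalarTower ℂ E R]
    [Algebra.EssFiniteType ℂ V] [Algebra.EssFiniteType ℂ E] {n m N s : ℕ} {ι : Type} [Fintype ι]
    (hn : Algebra.trdeg ℂ V = n) {ω : (Fin n → Derivation ℂ V V) → V} (hω : IsPluri 1 ω)
    (hω0 : ∃ D, ω D ≠ 0) {x : Fin N → V} {j0 : Fin N} (hj0 : x j0 = 1)
    (hreg : ∀ (f : Fin m → Fin N) (P : Place ℂ V), Divisorial n P →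
      RegAt P (fun D => (∏ k, x (f k)) * ω D))
    (η : Fin s → R) (hη : ∀ i, ∃ j, algebraMap V R (x j) = η i)
    (hgen : IntermediateField.adjoin E (Set.range η) = ⊤) {κ : ℕ} (T : Fin (κ + 1) → Fin s)
    (hT : AlgebraicIndependent E (fun i => η (T i)))
    (halg : Algebra.IsAlgebraic (IntermediateField.adjoin E (Set.range fun i => η (T i))) R)
    (dd : ι → ℕ) (P : ι → MvPolynomial (Fin s) E) (hPd : ∀ i, (P i).totalDegree ≤ dd i + 1)
    (hcard : Fintype.card ι + (κ + 1) = s)
    (hmin : RingHom.ker (aeval η : MvPolynomial (Fin s) E →ₐ[E] R) ∈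
      (Ideal.span (Set.range P)).minimalPrimes) :
    m < ∑ i, dd i := by
  classical
  have hcR : CharZero R := charZero_of_injective_algebraMap (algebraMap ℂ R).injective
  -- the coordinates
  obtain ⟨T0, hT0⟩ : ∃ T0 : Set (Fin s), T0 = Set.range fun b : Fin κ => T b.succ := ⟨_, rfl⟩
  obtain ⟨M', hM'⟩ : ∃ M' : IntermediateField E R, M' = IntermediateField.adjoin E (η '' T0) :=
    ⟨_, rfl⟩
  obtain ⟨t0, ht0t⟩ : ∃ t0, t0 = T 0 := ⟨_, rfl⟩
  have himg : (fun i => η (T i)) '' {0}ᶜ = η '' T0 := by
    rw [hT0]
    ext r
    constructor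
    · rintro ⟨i, hi, rfl⟩
      obtain ⟨b, rfl⟩ := Fin.exists_succ_eq_of_ne_zero hi
      exact ⟨_, ⟨b, rfl⟩, rfl⟩
    · rintro ⟨_, ⟨b, rfl⟩, rfl⟩
      exact ⟨b.succ, Fin.succ_ne_zero b, rfl⟩
  have ht0 : Transcendental M' (η t0) := by
    have h1 := hT.transcendental_adjoin (s := {0}ᶜ) (i := 0) (fun h => h rfl)
    rw [himg] at h1
    rw [hM', ht0t]
    intro h2
    exact h1 (trans_alg h2)
  have halg1 : Algebra.IsAlgebraic (IntermediateField.adjoin E (η '' (insert t0 T0))) R := by
    have h1 : (Set.range fun i => η (T i)) = η '' (insert t0 T0) := by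
      rw [hT0, ht0t]
      ext r
      constructor
      · rintro ⟨i, rfl⟩
        refine Fin.cases ?_ (fun b => ?_) i
        · exact ⟨T 0, Set.mem_insert _ _, rfl⟩
        · exact ⟨T b.succ, Set.mem_insert_of_mem _ ⟨b, rfl⟩, rfl⟩
      · rintro ⟨_, rfl | ⟨b, rfl⟩, rfl⟩
        · exact ⟨0, rfl⟩
        · exact ⟨b.succ, rfl⟩
    rwa [h1] at halg
  -- the rational functions
  have hinj : Function.Injective (Polynomial.aeval (η t0) : Polynomial M' →ₐ[M'] R) :=
    transcendental_iff_injective.1 ht0
  let j : RatFunc M' →ₐ[M'] R := RatFunc.liftAlgHom (Polynomial.aeval (η t0))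
    (nonZeroDivisors_le_comap_nonZeroDivisors_of_injective _ hinj)
  have hjp : ∀ A : Polynomial M', j (algebraMap (Polynomial M') (RatFunc M') A) =
      Polynomial.aeval (η t0) A := by
    intro A
    have := RatFunc.liftAlgHom_apply_div (Polynomial.aeval (η t0))
      (nonZeroDivisors_le_comap_nonZeroDivisors_of_injective _ hinj) A 1
    simpa using this
  have hjX : j RatFunc.X = η t0 := by
    have := hjp Polynomial.X
    rwa [RatFunc.algebraMap_X, Polynomial.aeval_X] at this
  let _ : Algebra (RatFunc M') R := j.toRingHom.toAlgebra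
  have hja : ∀ f : RatFunc M', algebraMap (RatFunc M') R f = j f := fun f => rfl
  have : IsScalarTower M' (RatFunc M') R := IsScalarTower.of_algebraMap_eq fun c =>
    (j.commutes c).symm
  have : IsScalarTower ℂ M' R := IsScalarTower.of_algebraMap_eq fun c => rfl
  have : IsScalarTower ℂ (RatFunc M') R := IsScalarTower.of_algebraMap_eq fun c => by
    rw [IsScalarTower.algebraMap_apply ℂ M' (RatFunc M'),
      ← IsScalarTower.algebraMap_apply M' (RatFunc M') R, ← IsScalarTower.algebraMap_apply ℂ M' R]
  have : IsScalarTower E (RatFunc M') R := IsScalarTower.of_algebraMap_eq fun c => by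
    rw [IsScalarTower.algebraMap_apply E M' (RatFunc M'),
      ← IsScalarTower.algebraMap_apply M' (RatFunc M') R, ← IsScalarTower.algebraMap_apply E M' R]
  have halg2 : Algebra.IsAlgebraic (RatFunc M') R := by
    refine ⟨fun r => ?_⟩
    obtain ⟨C1, hC1⟩ : ∃ C1 : IntermediateField (RatFunc M') R,
      C1 = algebraicClosure (RatFunc M') R := ⟨_, rfl⟩
    have hle : IntermediateField.adjoin E (η '' (insert t0 T0)) ≤ C1.restrictScalars E := by
      rw [IntermediateField.adjoin_le_iff]
      rintro _ ⟨i, hi, rfl⟩
      rcases Set.mem_insert_iff.1 hi with rfl | hi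
      · rw [← hjX, ← hja]
        exact C1.algebraMap_mem _
      · have h1 : η i ∈ M' := by
          rw [hM']
          exact IntermediateField.subset_adjoin _ _ ⟨i, hi, rfl⟩
        have h2 : η i = algebraMap (RatFunc M') R (algebraMap M' (RatFunc M') ⟨η i, h1⟩) := by
          rw [← IsScalarTower.algebraMap_apply M' (RatFunc M') R]
          rfl
        rw [h2]
        exact C1.algebraMap_mem _
    let _ : Algebra (IntermediateField.adjoin E (η '' (insert t0 T0))) (C1.restrictScalars E) :=
      (IntermediateField.inclusion hle).toRingHom.toAlgebra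
    have : IsScalarTower (IntermediateField.adjoin E (η '' (insert t0 T0)))
        (C1.restrictScalars E) R := IsScalarTower.of_algebraMap_eq fun _ => rfl
    have h3 : IsAlgebraic (C1.restrictScalars E) r :=
      (halg1.isAlgebraic r).extendScalars (IntermediateField.inclusion hle).injective
    have h4 : IsAlgebraic C1 r := h3
    have h5 : Algebra.IsAlgebraic (RatFunc M') C1 := by
      rw [hC1]
      infer_instance
    exact h4.restrictScalars (RatFunc M')
  have hgenS : IntermediateField.adjoin (RatFunc M') (Set.range η) = ⊤ := by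
    rw [eq_top_iff]
    intro r _
    have h1 : r ∈ IntermediateField.adjoin E (Set.range η) := by
      rw [hgen]
      trivial
    have h2 : IntermediateField.adjoin E (Set.range η) ≤
        (IntermediateField.adjoin (RatFunc M') (Set.range η)).restrictScalars E := by
      rw [IntermediateField.adjoin_le_iff]
      exact IntermediateField.subset_adjoin _ _
    exact h2 h1
  have hfd : FiniteDimensional (RatFunc M') R := by
    have h1 : FiniteDimensional (RatFunc M')
        (IntermediateField.adjoin (RatFunc M') (Set.range η)) := by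
      have : Finite (Set.range η) := Set.finite_range η
      exact IntermediateField.finiteDimensional_adjoin fun x _ =>
        (halg2.isAlgebraic x).isIntegral
    rw [hgenS] at h1
    exact h1.equiv IntermediateField.topEquiv.toLinearEquiv
  have hessEM : Algebra.EssFiniteType E M' := by
    rw [IntermediateField.essFiniteType_iff, hM']
    exact IntermediateField.fg_adjoin_of_finite ((Set.toFinite T0).image η)
  have hessM : Algebra.EssFiniteType ℂ M' := Algebra.EssFiniteType.comp ℂ E M'
  -- the null traces
  obtain ⟨N', hN'⟩ : ∃ N' : ℕ, Algebra.trdeg ℂ M' = N' :=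
    Cardinal.lt_aleph0.1 (trdeg_lt_aleph0 ℂ M')
  obtain ⟨z, -, hz, -⟩ := Pool.Agent.Y172.exists_crd (k := ℂ) (K := M') hN'
  obtain ⟨c, hc, htr⟩ := vert (K := V) (M := M') (R := R) hn hz hω hω0
    (fun f : Fin m → Fin N => ∏ k, x (f k)) hreg (fun D hD1 hD2 => by
      let C0 : IntermediateField E R :=
        { carrier := {r | D r = 0}
          mul_mem' := fun {f g} hf hg => by
            change D (f * g) = 0
            rw [D.leibniz, show D f = 0 from hf, show D g = 0 from hg]
            simp
          add_mem' := fun {f g} hf hg => by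
            change D (f + g) = 0
            rw [map_add, show D f = 0 from hf, show D g = 0 from hg, add_zero]
          algebraMap_mem' := fun c => by
            change D (algebraMap E R c) = 0
            have h1 := hD1 (algebraMap E M' c)
            rw [← IsScalarTower.algebraMap_apply M' (RatFunc M') R,
              ← IsScalarTower.algebraMap_apply E M' R] at h1
            exact h1
          inv_mem' := fun f hf => by
            change D f⁻¹ = 0
            rw [Derivation.leibniz_inv, show D f = 0 from hf, smul_zero] }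
      have h2 : IntermediateField.adjoin E (Set.range η) ≤ C0 := by
        rw [IntermediateField.adjoin_le_iff]
        rintro _ ⟨i, rfl⟩
        obtain ⟨j, hj⟩ := hη i
        change D (η i) = 0
        rw [← hj]
        exact hD2 _
      ext r
      have h3 : r ∈ IntermediateField.adjoin E (Set.range η) := by
        rw [hgen]
        trivial
      exact h2 h3)
  have hcS : CharZero (RatFunc M') :=
    charZero_of_injective_algebraMap (algebraMap ℂ (RatFunc M')).injective
  have hTM : ∀ b : Fin κ, η (T b.succ) ∈ M' := fun b => by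
    rw [hM']
    exact IntermediateField.subset_adjoin _ _ ⟨T b.succ, by rw [hT0]; exact ⟨b, rfl⟩, rfl⟩
  obtain ⟨τ, hτ⟩ : ∃ τ : Fin (κ + 1) → RatFunc M', τ = Fin.cons RatFunc.X fun b : Fin κ =>
    algebraMap M' (RatFunc M') ⟨η (T b.succ), hTM b⟩ := ⟨_, rfl⟩
  have hτη : ∀ b, algebraMap (RatFunc M') R (τ b) = η (T b) := by
    intro b
    rw [hτ]
    refine Fin.cases ?_ (fun b => ?_) b
    · rw [Fin.cons_zero, hja, hjX, ht0t]
    · rw [Fin.cons_succ, ← IsScalarTower.algebraMap_apply M' (RatFunc M') R]
      rfl
  have hev : ∀ G : MvPolynomial (Fin s) E,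
      aeval η (map (algebraMap E (RatFunc M')) G) = aeval η G :=
    fun G => aeval_map_algebraMap (RatFunc M') η G
  obtain ⟨Q, hQ⟩ : ∃ Q : ι ⊕ Fin (κ + 1) → MvPolynomial (Fin s) (RatFunc M'),
    Q = Sum.elim (fun i => map (algebraMap E (RatFunc M')) (P i))
      (fun b => X (T b) - C (τ b)) := ⟨_, rfl⟩
  have hfin := iso' (S := RatFunc M') (R := R) (m := m) (ι := ι ⊕ Fin (κ + 1)) (p := s)
    (by rw [Fintype.card_sum, Fintype.card_fin]; exact hcard) (Sum.elim dd fun _ => 0) η hgenS Q
    (by
      rw [hQ]
      rintro (i | b)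
      · exact (Finset.sup_mono (support_map_subset _ _)).trans (hPd i)
      · rw [Sum.elim_inr, Sum.elim_inr]
        refine (totalDegree_sub _ _).trans (max_le ?_ ?_)
        · rw [totalDegree_X]
        · rw [totalDegree_C]
          omega) ?_ hc fun α hα => ?_
  · rw [Fintype.sum_sum_type] at hfin
    simpa using hfin
  · refine min_up (E := E) (S := RatFunc M') (R := R) η (Set.range P) _ ?_ ?_
      (fun F hF a => ?_) hmin
    · rintro _ ⟨i, rfl⟩
      exact ⟨Sum.inl i, by rw [hQ]; rfl⟩
    · rintro _ ⟨i | b, rfl⟩
      · rw [hQ, Sum.elim_inl, hev]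
        exact hmin.1.2 (Ideal.subset_span ⟨i, rfl⟩)
      · rw [hQ, Sum.elim_inr, map_sub, aeval_X, aeval_C, hτη, sub_self]
    have hτF : ∀ b, τ b ∈ F := fun b => hF _ (T b) ⟨Sum.inr b, by rw [hQ]; rfl⟩
    have hX : RatFunc.X ∈ F := by
      have h1 := hτF 0
      rwa [hτ, Fin.cons_zero] at h1
    have hM : ∀ l : M', algebraMap M' (RatFunc M') l ∈ F := by
      rintro ⟨l, hl⟩
      have key : ∀ l ∈ IntermediateField.adjoin E (η '' T0), ∀ hl : l ∈ M',
          algebraMap M' (RatFunc M') ⟨l, hl⟩ ∈ F := by
        intro l hl'
        induction hl' using IntermediateField.adjoin_induction with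
        | mem x hx =>
          intro hl
          obtain ⟨i, hi, rfl⟩ := hx
          rw [hT0] at hi
          obtain ⟨b, rfl⟩ := hi
          have h1 := hτF b.succ
          rwa [hτ, Fin.cons_succ] at h1
        | algebraMap a =>
          intro hl
          have h1 : algebraMap M' (RatFunc M') ⟨algebraMap E R a, hl⟩ =
              algebraMap E (RatFunc M') a := by
            rw [IsScalarTower.algebraMap_apply E M' (RatFunc M')]
            rfl
          rw [h1]
          exact F.algebraMap_mem a
        | add x y hx hy ihx ihy =>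
          intro hl
          rw [← hM'] at hx hy
          have h1 : (⟨x + y, hl⟩ : M') = ⟨x, hx⟩ + ⟨y, hy⟩ := rfl
          rw [h1, map_add]
          exact F.add_mem (ihx hx) (ihy hy)
        | inv x hx ihx =>
          intro hl
          rw [← hM'] at hx
          have h1 : (⟨x⁻¹, hl⟩ : M') = ⟨x, hx⟩⁻¹ := rfl
          rw [h1, map_inv₀]
          exact F.inv_mem (ihx hx)
        | mul x y hx hy ihx ihy =>
          intro hl
          rw [← hM'] at hx hy
          have h1 : (⟨x * y, hl⟩ : M') = ⟨x, hx⟩ * ⟨y, hy⟩ := rfl
          rw [h1, map_mul]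
          exact F.mul_mem (ihx hx) (ihy hy)
      exact key l (hM' ▸ hl) hl
    have hpoly : ∀ A : Polynomial M', algebraMap (Polynomial M') (RatFunc M') A ∈ F := by
      intro A
      induction A using Polynomial.induction_on' with
      | add p q hp hq =>
        rw [map_add]
        exact F.add_mem hp hq
      | monomial k l =>
        rw [← Polynomial.C_mul_X_pow_eq_monomial, map_mul, map_pow, RatFunc.algebraMap_X,
          ← Polynomial.algebraMap_eq, ← IsScalarTower.algebraMap_apply M' (Polynomial M')]
        exact F.mul_mem (hM l) (F.pow_mem hX k)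
    rw [← RatFunc.num_div_denom a]
    exact F.div_mem (hpoly _) (hpoly _)
  · obtain ⟨f, hf⟩ := exists_prod (A := R) (fun j => algebraMap V R (x j))
      (j0 := j0) (by rw [hj0, map_one]) η hη m α hα
    have h1 := htr f
    rw [map_prod, hf] at h1
    exact h1

end Pool.Agent.U598.MD
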