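import Pool.Agent.U598.MD.Main
import Pool.Agent.U598.IK.Null

/-!
Reduction of the multiplicative bound to sorted degrees and to correspondences in the product.
-/

set_option autoImplicit false
set_option linter.overlappingInstances false
set_option linter.unusedSectionVars false

open FF MvPolynomial Pool.Agent.W602.GT Pool.Agent.Y184.NT

namespace Pool.Agent.U598.MD

theorem const_le2 {n c : ℕ} (hc : 1 ≤ c) (r : ℕ) :
    (2 * (n + c)) ^ c * ((4 * (n + c)) ^ ((n + c) * (n + c + 1) / 2) * (2 * r)) ≤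
      r * (4 * (n + c)) ^ ((n + c) * (n + c + 3) / 2) := by
  have h0 : (2 * (n + c)) ^ c * 2 ≤ (4 * (n + c)) ^ c := by
    have h1 : (4 * (n + c)) ^ c = (2 * (n + c)) ^ c * 2 ^ c := by
      rw [← mul_pow]
      congr 1
      ring
    rw [h1]
    refine Nat.mul_le_mul_left _ ?_
    calc 2 = 2 ^ 1 := by norm_num
      _ ≤ 2 ^ c := Nat.pow_le_pow_right (by norm_num) hc
  calc (2 * (n + c)) ^ c * ((4 * (n + c)) ^ ((n + c) * (n + c + 1) / 2) * (2 * r))
      = (2 * (n + c)) ^ c * 2 * ((4 * (n + c)) ^ ((n + c) * (n + c + 1) / 2) * r) := by ring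
    _ ≤ (4 * (n + c)) ^ c * ((4 * (n + c)) ^ ((n + c) * (n + c + 1) / 2) * r) :=
        Nat.mul_le_mul_right _ h0
    _ = r * (4 * (n + c)) ^ (c + (n + c) * (n + c + 1) / 2) := by
        rw [pow_add]
        ring
    _ ≤ _ := by
        refine Nat.mul_le_mul_left _ (Nat.pow_le_pow_right (by omega) ?_)
        have h1 : (n + c) * (n + c + 3) = (n + c) * (n + c + 1) + 2 * (n + c) := by ring
        rw [h1, Nat.add_mul_div_left _ _ (by norm_num)]
        omega

/-- the multiplicative bound for degrees in any order -/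
theorem main' {V E K : Type} [Field V] [Field E] [Field K] [Algebra ℂ V] [Algebra ℂ E]
    [Algebra ℂ K] [Algebra V K] [Algebra E K] [IsScalarTower ℂ V K] [IsScalarTower ℂ E K]
    [Algebra.EssFiniteType ℂ V] [Algebra.EssFiniteType ℂ E] [FiniteDimensional E K]
    {n n' m c : ℕ} (hp : 1 ≤ n' + c) (hn : Algebra.trdeg ℂ V = n)
    {ω : (Fin n → Derivation ℂ V V) → V}
    (hω : IsPluri 1 ω) (hω0 : ∃ D, ω D ≠ 0) {x : Fin (n' + c + 1) → V} {j0 : Fin (n' + c + 1)}
    (hj0 : x j0 = 1)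
    (hreg : ∀ (f : Fin m → Fin (n' + c + 1)) (P : Place ℂ V), Divisorial n P →
      RegAt P (fun D => (∏ k, x (f k)) * ω D))
    (hx : IntermediateField.adjoin ℂ (Set.range x) = ⊤)
    (hgenK : IntermediateField.adjoin E (Set.range fun j => algebraMap V K (x j)) = ⊤)
    {δ : Fin c → ℕ} (hsum : ∑ j, δ j ≤ m + n' + c + 1)
    {f : Fin c → MvPolynomial (Fin (n' + c + 1)) ℂ} (hf : ∀ i : Fin c, (f i).totalDegree ≤ δ i)
    (hcomp : RingHom.ker (aeval x : MvPolynomial (Fin (n' + c + 1)) ℂ →ₐ[ℂ] V) ∈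
      (Ideal.span (insert (X j0 - 1) (Set.range f))).minimalPrimes)
    {h : K} (hh : h ≠ 0)
    (htr : ∀ f : Fin m → Fin (n' + c + 1),
      Algebra.trace E K ((∏ k, algebraMap V K (x (f k))) * h) = 0) :
    ∏ j, δ j ≤ (2 * (n' + c)) ^ c *
      ((4 * (n' + c)) ^ ((n' + c) * (n' + c + 1) / 2) * Module.finrank E K) := by
  classical
  obtain ⟨σ, hσ⟩ : ∃ σ : Equiv.Perm (Fin c), Monotone (δ ∘ σ) :=
    ⟨Tuple.sort δ, Tuple.monotone_sort δ⟩
  obtain ⟨δ', hδ'⟩ : ∃ δ' : ℕ → ℕ, δ' = fun j => if h : j < c then δ (σ ⟨j, h⟩) else 0 := ⟨_, rfl⟩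
  have hδi : ∀ i : Fin c, δ' i = δ (σ i) := fun i => by
    rw [hδ']
    dsimp only
    rw [dif_pos i.2]
  have hsum' : ∑ j ∈ Finset.range c, δ' j = ∑ j, δ j := by
    rw [← Fin.sum_univ_eq_sum_range, Finset.sum_congr rfl fun i _ => hδi i]
    exact Equiv.sum_comp σ δ
  have hprod' : ∏ j ∈ Finset.range c, δ' j = ∏ j, δ j := by
    rw [← Fin.prod_univ_eq_prod_range, Finset.prod_congr rfl fun i _ => hδi i]
    exact Equiv.prod_comp σ δ
  have hrange : Set.range (fun i => f (σ i)) = Set.range f := by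
    have h3 : (fun i => f (σ i)) = f ∘ σ := rfl
    rw [h3, σ.surjective.range_comp]
  rw [← hprod']
  refine main (V := V) (E := E) (K := K) (m := m) hp hn hω hω0 hj0 hreg hx hgenK (δ := δ')
    (fun i j hij hj => ?_) ?_ (f := fun i => f (σ i)) (fun i => ?_) ?_ hh htr
  · have h1 := hδi ⟨i, lt_of_le_of_lt hij hj⟩
    have h2 := hδi ⟨j, hj⟩
    dsimp only at h1 h2
    rw [h1, h2]
    exact hσ (show (⟨i, lt_of_le_of_lt hij hj⟩ : Fin c) ≤ ⟨j, hj⟩ from hij)
  · rw [hsum']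
    omega
  · rw [hδi]
    exact hf _
  · rw [hrange]
    exact hcomp

end Pool.Agent.U598.MD
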