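import Pool.Agent.U598.MD.Core

/-!
The spaces of the functions of degree at most `τ` on an affine variety, over the field of rational
functions of a coordinate.
-/

set_option autoImplicit false
set_option linter.unusedSectionVars false
set_option linter.overlappingInstances false

open MvPolynomial

namespace Pool.Agent.U598.MD

section

variable {F : Type*} [Field F] {s : ℕ}

/-- the monomials of degree at most `τ` -/
def mon (y : Fin s → F) (τ : ℕ) : Set F := {w | ∃ α : Fin s →₀ ℕ, α.degree ≤ τ ∧ ∏ i, y i ^ α i = w}

theorem mon_finite (y : Fin s → F) (τ : ℕ) : (mon y τ).Finite := by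
  classical
  have h1 : {α : Fin s →₀ ℕ | α.degree ≤ τ}.Finite := by
    refine (Set.finite_Iic (Finsupp.equivFunOnFinite.symm (fun _ : Fin s => τ))).subset ?_
    intro α hα i
    change α i ≤ τ
    exact (Finsupp.le_degree i α).trans hα
  refine (h1.image fun α => ∏ i, y i ^ α i).subset ?_
  rintro _ ⟨α, hα, rfl⟩
  exact ⟨α, hα, rfl⟩

theorem mon_mono (y : Fin s → F) {τ t : ℕ} (h : τ ≤ t) : mon y τ ⊆ mon y t := by
  rintro _ ⟨α, hα, rfl⟩
  exact ⟨α, hα.trans h, rfl⟩

variable {E : Type*} [Field E] [Algebra E F]

theorem mon_deg {k : ℕ} {z : Fin k → F} {y : Fin s → F}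
    (hint : ∀ i, IntOver E (HS z) (Polynomial.X * Polynomial.C (y i))) {τ : ℕ} {w : F}
    (hw : w ∈ Submodule.span E (mon y τ)) :
    Polynomial.X ^ τ * Polynomial.C w ∈ intAlg E (HS z) := by
  induction hw using Submodule.span_induction with
  | mem w hw =>
    obtain ⟨α, hα, rfl⟩ := hw
    have h1 : (Polynomial.X ^ τ * Polynomial.C (∏ i, y i ^ α i) : Polynomial F) =
        Polynomial.X ^ (τ - α.degree) * ∏ i, (Polynomial.X * Polynomial.C (y i)) ^ α i := by
      simp only [mul_pow]
      rw [Finset.prod_mul_distrib, Finset.prod_pow_eq_pow_sum, ← Finsupp.degree_eq_sum,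
        ← mul_assoc, ← pow_add, Nat.sub_add_cancel hα, map_prod]
      simp only [map_pow]
    rw [h1]
    refine (intAlg E (HS z)).mul_mem ((intAlg E (HS z)).pow_mem
      (IntOver.mem (Set.mem_insert _ _)) _) ((intAlg E (HS z)).prod_mem fun i _ =>
        (intAlg E (HS z)).pow_mem (hint i) _)
  | zero =>
    rw [map_zero, mul_zero]
    exact (intAlg E (HS z)).zero_mem
  | add w w' _ _ h h' =>
    rw [map_add, mul_add]
    exact (intAlg E (HS z)).add_mem h h'
  | smul c w _ h =>
    have h1 : (Polynomial.X ^ τ * Polynomial.C (c • w) : Polynomial F) =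
        c • (Polynomial.X ^ τ * Polynomial.C w) := by
      rw [Algebra.smul_def, Algebra.smul_def, map_mul,
        IsScalarTower.algebraMap_apply E F (Polynomial F), Polynomial.algebraMap_eq]
      ring
    rw [h1]
    exact (intAlg E (HS z)).smul_mem h c

/-- **One coordinate.** -/
theorem step {k : ℕ} {z : Fin (k + 1) → F} (hz : AlgebraicIndependent E z) {y : Fin s → F}
    (hgen : IntermediateField.adjoin E (Set.range y) = ⊤)
    (hint : ∀ i, IntOver E (HS z) (Polynomial.X * Polynomial.C (y i))) (τ : ℕ)
    (B1 : Type*) [Field B1] [Algebra B1 F]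
    (hB1 : ∀ P : Polynomial E, ∃ b : B1, algebraMap B1 F b = Polynomial.aeval (z 0) P)
    (hB2 : ∀ b : B1, ∃ P Q : Polynomial E, Polynomial.aeval (z 0) Q ≠ 0 ∧
      algebraMap B1 F b * Polynomial.aeval (z 0) Q = Polynomial.aeval (z 0) P) :
    Module.finrank E (Submodule.span E (mon y τ)) ≤
      (τ + 1) * Module.finrank B1 (Submodule.span B1 (mon y τ)) := by
  classical
  -- the algebra structures
  let A := MvPolynomial (Fin (k + 1)) E
  let K := FractionRing A
  let _ : Algebra A F := (aeval z : A →ₐ[E] F).toRingHom.toAlgebra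
  have hAF : ∀ P : A, algebraMap A F P = aeval z P := fun _ => rfl
  have hinj : Function.Injective (algebraMap A F) := hz
  let _ : Algebra K F := (IsFractionRing.lift hinj : K →+* F).toAlgebra
  have : IsScalarTower A K F := IsScalarTower.of_algebraMap_eq fun x =>
    (IsFractionRing.lift_algebraMap hinj x).symm
  have hEK : ∀ c : E, algebraMap E K c = algebraMap A K (C c) := fun c => by
    rw [IsScalarTower.algebraMap_apply E A K, MvPolynomial.algebraMap_eq]
  have : IsScalarTower E K F := IsScalarTower.of_algebraMap_eq fun c => by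
    rw [hEK, ← IsScalarTower.algebraMap_apply A K F, hAF, aeval_C]
  have hintA : ∀ f : F, IntOver E (Set.range z) f → IsIntegral A f := fun f hf => hf.poly hz
  have hfd : FiniteDimensional K F := by
    have h1 : FiniteDimensional K (IntermediateField.adjoin K (Set.range y)) := by
      have : Finite (Set.range y) := Set.finite_range y
      refine IntermediateField.finiteDimensional_adjoin fun x hx => ?_
      obtain ⟨i, rfl⟩ := hx
      exact (hintA _ (hint i).infty).tower_top
    have h2 : IntermediateField.adjoin K (Set.range y) = ⊤ := by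
      rw [eq_top_iff]
      intro x _
      have h3 : x ∈ IntermediateField.adjoin E (Set.range y) := by
        rw [hgen]
        trivial
      have h4 : IntermediateField.adjoin E (Set.range y) ≤
          (IntermediateField.adjoin K (Set.range y)).restrictScalars E := by
        rw [IntermediateField.adjoin_le_iff]
        exact IntermediateField.subset_adjoin K _
      exact h4 h3
    rw [h2] at h1
    exact h1.equiv IntermediateField.topEquiv.toLinearEquiv
  -- the module over the polynomials in `z 0`
  let _ : Algebra (Polynomial E) F := (Polynomial.aeval (z 0) : Polynomial E →ₐ[E] F).toRingHom.toAlgebra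
  have hPF : ∀ P : Polynomial E, algebraMap (Polynomial E) F P = Polynomial.aeval (z 0) P :=
    fun _ => rfl
  have : IsScalarTower E (Polynomial E) F := IsScalarTower.of_algebraMap_eq fun c => by
    rw [hPF, Polynomial.algebraMap_eq, Polynomial.aeval_C]
  have hz0 : Function.Injective (algebraMap (Polynomial E) F) :=
    transcendental_iff_injective.1 (hz.transcendental 0)
  have hff : FaithfulSMul (Polynomial E) F := (faithfulSMul_iff_algebraMap_injective _ _).2 hz0
  obtain ⟨M, hM⟩ : ∃ M : Submodule (Polynomial E) F, M = Submodule.span (Polynomial E) (mon y τ) :=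
    ⟨_, rfl⟩
  have hMfin : Module.Finite (Polynomial E) M := by
    rw [Module.Finite.iff_fg, hM]
    exact Submodule.fg_span (mon_finite y τ)
  have hMfree : Module.Free (Polynomial E) M := inferInstance
  let b := Module.finBasis (Polynomial E) M
  have hWM : ∀ w ∈ Submodule.span E (mon y τ), w ∈ M := by
    intro w hw
    have h1 : Submodule.span E (mon y τ) ≤ M.restrictScalars E := by
      rw [Submodule.span_le, hM]
      exact Submodule.subset_span
    exact h1 hw
  have hMB : ∀ m ∈ M, m ∈ Submodule.span B1 (mon y τ) := by
    intro m hm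
    rw [hM] at hm
    induction hm using Submodule.span_induction with
    | mem m hm => exact Submodule.subset_span hm
    | zero => exact Submodule.zero_mem _
    | add m m' _ _ h h' => exact Submodule.add_mem _ h h'
    | smul P m _ h =>
      obtain ⟨β, hβ⟩ := hB1 P
      rw [Algebra.smul_def, hPF, ← hβ, ← Algebra.smul_def]
      exact Submodule.smul_mem _ _ h
  have hli : LinearIndependent B1 (fun i => (b i : F)) := by
    rw [Fintype.linearIndependent_iff]
    intro β hβ
    choose P Q hQ hPQ using fun i => hB2 (β i)
    have h1 : ∑ i, (P i * ∏ j ∈ Finset.univ.erase i, Q j) • (b i : F) = 0 := by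
      have h2 : ∀ i, (P i * ∏ j ∈ Finset.univ.erase i, Q j) • (b i : F) =
          Polynomial.aeval (z 0) (∏ j, Q j) * (β i • (b i : F)) := by
        intro i
        rw [← Finset.mul_prod_erase Finset.univ Q (Finset.mem_univ i), Algebra.smul_def,
          Algebra.smul_def, hPF, map_mul, map_mul, ← hPQ i]
        ring
      rw [Finset.sum_congr rfl fun i _ => h2 i, ← Finset.mul_sum, hβ, mul_zero]
    have h3 : ∑ i, (P i * ∏ j ∈ Finset.univ.erase i, Q j) • b i = 0 := by
      apply Subtype.ext
      rw [ZeroMemClass.coe_zero, ← h1]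
      simp
    have h4 := (Fintype.linearIndependent_iff.1 b.linearIndependent) _ h3
    intro i
    have h5 := h4 i
    have h6 : ∏ j ∈ Finset.univ.erase i, Q j ≠ 0 := by
      rw [Finset.prod_ne_zero_iff]
      intro j _ h0
      exact hQ j (by rw [h0, map_zero])
    have h7 : P i = 0 := (mul_eq_zero.1 h5).resolve_right h6
    have h8 := hPQ i
    rw [h7, map_zero] at h8
    exact (map_eq_zero _).1 ((mul_eq_zero.1 h8).resolve_right (hQ i))
  have hfinB : FiniteDimensional B1 (Submodule.span B1 (mon y τ)) :=
    FiniteDimensional.span_of_finite _ (mon_finite y τ)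
  have hrank : Module.finrank (Polynomial E) M ≤
      Module.finrank B1 (Submodule.span B1 (mon y τ)) := by
    have h1 : LinearIndependent B1 (fun i => (⟨(b i : F), hMB _ (b i).2⟩ :
        Submodule.span B1 (mon y τ))) := by
      refine LinearIndependent.of_comp (Submodule.span B1 (mon y τ)).subtype ?_
      exact hli
    have h2 := h1.fintype_card_le_finrank
    rwa [Fintype.card_fin] at h2
  refine le_trans ?_ (Nat.mul_le_mul_left (τ + 1) hrank)
  by_contra hcon
  push Not at hcon
  -- an element which is divisible by a power of `z 0`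
  let L : Submodule.span E (mon y τ) →ₗ[E]
      (Fin (Module.finrank (Polynomial E) M) → Fin (τ + 1) → E) :=
    { toFun := fun w i j => (b.repr ⟨w, hWM _ w.2⟩ i).coeff j
      map_add' := fun w w' => by
        funext i j
        have h1 : (⟨((w + w' : Submodule.span E (mon y τ)) : F), hWM _ (w + w').2⟩ : M) =
            ⟨w, hWM _ w.2⟩ + ⟨w', hWM _ w'.2⟩ := rfl
        rw [h1, map_add]
        simp
      map_smul' := fun c w => by
        funext i j
        have h1 : (⟨((c • w : Submodule.span E (mon y τ)) : F), hWM _ (c • w).2⟩ : M) =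
            (Polynomial.C c) • ⟨w, hWM _ w.2⟩ := by
          apply Subtype.ext
          change c • (w : F) = (Polynomial.C c) • (w : F)
          rw [Algebra.smul_def, Algebra.smul_def, hPF, Polynomial.aeval_C]
        rw [h1, map_smul]
        simp }
  have hfinE : FiniteDimensional E (Submodule.span E (mon y τ)) :=
    FiniteDimensional.span_of_finite _ (mon_finite y τ)
  have hker := L.ker_ne_bot_of_finrank_lt (by
    rw [Module.finrank_pi_fintype]
    simp only [Module.finrank_fintype_fun_eq_card, Fintype.card_fin, Finset.sum_const,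
      Finset.card_univ, smul_eq_mul]
    rw [mul_comm]
    exact hcon)
  obtain ⟨w, hwker, hw0⟩ := Submodule.exists_mem_ne_zero_of_ne_bot hker
  have hcoef : ∀ i, ∃ q : Polynomial E, b.repr ⟨w, hWM _ w.2⟩ i = Polynomial.X ^ (τ + 1) * q := by
    intro i
    have h1 : Polynomial.X ^ (τ + 1) ∣ b.repr ⟨w, hWM _ w.2⟩ i := by
      rw [Polynomial.X_pow_dvd_iff]
      intro d hd
      have h2 := congrFun (congrFun (LinearMap.mem_ker.1 hwker) i) ⟨d, hd⟩
      exact h2
    exact h1
  choose q hq using hcoef
  obtain ⟨g, hg⟩ : ∃ g : M, g = ∑ i, q i • b i := ⟨_, rfl⟩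
  have hwg : (w : F) = z 0 ^ (τ + 1) * (g : F) := by
    have h1 := b.sum_repr ⟨w, hWM _ w.2⟩
    have h2 : (⟨(w : F), hWM _ w.2⟩ : M) = (Polynomial.X ^ (τ + 1) : Polynomial E) • g := by
      rw [← h1, hg, Finset.smul_sum]
      refine Finset.sum_congr rfl fun i _ => ?_
      rw [hq, mul_smul]
    have h3 := congrArg (fun m : M => (m : F)) h2
    change (w : F) = (Polynomial.X ^ (τ + 1) : Polynomial E) • (g : F) at h3
    rw [h3, Algebra.smul_def, hPF, map_pow, Polynomial.aeval_X]
  have hz00 : z 0 ≠ 0 := by
    intro h0
    have h1 := hz.transcendental 0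
    rw [h0] at h1
    exact h1 isAlgebraic_zero
  have hgint : (g : F) ∈ intAlg E (Set.range z) := by
    have h1 : ∀ m ∈ M, m ∈ intAlg E (Set.range z) := by
      intro m hm
      rw [hM] at hm
      induction hm using Submodule.span_induction with
      | mem m hm =>
        obtain ⟨α, -, rfl⟩ := hm
        exact (intAlg E (Set.range z)).prod_mem fun i _ =>
          (intAlg E (Set.range z)).pow_mem (hint i).infty _
      | zero => exact (intAlg E (Set.range z)).zero_mem
      | add m m' _ _ h h' => exact (intAlg E (Set.range z)).add_mem h h'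
      | smul P m _ h =>
        rw [Algebra.smul_def, hPF]
        refine (intAlg E (Set.range z)).mul_mem ?_ h
        have h2 : z 0 ∈ intAlg E (Set.range z) := IntOver.mem ⟨0, rfl⟩
        have h3 := Subalgebra.aeval_coe (intAlg E (Set.range z)) (⟨z 0, h2⟩ : intAlg E (Set.range z)) P
        have h4 : Polynomial.aeval (z 0) P =
            ((Polynomial.aeval (⟨z 0, h2⟩ : intAlg E (Set.range z)) P : intAlg E (Set.range z)) : F) := h3
        rw [h4]
        exact Subtype.mem _
    exact h1 g g.2
  have hg0 : (g : F) = 0 := by
    refine core (E := E) (F := F) (hintA _ hgint) ?_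
    -- the specialization at infinity
    let f : Polynomial F →ₐ[E] F :=
      (Polynomial.aeval (z 0)⁻¹ : Polynomial F →ₐ[F] F).restrictScalars E
    have hfX : f Polynomial.X = (z 0)⁻¹ := by
      change Polynomial.aeval (z 0)⁻¹ Polynomial.X = _
      rw [Polynomial.aeval_X]
    have hfC : ∀ c : F, f (Polynomial.C c) = c := by
      intro c
      change Polynomial.aeval (z 0)⁻¹ (Polynomial.C c) = c
      rw [Polynomial.aeval_C]
      rfl
    have h1 : IntOver E (HS z) (Polynomial.X ^ τ * Polynomial.C (w : F)) := mon_deg hint w.2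
    have h2 : f (Polynomial.X ^ τ * Polynomial.C (w : F)) = algebraMap A F (X 0) * g := by
      rw [map_mul, map_pow, hfX, hfC, hwg, hAF, aeval_X, pow_succ, inv_pow, ← mul_assoc,
        ← mul_assoc, inv_mul_cancel₀ (pow_ne_zero _ hz00), one_mul]
    rw [← h2]
    obtain ⟨p, hp, hp0⟩ := h1
    -- the coefficients
    have hO : ∀ a ∈ Algebra.adjoin E (HS z), ∃ o : degRing E (k + 1),
        algebraMap K F (o : K) = f a := by
      intro a ha
      let S : Subalgebra E (Polynomial F) :=
        { carrier := {a | ∃ o : degRing E (k + 1), algebraMap K F (o : K) = f a}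
          mul_mem' := by
            rintro a a' ⟨o, ho⟩ ⟨o', ho'⟩
            refine ⟨o * o', ?_⟩
            rw [map_mul, ← ho, ← ho']
            exact map_mul _ _ _
          add_mem' := by
            rintro a a' ⟨o, ho⟩ ⟨o', ho'⟩
            refine ⟨o + o', ?_⟩
            rw [map_add, ← ho, ← ho']
            exact map_add _ _ _
          algebraMap_mem' := fun c => by
            refine ⟨⟨algebraMap A K (C c), C c, 1, one_ne_zero, by simp, by rw [map_one, mul_one]⟩, ?_⟩
            rw [AlgHom.commutes]
            change algebraMap K F (algebraMap A K (C c)) = _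
            rw [← IsScalarTower.algebraMap_apply A K F, hAF, aeval_C] }
      have h3 : Algebra.adjoin E (HS z) ≤ S := by
        refine Algebra.adjoin_le ?_
        have hX0 : algebraMap A K (X 0) ≠ 0 := fun h =>
          X_ne_zero (R := E) (0 : Fin (k + 1)) (IsFractionRing.injective A K (by rw [h, map_zero]))
        have hinv : algebraMap K F (algebraMap A K (X 0))⁻¹ = (z 0)⁻¹ := by
          rw [map_inv₀, ← IsScalarTower.algebraMap_apply A K F, hAF, aeval_X]
        rintro x (rfl | ⟨j, rfl⟩)
        · refine ⟨⟨(algebraMap A K (X 0))⁻¹, 1, X 0, X_ne_zero 0, by simp, ?_⟩, ?_⟩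
          · rw [inv_mul_cancel₀ hX0, map_one]
          · rw [hfX]
            exact hinv
        · refine ⟨⟨(algebraMap A K (X 0))⁻¹ * algebraMap A K (X j), X j, X 0, X_ne_zero 0, ?_, ?_⟩, ?_⟩
          · rw [totalDegree_X, totalDegree_X]
          · rw [mul_right_comm, inv_mul_cancel₀ hX0, one_mul]
          · change algebraMap K F ((algebraMap A K (X 0))⁻¹ * algebraMap A K (X j)) = _
            rw [map_mul, hinv, ← IsScalarTower.algebraMap_apply A K F, hAF, aeval_X, map_mul, hfX,
              hfC]
      exact h3 ha
    choose o ho using fun a : Algebra.adjoin E (HS z) => hO a a.2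
    refine ⟨∑ i ∈ Finset.range (p.natDegree + 1), Polynomial.monomial i
      (if i = p.natDegree then 1 else o (p.coeff i)), ?_, ?_⟩
    · rw [Finset.sum_range_succ, if_pos rfl]
      refine Polynomial.monic_of_natDegree_le_of_coeff_eq_one p.natDegree ?_ ?_
      · refine (Polynomial.natDegree_add_le _ _).trans (max_le ?_ (Polynomial.natDegree_monomial_le _))
        refine Polynomial.natDegree_sum_le_of_forall_le _ _ fun i hi => ?_
        exact (Polynomial.natDegree_monomial_le _).trans (Finset.mem_range.1 hi).le
      · rw [Polynomial.coeff_add, Polynomial.coeff_monomial_same, Polynomial.finsetSum_coeff,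
          Finset.sum_eq_zero, zero_add]
        intro i hi
        rw [Polynomial.coeff_monomial, if_neg (Finset.mem_range.1 hi).ne]
    · rw [Polynomial.eval₂_finsetSum]
      have h4 := congrArg f hp0
      rw [map_zero, Polynomial.eval₂_eq_sum_range, map_sum] at h4
      rw [← h4]
      refine Finset.sum_congr rfl fun i hi => ?_
      have h6 : f (algebraMap (Algebra.adjoin E (HS z)) (Polynomial F) (p.coeff i) *
          (Polynomial.X ^ τ * Polynomial.C (w : F)) ^ i) =
          f ((p.coeff i : Algebra.adjoin E (HS z)) : Polynomial F) *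
            f (Polynomial.X ^ τ * Polynomial.C (w : F)) ^ i := by
        rw [map_mul f, map_pow f]
        rfl
      rw [Polynomial.eval₂_monomial, h6]
      congr 1
      split_ifs with h
      · rw [map_one, h]
        have h5 : p.coeff p.natDegree = 1 := hp
        rw [h5]
        exact (map_one f).symm
      · exact ho _
  apply hw0
  apply Subtype.ext
  rw [hwg, hg0, mul_zero]
  rfl

end

end Pool.Agent.U598.MD
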