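import Pool.Agent.U598.MD.Dim

/-!
Systems of equations of small degree for a point.
-/

set_option autoImplicit false
set_option linter.unusedSectionVars false

open MvPolynomial
open Pool.Agent.U598.IK (Ind ind_zero)

namespace Pool.Agent.U598.MD

section

variable {E : Type} [Field E] [Infinite E]

/-- avoidance of finitely many ideals -/
theorem avoid {A : Type*} [CommRing A] [Algebra E A] (W : Submodule E A) {T : Set (Ideal A)}
    (hT : T.Finite) (h : ∀ 𝔭 ∈ T, ∃ w ∈ W, w ∉ 𝔭) : ∃ g ∈ W, ∀ 𝔭 ∈ T, g ∉ 𝔭 := by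
  have hTf : Finite T := hT
  by_contra hcon
  push Not at hcon
  have hcov : ⋃ 𝔭 : T, (((𝔭 : Ideal A).restrictScalars E).comap W.subtype : Set W) = Set.univ := by
    rw [Set.eq_univ_iff_forall]
    rintro ⟨w, hw⟩
    obtain ⟨𝔭, h1, h2⟩ := hcon w hw
    exact Set.mem_iUnion.2 ⟨⟨𝔭, h1⟩, h2⟩
  obtain ⟨⟨𝔭, h𝔭⟩, h1⟩ := Subspace.exists_eq_top_of_iUnion_eq_univ hcov
  obtain ⟨w, hw, hw2⟩ := h 𝔭 h𝔭
  refine hw2 ?_
  have h3 : (⟨w, hw⟩ : W) ∈ (𝔭.restrictScalars E).comap W.subtype := by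
    rw [h1]
    trivial
  exact h3

variable {s : ℕ}

theorem sys1 (W : ℕ → Submodule E (MvPolynomial (Fin s) E))
    {𝔪 : Ideal (MvPolynomial (Fin s) E)} {k : ℕ}
    (hW : ∀ l < s - k, ∀ 𝔭 : Ideal (MvPolynomial (Fin s) E), 𝔭.IsPrime → (∀ w ∈ W l, w ∈ 𝔭) →
      𝔭 ≤ 𝔪 → ¬ Ind 𝔭 (s - l)) (hk : k ≤ s) :
    ∃ G : Fin (s - k) → MvPolynomial (Fin s) E, (∀ l : Fin (s - k), G l ∈ W l) ∧
      ∀ 𝔭 : Ideal (MvPolynomial (Fin s) E), 𝔭.IsPrime → Ideal.span (Set.range G) ≤ 𝔭 →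
        𝔭 ≤ 𝔪 → ¬ Ind 𝔭 (k + 1) := by
  classical
  have key : ∀ i : ℕ, i ≤ s - k → ∃ G : Fin i → MvPolynomial (Fin s) E,
      (∀ l : Fin i, G l ∈ W l) ∧
      ∀ 𝔭 : Ideal (MvPolynomial (Fin s) E), 𝔭.IsPrime → Ideal.span (Set.range G) ≤ 𝔭 →
        𝔭 ≤ 𝔪 → ¬ Ind 𝔭 (s - i + 1) := by
    intro i
    induction i with
    | zero =>
      intro _
      refine ⟨Fin.elim0, fun j => j.elim0, fun 𝔭 h _ _ hI => ?_⟩
      have := hI.le h
      omega
    | succ i ih =>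
      intro hi
      obtain ⟨G, hG, hh⟩ := ih (by omega)
      have hfin : (Ideal.span (Set.range G)).minimalPrimes.Finite :=
        Ideal.finite_minimalPrimes_of_isNoetherianRing _ _
      obtain ⟨g, hgW, hg⟩ := avoid (W i) (T := {𝔭 ∈ (Ideal.span (Set.range G)).minimalPrimes |
        𝔭 ≤ 𝔪 ∧ Ind 𝔭 (s - i)}) (hfin.subset (Set.sep_subset _ _)) (by
          rintro 𝔭 ⟨h1, h2, h3⟩
          by_contra hcon
          push Not at hcon
          exact hW i (by omega) 𝔭 h1.isPrime hcon h2 h3)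
      refine ⟨Fin.snoc G g, fun j => ?_, fun 𝔭 h1 h2 h3 hI => ?_⟩
      · refine Fin.lastCases ?_ (fun j => ?_) j
        · rw [Fin.snoc_last, Fin.val_last]
          exact hgW
        · rw [Fin.snoc_castSucc, Fin.val_castSucc]
          exact hG j
      · have h5 : Ideal.span (Set.range G) ≤ 𝔭 := by
          refine le_trans (Ideal.span_mono ?_) h2
          rintro _ ⟨j, rfl⟩
          exact ⟨j.castSucc, by rw [Fin.snoc_castSucc]⟩
        have hgp : g ∈ 𝔭 := h2 (Ideal.subset_span ⟨Fin.last i, by rw [Fin.snoc_last]⟩)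
        obtain ⟨𝔮, hq, hq2⟩ := Ideal.exists_minimalPrimes_le h5
        have hqp : 𝔮.IsPrime := hq.isPrime
        have hidx : s - (i + 1) + 1 = s - i := by omega
        rw [hidx] at hI
        have hlt : 𝔮 < 𝔭 := by
          refine lt_of_le_of_ne hq2 fun h => hg 𝔮 ?_ (by rw [h]; exact hgp)
          exact ⟨hq, hq2.trans h3, hI.mono hq2⟩
        exact hh 𝔮 hqp hq.1.2 (hq2.trans h3) (hI.lt hqp hlt)
  obtain ⟨G, hG, hh⟩ := key (s - k) le_rfl
  refine ⟨G, hG, fun 𝔭 h1 h2 h3 => ?_⟩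
  have h4 := hh 𝔭 h1 h2 h3
  rwa [show s - (s - k) + 1 = k + 1 by omega] at h4

theorem sys2 {c k κ : ℕ} (𝔞 : Ideal (MvPolynomial (Fin s) E)) (f : Fin c → MvPolynomial (Fin s) E)
    {𝔮 : Ideal (MvPolynomial (Fin s) E)} (hq : 𝔮 ∈ (𝔞 ⊔ Ideal.span (Set.range f)).minimalPrimes)
    (hk : ∀ 𝔭 : Ideal (MvPolynomial (Fin s) E), 𝔭.IsPrime → 𝔞 ≤ 𝔭 → 𝔭 ≤ 𝔮 → ¬ Ind 𝔭 (k + 1))
    (hκ : Ind 𝔮 κ) (hκ' : ¬ Ind 𝔮 (κ + 1)) (hκk : κ ≤ k) (hkc : k ≤ κ + c) :
    ∃ H : Fin (k - κ) → MvPolynomial (Fin s) E,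
      (∀ l : Fin (k - κ), H l ∈ Submodule.span E (f '' {j | (j : ℕ) ≤ c - (k - κ) + l})) ∧
      𝔮 ∈ (𝔞 ⊔ Ideal.span (Set.range H)).minimalPrimes := by
  classical
  have hqp : 𝔮.IsPrime := hq.isPrime
  have haq : 𝔞 ≤ 𝔮 := le_sup_left.trans hq.1.2
  have hfq : ∀ j, f j ∈ 𝔮 := fun j => hq.1.2 ((le_sup_right : _ ≤ 𝔞 ⊔ _)
    (Ideal.subset_span ⟨j, rfl⟩))
  have hWq : ∀ J : Set (Fin c), ∀ w ∈ Submodule.span E (f '' J), w ∈ 𝔮 := by
    intro J w hw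
    have h1 : Submodule.span E (f '' J) ≤ 𝔮.restrictScalars E := by
      rw [Submodule.span_le]
      rintro _ ⟨j, -, rfl⟩
      exact hfq j
    exact h1 hw
  have key : ∀ i : ℕ, i ≤ k - κ → ∃ H : Fin i → MvPolynomial (Fin s) E,
      (∀ l : Fin i, H l ∈ Submodule.span E (f '' {j | (j : ℕ) ≤ c - (k - κ) + l})) ∧
      ∀ 𝔭 : Ideal (MvPolynomial (Fin s) E), 𝔭.IsPrime → 𝔞 ⊔ Ideal.span (Set.range H) ≤ 𝔭 →
        𝔭 ≤ 𝔮 → 𝔭 = 𝔮 ∨ ¬ Ind 𝔭 (k - i + 1) := by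
    intro i
    induction i with
    | zero =>
      intro _
      exact ⟨Fin.elim0, fun j => j.elim0, fun 𝔭 h1 h2 h3 =>
        Or.inr (hk 𝔭 h1 (le_sup_left.trans h2) h3)⟩
    | succ i ih =>
      intro hi
      obtain ⟨H, hH, hh⟩ := ih (by omega)
      have hfin : (𝔞 ⊔ Ideal.span (Set.range H)).minimalPrimes.Finite :=
        Ideal.finite_minimalPrimes_of_isNoetherianRing _ _
      obtain ⟨g, hgW, hg⟩ := avoid (Submodule.span E (f '' {j | (j : ℕ) ≤ c - (k - κ) + i}))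
        (T := {𝔭 ∈ (𝔞 ⊔ Ideal.span (Set.range H)).minimalPrimes |
          𝔭 ≤ 𝔮 ∧ 𝔭 ≠ 𝔮 ∧ Ind 𝔭 (k - i)}) (hfin.subset (Set.sep_subset _ _)) (by
          rintro 𝔭 ⟨h1, h2, h3, h4⟩
          by_contra hcon
          push Not at hcon
          have hfj : ∀ j : Fin c, (j : ℕ) ≤ c - (k - κ) + i → f j ∈ 𝔭 := fun j hj =>
            hcon _ (Submodule.subset_span ⟨j, hj, rfl⟩)
          have h5 : 𝔮 ∈ (𝔭 ⊔ Ideal.span (Set.range fun l : Fin ((k - κ) - i - 1) =>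
              f ⟨c - (k - κ) + i + 1 + l, by have := l.2; omega⟩)).minimalPrimes := by
            refine ⟨⟨hqp, sup_le h2 ?_⟩, ?_⟩
            · rw [Ideal.span_le]
              rintro _ ⟨l, rfl⟩
              exact hfq _
            · rintro 𝔱 ⟨ht, ht2⟩ ht3
              refine hq.2 ⟨ht, sup_le ?_ ?_⟩ ht3
              · exact (le_sup_left.trans h1.1.2).trans (le_sup_left.trans ht2)
              · rw [Ideal.span_le]
                rintro _ ⟨j, rfl⟩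
                by_cases hj : (j : ℕ) ≤ c - (k - κ) + i
                · exact le_sup_left.trans ht2 (hfj j hj)
                · refine le_sup_right.trans ht2 (Ideal.subset_span
                    ⟨⟨(j : ℕ) - (c - (k - κ) + i + 1), by have := j.2; omega⟩, ?_⟩)
                  dsimp only
                  congr 1
                  apply Fin.ext
                  dsimp only
                  omega
          refine hκ' (krull _ h1.isPrime (D := κ + 1) ?_ _ h5)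
          rwa [show κ + 1 + (k - κ - i - 1) = k - i by omega])
      refine ⟨Fin.snoc H g, fun j => ?_, fun 𝔭 h1 h2 h3 => ?_⟩
      · refine Fin.lastCases ?_ (fun j => ?_) j
        · rw [Fin.snoc_last, Fin.val_last]
          exact hgW
        · rw [Fin.snoc_castSucc, Fin.val_castSucc]
          exact hH j
      · by_cases h4 : 𝔭 = 𝔮
        · exact Or.inl h4
        right
        intro hI
        have h5 : 𝔞 ⊔ Ideal.span (Set.range H) ≤ 𝔭 := by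
          refine le_trans (sup_le_sup le_rfl (Ideal.span_mono ?_)) h2
          rintro _ ⟨j, rfl⟩
          exact ⟨j.castSucc, by rw [Fin.snoc_castSucc]⟩
        have hgp : g ∈ 𝔭 := le_sup_right.trans h2
          (Ideal.subset_span ⟨Fin.last i, by rw [Fin.snoc_last]⟩)
        obtain ⟨𝔯, hr, hr2⟩ := Ideal.exists_minimalPrimes_le h5
        have hrp : 𝔯.IsPrime := hr.isPrime
        have hrq : 𝔯 ≠ 𝔮 := fun h => h4 (le_antisymm h3 (h ▸ hr2))
        rw [show k - (i + 1) + 1 = k - i by omega] at hI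
        have hlt : 𝔯 < 𝔭 := by
          refine lt_of_le_of_ne hr2 fun h => hg 𝔯 ?_ (by rw [h]; exact hgp)
          exact ⟨hr, hr2.trans h3, hrq, hI.mono hr2⟩
        exact ((hh 𝔯 hrp hr.1.2 (hr2.trans h3)).resolve_left hrq) (hI.lt hrp hlt)
  obtain ⟨H, hH, hh⟩ := key (k - κ) le_rfl
  refine ⟨H, hH, ⟨⟨hqp, sup_le haq ?_⟩, ?_⟩⟩
  · rw [Ideal.span_le]
    rintro _ ⟨j, rfl⟩
    exact hWq _ _ (hH j)
  · rintro 𝔱 ⟨ht, ht2⟩ ht3
    rcases hh 𝔱 ht ht2 ht3 with h | h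
    · rw [h]
    · by_contra hne
      have hlt : 𝔱 < 𝔮 := lt_of_le_of_ne ht3 fun h' => hne (by rw [h'])
      refine h ?_
      rw [show k - (k - κ) + 1 = κ + 1 by omega]
      exact hκ.lt ht hlt

end

section

variable {E K : Type} [Field E] [Infinite E] [Field K] [Algebra E K] {s : ℕ}

/-- **The system of equations of a component.** -/
theorem sys {y : Fin s → K} {e : ℕ → ℕ}
    (he : ∀ k, 1 ≤ k → k ≤ s → ∀ d, Dm E y d k ↔ d ≤ e k) {c : ℕ}
    {f : Fin c → MvPolynomial (Fin s) E} (hf0 : ∀ j, aeval y (f j) = 0) {d i : ℕ} (hi : i ≤ c)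
    (hfi : ∀ j : Fin c, (j : ℕ) < i → (f j).totalDegree ≤ d) {k : ℕ} (hk : Dm E y d k)
    (hk' : ¬ Dm E y d (k + 1)) :
    ∃ (κ : ℕ) (G : Fin (s - k) → MvPolynomial (Fin s) E) (H : Fin (k - κ) → MvPolynomial (Fin s) E)
      (𝔮 : Ideal (MvPolynomial (Fin s) E)), k ≤ κ + (c - i) ∧ κ ≤ k ∧ Ind 𝔮 κ ∧ ¬ Ind 𝔮 (κ + 1) ∧
      𝔮 ≤ RingHom.ker (aeval y : MvPolynomial (Fin s) E →ₐ[E] K) ∧
      (∀ l : Fin (s - k), (G l).totalDegree ≤ e (s - l) + 1) ∧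
      (∀ l : Fin (k - κ), H l ∈ Submodule.span E (f '' {j | (j : ℕ) ≤ c - (k - κ) + l})) ∧
      𝔮 ∈ (Ideal.span (Set.range G ∪ Set.range H)).minimalPrimes ∧ ∀ j, f j ∈ 𝔮 := by
  classical
  have hks : k ≤ s := hk.le
  obtain ⟨𝔭, hp, hp2, hp3, hp4⟩ := hk
  have hprime : (RingHom.ker (aeval y : MvPolynomial (Fin s) E →ₐ[E] K)).IsPrime :=
    RingHom.ker_isPrime _
  obtain ⟨G, hG, hG2⟩ := sys1 (fun l => lowd E y (e (s - l) + 1))
    (𝔪 := RingHom.ker (aeval y : MvPolynomial (Fin s) E →ₐ[E] K)) (k := k) (fun l hl 𝔯 h1 h2 h3 hI => by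
      have h4 := (he (s - l) (by omega) (by omega) (e (s - l) + 1)).1 ⟨𝔯, h1, h2, h3, hI⟩
      omega) hks
  have hGp : ∀ l, G l ∈ 𝔭 := by
    intro l
    have h1 := l.2
    have h2 : e (s - l) < d := by
      by_contra hcon
      exact hk' (((he (s - l) (by omega) (by omega) d).2 (by omega)).of_le (by omega))
    have h3 := mem_lowd.1 (hG l)
    exact hp2 _ (mem_lowd.2 ⟨by omega, h3.2⟩)
  have hfp : ∀ j : Fin c, (j : ℕ) < i → f j ∈ 𝔭 := fun j hj =>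
    hp2 _ (mem_lowd.2 ⟨hfi j hj, hf0 j⟩)
  obtain ⟨g, hg⟩ : ∃ g : Fin (c - i) → MvPolynomial (Fin s) E,
    g = fun l : Fin (c - i) => f ⟨i + l, by have := l.2; omega⟩ := ⟨_, rfl⟩
  have hle : 𝔭 ⊔ Ideal.span (Set.range g) ≤
      RingHom.ker (aeval y : MvPolynomial (Fin s) E →ₐ[E] K) := by
    refine sup_le hp3 ?_
    rw [Ideal.span_le, hg]
    rintro _ ⟨l, rfl⟩
    exact hf0 _
  obtain ⟨𝔮1, hq1, hq1m⟩ := Ideal.exists_minimalPrimes_le hle
  have hq1p : 𝔮1.IsPrime := hq1.isPrime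
  have hI1 : Ind 𝔮1 (k - (c - i)) := by
    by_cases h : c - i ≤ k
    · refine krull _ hp (D := k - (c - i)) ?_ g hq1
      rwa [Nat.sub_add_cancel h]
    · rw [show k - (c - i) = 0 by omega]
      exact ind_zero hq1p.ne_top
  have hle2 : Ideal.span (Set.range G) ⊔ Ideal.span (Set.range f) ≤ 𝔮1 := by
    refine sup_le ?_ ?_
    · rw [Ideal.span_le]
      rintro _ ⟨l, rfl⟩
      exact hq1.1.2 (le_sup_left (a := 𝔭) (hGp l))
    · rw [Ideal.span_le]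
      rintro _ ⟨j, rfl⟩
      by_cases hj : (j : ℕ) < i
      · exact hq1.1.2 (le_sup_left (a := 𝔭) (hfp j hj))
      · refine hq1.1.2 ((le_sup_right : _ ≤ 𝔭 ⊔ _) (Ideal.subset_span
          ⟨⟨(j : ℕ) - i, by have := j.2; omega⟩, ?_⟩))
        rw [hg]
        dsimp only
        congr 1
        apply Fin.ext
        dsimp only
        omega
  obtain ⟨𝔮, hq, hqle⟩ := Ideal.exists_minimalPrimes_le hle2
  have hqp : 𝔮.IsPrime := hq.isPrime
  have hqm := hqle.trans hq1m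
  obtain ⟨κ, hκ, hκ'⟩ : ∃ κ, Ind 𝔮 κ ∧ ¬ Ind 𝔮 (κ + 1) := by
    by_contra hcon
    push Not at hcon
    have key : ∀ D, Ind 𝔮 D := by
      intro D
      induction D with
      | zero => exact ind_zero hqp.ne_top
      | succ D ih => exact hcon D ih
    have := (key (s + 1)).le hqp
    omega
  have h1 : k ≤ κ + (c - i) := by
    by_contra hcon
    exact hκ' ((hI1.mono hqle).of_le (by omega))
  have hkq : ∀ 𝔯 : Ideal (MvPolynomial (Fin s) E), 𝔯.IsPrime → Ideal.span (Set.range G) ≤ 𝔯 →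
      𝔯 ≤ 𝔮 → ¬ Ind 𝔯 (k + 1) := fun 𝔯 h1 h2 h3 => hG2 𝔯 h1 h2 (h3.trans hqm)
  have h2 : κ ≤ k := by
    by_contra hcon
    exact hkq 𝔮 hqp (le_sup_left.trans hq.1.2) le_rfl (hκ.of_le (by omega))
  obtain ⟨H, hH, hH2⟩ := sys2 _ f hq hkq hκ hκ' h2 (by omega)
  refine ⟨κ, G, H, 𝔮, h1, h2, hκ, hκ', hqm, fun l => (mem_lowd.1 (hG l)).1, hH, ?_, fun j =>
    hq.1.2 ((le_sup_right : _ ≤ Ideal.span (Set.range G) ⊔ _) (Ideal.subset_span ⟨j, rfl⟩))⟩
  rwa [Ideal.span_union]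

end

end Pool.Agent.U598.MD
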